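import Pool.Agent.Helper290.Liou.Stmt

set_option autoImplicit false

open Set Filter Topology MeasureTheory Complex
open scoped ENNReal ContDiff

namespace Pool.Agent.Helper290.Liou

/-! ### General theory -/

/-- A proper function with bounded gradient. -/
structure Good (U : Set ℂ) (φ P : ℂ → ℝ) (B : ℝ) : Prop where
  op : IsOpen U
  sm : ContDiffOn ℝ ∞ φ U
  Bnn : 0 ≤ B
  Pd : ∀ z ∈ U, DifferentiableAt ℝ P z
  Pb : ∀ z ∈ U, ∀ w, |fderiv ℝ P z w| ≤ B * (Real.exp (φ z) * ‖w‖)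
  Pc : ∀ c : ℝ, IsCompact {z | z ∈ U ∧ P z ≤ c}

/-- component along the flow direction -/
noncomputable def al (φ : ℂ → ℝ) (p ξ : ℂ × ℝ) : ℝ :=
  Real.exp (2 * φ p.1) * ((starRingEnd ℂ) (uvec φ p) * ξ.1).re

/-- normal component -/
noncomputable def jj (φ : ℂ → ℝ) (p ξ : ℂ × ℝ) : ℝ :=
  Real.exp (2 * φ p.1) * ((starRingEnd ℂ) (uvec φ p) * ξ.1).im

/-- vertical component -/
noncomputable def ww (φ : ℂ → ℝ) (p ξ : ℂ × ℝ) : ℝ := ξ.2 - fderiv ℝ φ p.1 (I * ξ.1)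

/-! ### The example -/

noncomputable def FF (z : ℂ) : ℝ :=
  7 - 3 * Real.cos z.re - 3 * Real.cos z.im - Real.cos z.re * Real.cos z.im

/-- the plane minus the lattice `2πℤ + 2πiℤ` -/
def UU : Set ℂ := {z | FF z ≠ 0}

noncomputable def LL (z : ℂ) : ℝ := 7 - Real.log (FF z)

noncomputable def NN (z : ℂ) : ℝ := 10000 + z.re ^ 2 + z.im ^ 2

noncomputable def TT (z : ℂ) : ℝ := Real.log (NN z)

noncomputable def SS (z : ℂ) : ℝ := Real.sqrt (NN z) * TT z

/-- the conformal factor: `e^{2φ} = 1 / (F L² S²)` -/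
noncomputable def phi (z : ℂ) : ℝ := -(Real.log (FF z) / 2) - Real.log (LL z) - Real.log (SS z)

noncomputable def PP (z : ℂ) : ℝ := Real.log (LL z) / SS z + Real.log (TT z)

/-- differential of `FF` -/
noncomputable def dF (z w : ℂ) : ℝ :=
  Real.sin z.re * (3 + Real.cos z.im) * w.re + Real.sin z.im * (3 + Real.cos z.re) * w.im

/-- differential of `NN` -/
noncomputable def dN (z w : ℂ) : ℝ := 2 * (z.re * w.re + z.im * w.im)

/-- `|∇F|²` -/
noncomputable def GG (z : ℂ) : ℝ :=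
  (Real.sin z.re * (3 + Real.cos z.im)) ^ 2 + (Real.sin z.im * (3 + Real.cos z.re)) ^ 2

/-- `ΔF` -/
noncomputable def LF (z : ℂ) : ℝ :=
  3 * Real.cos z.re + 3 * Real.cos z.im + 2 * Real.cos z.re * Real.cos z.im

/-- `-Δ log F` -/
noncomputable def QQ (z : ℂ) : ℝ := (GG z - FF z * LF z) / FF z ^ 2

/-- `Δ log S` -/
noncomputable def LS (z : ℂ) : ℝ :=
  20000 / NN z ^ 2 + 40000 / (NN z ^ 2 * TT z) - 4 * (NN z - 10000) / (NN z ^ 2 * TT z ^ 2)

end Pool.Agent.Helper290.Liou
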