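import Pool.Agent.Helper290.Liou.Defs

set_option autoImplicit false

open Set Filter Topology MeasureTheory Complex
open scoped ENNReal ContDiff

namespace Pool.Agent.Helper290.Liou



theorem N_facts (z : ℂ) : 10000 ≤ NN z ∧ 9 ≤ TT z ∧ TT z ≤ Real.sqrt (NN z) ∧ 900 ≤ SS z ∧
    ‖z‖ ^ 2 ≤ NN z ∧ 9 * Real.sqrt (NN z) ≤ SS z ∧ SS z ≤ NN z := by
  have h1 : 10000 ≤ NN z := by
    unfold NN
    nlinarith [sq_nonneg z.re, sq_nonneg z.im]
  have h0 : 0 < NN z := by linarith
  have hs : 100 ≤ Real.sqrt (NN z) := by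
    refine Real.le_sqrt_of_sq_le ?_
    linarith
  have hT : 9 ≤ TT z := by
    unfold TT
    rw [Real.le_log_iff_exp_le h0]
    have h2 : Real.exp 9 = Real.exp 1 ^ 9 := by
      rw [← Real.exp_nat_mul]
      norm_num
    have h3 : Real.exp 1 ^ 9 ≤ 2.72 ^ 9 :=
      pow_le_pow_left₀ (Real.exp_pos 1).le (by linarith [Real.exp_one_lt_d9]) 9
    rw [h2]
    refine h3.trans (le_trans ?_ h1)
    norm_num
  have hTs : TT z ≤ Real.sqrt (NN z) := by
    have hx : 0 < Real.sqrt (NN z) := by linarith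
    have h2 : TT z = 2 * Real.log (Real.sqrt (NN z)) := by
      unfold TT
      rw [Real.log_sqrt h0.le]
      ring
    have h3 := Real.log_le_sub_one_of_pos (show 0 < Real.sqrt (NN z) / 2 by linarith)
    rw [Real.log_div hx.ne' (by norm_num)] at h3
    have h4 := Real.log_two_lt_d9
    rw [h2]
    linarith
  have hsq : Real.sqrt (NN z) * Real.sqrt (NN z) = NN z := Real.mul_self_sqrt h0.le
  refine ⟨h1, hT, hTs, ?_, ?_, ?_, ?_⟩
  · unfold SS
    nlinarith
  · rw [Complex.sq_norm, Complex.normSq_apply]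
    unfold NN
    nlinarith
  · unfold SS
    nlinarith
  · unfold SS
    calc Real.sqrt (NN z) * TT z ≤ Real.sqrt (NN z) * Real.sqrt (NN z) :=
          mul_le_mul_of_nonneg_left hTs (Real.sqrt_nonneg _)
      _ = NN z := hsq

end Pool.Agent.Helper290.Liou
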