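import Pool.Agent.Helper290.Liou.Defs
import Pool.Agent.Helper290.Liou.P_N_facts

set_option autoImplicit false

open Set Filter Topology MeasureTheory Complex
open scoped ENNReal ContDiff

namespace Pool.Agent.Helper290.Liou



theorem LS_facts (z : ℂ) : |LS z| ≤ 1 / 1000 := by
  have hN : 10000 ≤ NN z := by unfold NN; nlinarith [sq_nonneg z.re, sq_nonneg z.im]
  have hT : 1 ≤ TT z := by
    unfold TT
    rw [Real.le_log_iff_exp_le (by linarith)]
    have := Real.exp_one_lt_d9
    linarith
  unfold LS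
  generalize NN z = N at *
  generalize TT z = T at *
  have hN0 : 0 < N := by linarith
  have hT0 : 0 < T := by linarith
  have hN2 : 100000000 ≤ N ^ 2 := by nlinarith
  have hNT : N ^ 2 ≤ N ^ 2 * T := le_mul_of_one_le_right (by positivity) hT
  have hT2 : 1 ≤ T ^ 2 := one_le_pow₀ hT
  have hNT2 : N ^ 2 ≤ N ^ 2 * T ^ 2 := le_mul_of_one_le_right (by positivity) hT2
  have h1 : 0 ≤ 20000 / N ^ 2 := by positivity
  have h2 : 20000 / N ^ 2 ≤ 2 / 10000 := by
    rw [div_le_div_iff₀ (by positivity) (by norm_num)]; nlinarith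
  have h3 : 0 ≤ 40000 / (N ^ 2 * T) := by positivity
  have h4 : 40000 / (N ^ 2 * T) ≤ 4 / 10000 := by
    rw [div_le_div_iff₀ (by positivity) (by norm_num)]; nlinarith
  have h5 : 0 ≤ 4 * (N - 10000) / (N ^ 2 * T ^ 2) := by
    apply div_nonneg _ (by positivity)
    linarith
  have h6 : 4 * (N - 10000) / (N ^ 2 * T ^ 2) ≤ 4 / 10000 := by
    rw [div_le_div_iff₀ (by positivity) (by norm_num)]
    have : 4 * (N - 10000) * 10000 ≤ 4 * N ^ 2 := by nlinarith
    linarith
  rw [abs_le]
  constructor <;> linarith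

end Pool.Agent.Helper290.Liou
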