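import Pool.Agent.Helper290.Liou.Defs

set_option autoImplicit false

open Set Filter Topology MeasureTheory Complex
open scoped ENNReal ContDiff

namespace Pool.Agent.Helper290.Liou



theorem ff_aux1 (a b : ℝ) (ha0 : 0 ≤ a) (ha1 : a ≤ 1) (hb0 : 0 ≤ b) (hb1 : b ≤ 1) :
    a * (1 - a) * (2 - b) ^ 2 ≤ a * 4 := by
  have h1 : a * (1 - a) ≤ a * 1 := mul_le_mul_of_nonneg_left (by linarith) ha0
  have h2 : (2 - b) ^ 2 ≤ 2 ^ 2 := pow_le_pow_left₀ (by linarith) (by linarith) 2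
  have h3 : a * (1 - a) * (2 - b) ^ 2 ≤ a * 1 * 2 ^ 2 :=
    mul_le_mul h1 h2 (sq_nonneg _) (by linarith)
  linarith

theorem ff_aux2 (a b : ℝ) (ha0 : 0 ≤ a) (ha1 : a ≤ 1 / 2) (hb1 : b ≤ 1) :
    a * (1 / 2) ≤ a * (1 - a) * (2 - b) ^ 2 := by
  have h1 : a * (1 / 2) ≤ a * (1 - a) := mul_le_mul_of_nonneg_left (by linarith) ha0
  have h2 : 1 ^ 2 ≤ (2 - b) ^ 2 := pow_le_pow_left₀ (by norm_num) (by linarith) 2
  have h3 : a * (1 / 2) * 1 ^ 2 ≤ a * (1 - a) * (2 - b) ^ 2 :=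
    mul_le_mul h1 h2 (by norm_num) (mul_nonneg ha0 (by linarith))
  linarith

theorem ff_aux3 (a b : ℝ) (ha0 : 0 ≤ a) (ha1 : a ≤ 1) (hb0 : 0 ≤ b) (hb1 : b ≤ 1)
    (h : 2 * a + 2 * b - a * b < 1) : a ≤ 1 / 2 := by
  by_contra hc
  push Not at hc
  have h2 : a * b ≤ 1 * b := mul_le_mul_of_nonneg_right ha1 hb0
  linarith

theorem ff_aux (a b : ℝ) (ha0 : 0 ≤ a) (ha1 : a ≤ 1) (hb0 : 0 ≤ b) (hb1 : b ≤ 1) :
    0 ≤ 4 * (2 * a + 2 * b - a * b) ∧ 4 * (2 * a + 2 * b - a * b) ≤ 12 ∧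
    16 * (a * (1 - a) * (2 - b) ^ 2 + b * (1 - b) * (2 - a) ^ 2) ≤
      16 * (4 * (2 * a + 2 * b - a * b)) ∧
    4 * (2 * a + 2 * b - a * b) ≤
      16 * (a * (1 - a) * (2 - b) ^ 2 + b * (1 - b) * (2 - a) ^ 2) +
      (4 * (2 * a + 2 * b - a * b)) ^ 2 / 4 := by
  have hab : 0 ≤ a * b := mul_nonneg ha0 hb0
  have h1 : a * b ≤ a := by
    have := mul_le_mul_of_nonneg_left hb1 ha0
    linarith
  have h2 : a * b ≤ b := by
    have := mul_le_mul_of_nonneg_right ha1 hb0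
    linarith
  refine ⟨by linarith, ?_, ?_, ?_⟩
  · have := mul_nonneg (sub_nonneg.2 ha1) (sub_nonneg.2 hb1)
    have e : (1 - a) * (1 - b) = 1 - a - b + a * b := by ring
    rw [e] at this
    linarith
  · have e1 := ff_aux1 a b ha0 ha1 hb0 hb1
    have e2 := ff_aux1 b a hb0 hb1 ha0 ha1
    linarith
  · obtain ⟨u, hu⟩ : ∃ u, u = 2 * a + 2 * b - a * b := ⟨_, rfl⟩
    have hu0 : 0 ≤ u := by rw [hu]; linarith
    rcases le_or_gt 1 u with h | h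
    · have e1 : 0 ≤ a * (1 - a) * (2 - b) ^ 2 :=
        mul_nonneg (mul_nonneg ha0 (by linarith)) (sq_nonneg _)
      have e2 : 0 ≤ b * (1 - b) * (2 - a) ^ 2 :=
        mul_nonneg (mul_nonneg hb0 (by linarith)) (sq_nonneg _)
      rw [← hu]
      have e3 : u * 1 ≤ u * u := mul_le_mul_of_nonneg_left h hu0
      have e4 : (4 * u) ^ 2 / 4 = 4 * (u * u) := by ring
      rw [e4]
      linarith
    · rw [hu] at h
      have e1 := ff_aux2 a b ha0 (ff_aux3 a b ha0 ha1 hb0 hb1 h) hb1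
      have e2 := ff_aux2 b a hb0 (ff_aux3 b a hb0 hb1 ha0 ha1 (by linarith)) ha1
      have e3 : 0 ≤ (4 * (2 * a + 2 * b - a * b)) ^ 2 / 4 := by positivity
      linarith

/-- `F = (1-X)(3+Y) + 4(1-Y)` with `X = cos x`, `Y = cos y`. -/
theorem F_facts (z : ℂ) : 0 ≤ FF z ∧ FF z ≤ 12 ∧ GG z ≤ 16 * FF z ∧
    FF z ≤ GG z + FF z ^ 2 / 4 := by
  have hX1 : Real.cos z.re ≤ 1 := Real.cos_le_one _
  have hX0 : -1 ≤ Real.cos z.re := Real.neg_one_le_cos _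
  have hY1 : Real.cos z.im ≤ 1 := Real.cos_le_one _
  have hY0 : -1 ≤ Real.cos z.im := Real.neg_one_le_cos _
  have hF' : FF z = 4 * (2 * ((1 - Real.cos z.re) / 2) + 2 * ((1 - Real.cos z.im) / 2) -
      ((1 - Real.cos z.re) / 2) * ((1 - Real.cos z.im) / 2)) := by rw [FF]; ring
  have hG' : GG z = 16 * (((1 - Real.cos z.re) / 2) * (1 - (1 - Real.cos z.re) / 2) *
      (2 - (1 - Real.cos z.im) / 2) ^ 2 + ((1 - Real.cos z.im) / 2) *
      (1 - (1 - Real.cos z.im) / 2) * (2 - (1 - Real.cos z.re) / 2) ^ 2) := by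
    rw [GG, mul_pow, mul_pow, Real.sin_sq, Real.sin_sq]; ring
  rw [hF', hG']
  exact ff_aux _ _ (by linarith) (by linarith) (by linarith) (by linarith)

end Pool.Agent.Helper290.Liou
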