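import Pool.Agent.Helper290.Liou.Defs
import Pool.Agent.Helper290.Liou.P_F_facts

set_option autoImplicit false

open Set Filter Topology MeasureTheory Complex
open scoped ENNReal ContDiff

namespace Pool.Agent.Helper290.Liou



theorem L_facts (z : ℂ) (hz : z ∈ UU) : 0 < FF z ∧ 4 ≤ LL z ∧ FF z * LL z ^ 2 ≤ 256 ∧
    FF z * LL z ^ 4 ≤ 6000 := by
  obtain ⟨h0, h12, -, -⟩ := F_facts z
  have hF : 0 < FF z := lt_of_le_of_ne h0 (Ne.symm hz)
  have e1 := Real.exp_one_gt_d9
  have e2 := Real.exp_one_lt_d9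
  have e5 : Real.exp 5 = Real.exp 1 ^ 5 := by
    rw [← Real.exp_nat_mul]; norm_num
  have e25 : Real.exp (5 / 2) ^ 2 = Real.exp 5 := by
    rw [← Real.exp_nat_mul]; norm_num
  have e5lo : 144 < Real.exp 5 := by
    rw [e5]
    calc (144 : ℝ) < 2.7182818283 ^ 5 := by norm_num
      _ ≤ Real.exp 1 ^ 5 := by gcongr
  have e5hi : Real.exp 5 < 148.84 := by
    rw [e5]
    calc Real.exp 1 ^ 5 ≤ 2.7182818286 ^ 5 := by gcongr
      _ < 148.84 := by norm_num
  have hE0 : 0 < Real.exp (5 / 2) := Real.exp_pos _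
  have hElo : 12 < Real.exp (5 / 2) := by nlinarith
  have hEhi : Real.exp (5 / 2) < 12.2 := by nlinarith
  have hlog : Real.log (FF z) < 5 / 2 := by
    rw [Real.log_lt_iff_lt_exp hF]; linarith
  have hL : 9 / 2 < LL z := by unfold LL; linarith
  set s := LL z - 9 / 2 with hs
  have hs0 : 0 < s := by linarith
  set t := Real.exp (s / (9 / 2)) with ht
  have ht1 : 1 ≤ t := Real.one_le_exp (by positivity)
  have ht0 : 0 < t := by linarith
  have hLt : LL z ≤ 9 / 2 * t := by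
    have := Real.add_one_le_exp (s / (9 / 2))
    rw [← ht] at this
    have h2 : s / (9 / 2) + 1 = LL z / (9 / 2) := by rw [hs]; ring
    rw [h2, div_le_iff₀ (by norm_num)] at this
    linarith
  have hFe : FF z = Real.exp (5 / 2) * Real.exp (-s) := by
    rw [← Real.exp_add]
    have : 5 / 2 + -s = Real.log (FF z) := by rw [hs]; unfold LL; ring
    rw [this, Real.exp_log hF]
  have ht4 : t ^ 4 = Real.exp (4 * (s / (9 / 2))) := by
    rw [ht, ← Real.exp_nat_mul]; norm_num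
  have hFt : FF z * t ^ 4 ≤ Real.exp (5 / 2) := by
    rw [hFe, ht4, mul_assoc, ← Real.exp_add]
    have : Real.exp (-s + 4 * (s / (9 / 2))) ≤ 1 := by
      rw [Real.exp_le_one_iff]
      have : -s + 4 * (s / (9 / 2)) = - (s / 9) := by ring
      rw [this]
      have : 0 < s / 9 := by positivity
      linarith
    nlinarith
  have hL0 : 0 ≤ LL z := by linarith
  have hL2 : LL z ^ 2 ≤ (9 / 2 * t) ^ 2 := by gcongr
  have hL4 : LL z ^ 4 ≤ (9 / 2 * t) ^ 4 := by gcongr
  have ht24 : t ^ 2 ≤ t ^ 4 := pow_le_pow_right₀ ht1 (by norm_num)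
  refine ⟨hF, by linarith, ?_, ?_⟩
  · calc FF z * LL z ^ 2 ≤ FF z * (9 / 2 * t) ^ 2 := by gcongr
      _ = (81 / 4) * (FF z * t ^ 2) := by ring
      _ ≤ (81 / 4) * (FF z * t ^ 4) := by gcongr
      _ ≤ (81 / 4) * 12.2 := by gcongr; linarith
      _ ≤ 256 := by norm_num
  · calc FF z * LL z ^ 4 ≤ FF z * (9 / 2 * t) ^ 4 := by gcongr
      _ = (6561 / 16) * (FF z * t ^ 4) := by ring
      _ ≤ (6561 / 16) * 12.2 := by gcongr; linarith
      _ ≤ 6000 := by norm_num

end Pool.Agent.Helper290.Liou
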