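import Pool.Agent.Helper290.Liou.Defs
import Pool.Agent.Helper290.Liou.P_F_facts
import Pool.Agent.Helper290.Liou.P_N_facts

set_option autoImplicit false

open Set Filter Topology MeasureTheory Complex
open scoped ENNReal ContDiff

namespace Pool.Agent.Helper290.Liou



private theorem j29329_cs (A B a b : ℝ) : (A * a + B * b) ^ 2 ≤ (A ^ 2 + B ^ 2) * (a ^ 2 + b ^ 2) := by
  nlinarith [sq_nonneg (A * b - B * a)]

theorem dF_le (z w : ℂ) : |dF z w| ≤ 4 * Real.sqrt (FF z) * ‖w‖ ∧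
    |dN z w| ≤ 2 * Real.sqrt (NN z) * ‖w‖ := by
  obtain ⟨f1, -, f3, -⟩ := F_facts z
  obtain ⟨n1, -⟩ := N_facts z
  have hw : ‖w‖ ^ 2 = w.re ^ 2 + w.im ^ 2 := by
    rw [Complex.sq_norm, Complex.normSq_apply]; ring
  constructor
  · refine abs_le_of_sq_le_sq ?_ (by positivity)
    have h1 := j29329_cs (Real.sin z.re * (3 + Real.cos z.im)) (Real.sin z.im * (3 + Real.cos z.re))
      w.re w.im
    have h2 : (4 * Real.sqrt (FF z) * ‖w‖) ^ 2 = 16 * FF z * (w.re ^ 2 + w.im ^ 2) := by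
      rw [mul_pow, mul_pow, Real.sq_sqrt f1, hw]; norm_num
    rw [h2]
    unfold dF
    refine h1.trans ?_
    exact mul_le_mul_of_nonneg_right f3 (by positivity)
  · refine abs_le_of_sq_le_sq ?_ (by positivity)
    have h1 := j29329_cs z.re z.im w.re w.im
    have h2 : (2 * Real.sqrt (NN z) * ‖w‖) ^ 2 = 4 * NN z * (w.re ^ 2 + w.im ^ 2) := by
      rw [mul_pow, mul_pow, Real.sq_sqrt (by linarith), hw]; norm_num
    rw [h2]
    have h3 : (dN z w) ^ 2 = 4 * (z.re * w.re + z.im * w.im) ^ 2 := by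
      unfold dN; ring
    rw [h3]
    have h4 : z.re ^ 2 + z.im ^ 2 ≤ NN z := by unfold NN; linarith
    have h5 : (z.re ^ 2 + z.im ^ 2) * (w.re ^ 2 + w.im ^ 2) ≤ NN z * (w.re ^ 2 + w.im ^ 2) :=
      mul_le_mul_of_nonneg_right h4 (by positivity)
    linarith

end Pool.Agent.Helper290.Liou
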