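import Pool.Agent.Helper290.Liou.Defs
import Pool.Agent.Helper290.Liou.P_N_facts
import Pool.Agent.Helper290.Liou.P_dF_le

set_option autoImplicit false

open Set Filter Topology MeasureTheory Complex
open scoped ENNReal ContDiff

namespace Pool.Agent.Helper290.Liou



theorem N_hasFDeriv (z : ℂ) : HasFDerivAt NN ((2 * z.re) • reCLM + (2 * z.im) • imCLM) z := by
  have h1 : HasFDerivAt (fun z : ℂ => z.re) reCLM z := reCLM.hasFDerivAt
  have h2 : HasFDerivAt (fun z : ℂ => z.im) imCLM z := imCLM.hasFDerivAt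
  have h3 := ((h1.pow 2).const_add 10000).add (h2.pow 2)
  have e : ((2 * z.re) • reCLM + (2 * z.im) • imCLM : ℂ →L[ℝ] ℝ) =
      ((2 • z.re ^ (2 - 1)) • reCLM + (2 • z.im ^ (2 - 1)) • imCLM : ℂ →L[ℝ] ℝ) := by
    simp
  rw [e]
  exact h3

theorem S_deriv (z : ℂ) : DifferentiableAt ℝ SS z ∧ ∀ w, fderiv ℝ SS z w =
    SS z * (dN z w / (2 * NN z) + dN z w / (NN z * TT z)) ∧
    |fderiv ℝ SS z w| ≤ SS z * (5 / 4 / Real.sqrt (NN z)) * ‖w‖ := by
  obtain ⟨hN, hT9, hTs, hS, hzN, -, hSN⟩ := N_facts z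
  have hN0 : 0 < NN z := by linarith
  have hs0 : 0 < Real.sqrt (NN z) := Real.sqrt_pos.mpr hN0
  have hs2 : Real.sqrt (NN z) ^ 2 = NN z := Real.sq_sqrt hN0.le
  have hT0 : 0 < TT z := by linarith
  have hf : HasDerivAt (fun t : ℝ => Real.sqrt t * Real.log t)
      (1 / (2 * Real.sqrt (NN z)) * Real.log (NN z) + Real.sqrt (NN z) * (NN z)⁻¹) (NN z) :=
    (Real.hasDerivAt_sqrt hN0.ne').mul (Real.hasDerivAt_log hN0.ne')
  have hd := hf.comp_hasFDerivAt z (N_hasFDeriv z)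
  have hd' : HasFDerivAt SS ((1 / (2 * Real.sqrt (NN z)) * Real.log (NN z) +
      Real.sqrt (NN z) * (NN z)⁻¹) • ((2 * z.re) • reCLM + (2 * z.im) • imCLM)) z := hd
  refine ⟨hd'.differentiableAt, fun w => ?_⟩
  have h1 : fderiv ℝ SS z w = SS z * (dN z w / (2 * NN z) + dN z w / (NN z * TT z)) := by
    rw [hd'.fderiv]
    have e1 : ((1 / (2 * Real.sqrt (NN z)) * Real.log (NN z) +
      Real.sqrt (NN z) * (NN z)⁻¹) • ((2 * z.re) • reCLM + (2 * z.im) • imCLM) : ℂ →L[ℝ] ℝ) w =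
      (1 / (2 * Real.sqrt (NN z)) * TT z + Real.sqrt (NN z) * (NN z)⁻¹) * dN z w := by
      unfold dN TT
      simp only [smul_apply, add_apply, reCLM_apply, imCLM_apply, smul_eq_mul]
      ring
    rw [e1]
    have e2 : SS z = Real.sqrt (NN z) * TT z := rfl
    rw [e2]
    generalize Real.sqrt (NN z) = s at *
    rw [← hs2]
    field_simp
  refine ⟨h1, ?_⟩
  rw [h1]
  have hS0 : 0 < SS z := by linarith
  have e3 : SS z * (dN z w / (2 * NN z) + dN z w / (NN z * TT z)) =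
      SS z * (1 / (2 * NN z) + 1 / (NN z * TT z)) * dN z w := by ring
  rw [e3, abs_mul, abs_of_nonneg (by positivity)]
  have h2 := (dF_le z w).2
  calc SS z * (1 / (2 * NN z) + 1 / (NN z * TT z)) * |dN z w|
      ≤ SS z * (1 / (2 * NN z) + 1 / (NN z * TT z)) * (2 * Real.sqrt (NN z) * ‖w‖) :=
        mul_le_mul_of_nonneg_left h2 (by positivity)
    _ = SS z * ((1 + 2 / TT z) / Real.sqrt (NN z)) * ‖w‖ := by
        generalize Real.sqrt (NN z) = s at *
        rw [← hs2]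
        field_simp
    _ ≤ SS z * (5 / 4 / Real.sqrt (NN z)) * ‖w‖ := by
        refine mul_le_mul_of_nonneg_right (mul_le_mul_of_nonneg_left ?_ hS0.le) (norm_nonneg _)
        refine div_le_div_of_nonneg_right ?_ hs0.le
        have : 2 / TT z ≤ 2 / 9 := div_le_div_of_nonneg_left (by norm_num) (by norm_num) hT9
        linarith

end Pool.Agent.Helper290.Liou
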