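import Pool.Agent.Helper290.Liou.Defs
import Pool.Agent.Helper290.Liou.P_L_facts
import Pool.Agent.Helper290.Liou.P_N_facts

set_option autoImplicit false

open Set Filter Topology MeasureTheory Complex
open scoped ENNReal ContDiff

namespace Pool.Agent.Helper290.Liou



theorem exp_phi (z : ℂ) (hz : z ∈ UU) :
    Real.exp (2 * phi z) = 1 / (FF z * LL z ^ 2 * SS z ^ 2) ∧
    Real.exp (-2 * phi z) = FF z * LL z ^ 2 * SS z ^ 2 ∧
    Real.exp (-phi z) = Real.sqrt (FF z) * LL z * SS z ∧
    Real.exp (phi z) = 1 / (Real.sqrt (FF z) * LL z * SS z) := by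
  obtain ⟨hF, hL, _, _⟩ := L_facts z hz
  obtain ⟨_, _, _, hS, _, _, _⟩ := N_facts z
  have hL0 : 0 < LL z := by linarith
  have hS0 : 0 < SS z := by linarith
  have h3 : Real.exp (-phi z) = Real.sqrt (FF z) * LL z * SS z := by
    have e : -phi z = Real.log (FF z) / 2 + Real.log (LL z) + Real.log (SS z) := by
      unfold phi; ring
    rw [e, Real.exp_add, Real.exp_add, Real.exp_log hL0, Real.exp_log hS0, Real.exp_half,
      Real.exp_log hF]
  have h4 : Real.exp (phi z) = 1 / (Real.sqrt (FF z) * LL z * SS z) := by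
    rw [← h3, Real.exp_neg, one_div, inv_inv]
  have h2 : Real.exp (-2 * phi z) = FF z * LL z ^ 2 * SS z ^ 2 := by
    have e : -2 * phi z = -phi z + -phi z := by ring
    rw [e, Real.exp_add, h3]
    have hs : Real.sqrt (FF z) * Real.sqrt (FF z) = FF z := Real.mul_self_sqrt hF.le
    calc Real.sqrt (FF z) * LL z * SS z * (Real.sqrt (FF z) * LL z * SS z)
        = (Real.sqrt (FF z) * Real.sqrt (FF z)) * LL z ^ 2 * SS z ^ 2 := by ring
      _ = _ := by rw [hs]
  have h1 : Real.exp (2 * phi z) = 1 / (FF z * LL z ^ 2 * SS z ^ 2) := by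
    rw [← h2, one_div, ← Real.exp_neg]
    congr 1
    ring
  exact ⟨h1, h2, h3, h4⟩

end Pool.Agent.Helper290.Liou
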