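import Pool.Agent.Helper290.Liou.Defs
import Pool.Agent.Helper290.Liou.P_F_facts
import Pool.Agent.Helper290.Liou.P_L_facts
import Pool.Agent.Helper290.Liou.P_N_facts
import Pool.Agent.Helper290.Liou.P_exp_phi
import Pool.Agent.Helper290.Liou.P_dF_le
import Pool.Agent.Helper290.Liou.P_S_deriv

set_option autoImplicit false

open Set Filter Topology MeasureTheory Complex
open scoped ENNReal ContDiff

namespace Pool.Agent.Helper290.Liou



theorem FF_hasF' (z : ℂ) : ∃ L : ℂ →L[ℝ] ℝ, HasFDerivAt FF L z ∧ ∀ w, L w = dF z w := by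
  have hre : HasFDerivAt (fun z : ℂ => z.re) Complex.reCLM z := Complex.reCLM.hasFDerivAt
  have him : HasFDerivAt (fun z : ℂ => z.im) Complex.imCLM z := Complex.imCLM.hasFDerivAt
  have hcx := hre.cos
  have hcy := him.cos
  have h1 := (((hcx.const_mul (3:ℝ)).const_sub (7:ℝ)).sub (hcy.const_mul (3:ℝ))).sub (hcx.mul hcy)
  refine ⟨_, h1, ?_⟩
  intro w
  simp [dF]
  ring

theorem NN_hasF' (z : ℂ) : ∃ L : ℂ →L[ℝ] ℝ, HasFDerivAt NN L z ∧ ∀ w, L w = dN z w := by
  have hre : HasFDerivAt (fun z : ℂ => z.re) Complex.reCLM z := Complex.reCLM.hasFDerivAt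
  have him : HasFDerivAt (fun z : ℂ => z.im) Complex.imCLM z := Complex.imCLM.hasFDerivAt
  have h1 := ((hre.pow 2).const_add (10000:ℝ)).add (him.pow 2)
  refine ⟨_, h1, ?_⟩
  intro w
  simp [dN]
  ring

theorem PP_deriv (z : ℂ) (hz : z ∈ UU) : DifferentiableAt ℝ PP z ∧
    ∀ w, |fderiv ℝ PP z w| ≤ 40 * (Real.exp (phi z) * ‖w‖) := by
  obtain ⟨LF', hF, hF'⟩ := FF_hasF' z
  obtain ⟨LN', hN, hN'⟩ := NN_hasF' z
  obtain ⟨hFpos, hL4, hFL2, hFL4⟩ := L_facts z hz
  obtain ⟨hN1, hT9, -, hS900, -, -, -⟩ := N_facts z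
  obtain ⟨hSd, hSf⟩ := S_deriv z
  obtain ⟨-, -, -, hE⟩ := exp_phi z hz
  have hNpos : 0 < NN z := by linarith
  have hTpos : 0 < TT z := by linarith
  have hLpos : 0 < LL z := by linarith
  have hSpos : 0 < SS z := by linarith
  have hLL : HasFDerivAt LL (-((FF z)⁻¹ • LF')) z := by
    have := (hF.log hFpos.ne').const_sub (7:ℝ)
    exact this
  have hTT : HasFDerivAt TT ((NN z)⁻¹ • LN') z := hN.log hNpos.ne'
  have hlogL : HasFDerivAt (fun z => Real.log (LL z)) ((LL z)⁻¹ • (-((FF z)⁻¹ • LF'))) z :=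
    hLL.log hLpos.ne'
  have hlogT : HasFDerivAt (fun z => Real.log (TT z)) ((TT z)⁻¹ • ((NN z)⁻¹ • LN')) z :=
    hTT.log hTpos.ne'
  have hSS := hSd.hasFDerivAt
  have hinv : HasFDerivAt (fun z => (SS z)⁻¹) (-((SS z ^ 2)⁻¹ • fderiv ℝ SS z)) z := by
    have h := (hasDerivAt_inv hSpos.ne').comp_hasFDerivAt z hSS
    have h2 : (-(SS z ^ 2)⁻¹) • fderiv ℝ SS z = -((SS z ^ 2)⁻¹ • fderiv ℝ SS z) := by
      rw [neg_smul]
    rw [← h2]
    exact h
  have hP : HasFDerivAt PP ((Real.log (LL z) • (-((SS z ^ 2)⁻¹ • fderiv ℝ SS z)) +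
      (SS z)⁻¹ • ((LL z)⁻¹ • (-((FF z)⁻¹ • LF')))) + (TT z)⁻¹ • ((NN z)⁻¹ • LN')) z := by
    have h := (hlogL.mul hinv).add hlogT
    refine h.congr_of_eventuallyEq (Filter.Eventually.of_forall fun y => ?_)
    simp [PP, div_eq_mul_inv]
  refine ⟨hP.differentiableAt, fun w => ?_⟩
  rw [hP.fderiv]
  have hb1 := (dF_le z w).1
  have hb2 := (dF_le z w).2
  have hb3 := (S_deriv z).2 w |>.2
  have happ : ((Real.log (LL z) • (-((SS z ^ 2)⁻¹ • fderiv ℝ SS z)) +
      (SS z)⁻¹ • ((LL z)⁻¹ • (-((FF z)⁻¹ • LF')))) + (TT z)⁻¹ • ((NN z)⁻¹ • LN')) w =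
      -(Real.log (LL z) * fderiv ℝ SS z w / SS z ^ 2) - dF z w / (FF z * LL z * SS z) +
      dN z w / (NN z * TT z) := by
    simp only [ContinuousLinearMap.add_apply, ContinuousLinearMap.smul_apply,
      ContinuousLinearMap.neg_apply, smul_eq_mul, hF', hN']
    field_simp
    ring
  rw [happ, hE]
  set F := FF z with hFdef
  set L := LL z with hLdef
  set S := SS z with hSdef
  set N := NN z with hNdef
  set T := TT z with hTdef
  set a := Real.sqrt F with ha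
  set b := Real.sqrt N with hb
  have hapos : 0 < a := Real.sqrt_pos.2 hFpos
  have hbpos : 0 < b := Real.sqrt_pos.2 hNpos
  have haF : a ^ 2 = F := Real.sq_sqrt hFpos.le
  have hbN : b ^ 2 = N := Real.sq_sqrt hNpos.le
  have hb100 : 100 ≤ b := by
    rw [hb]; apply Real.le_sqrt_of_sq_le; norm_num; exact hN1
  have hSbT : S = b * T := rfl
  have hw : 0 ≤ ‖w‖ := norm_nonneg w
  have hlog0 : 0 ≤ Real.log L := Real.log_nonneg (by linarith)
  have hlogle : Real.log L ≤ L := by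
    have := Real.log_le_sub_one_of_pos hLpos; linarith
  have haL : a * L ≤ 16 := by
    have h : (a * L) ^ 2 ≤ 16 ^ 2 := by rw [mul_pow, haF]; linarith
    exact abs_le_of_sq_le_sq' h (by norm_num) |>.2
  have haL2 : a * L ^ 2 ≤ 78 := by
    have h : (a * L ^ 2) ^ 2 ≤ 78 ^ 2 := by
      rw [mul_pow, haF, ← pow_mul]; norm_num; linarith
    exact abs_le_of_sq_le_sq' h (by norm_num) |>.2
  -- term 1
  have t1 : |dF z w / (F * L * S)| ≤ 4 * (1 / (a * L * S) * ‖w‖) := by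
    rw [abs_div, abs_of_pos (by positivity : 0 < F * L * S), div_le_iff₀ (by positivity)]
    have : 4 * (1 / (a * L * S) * ‖w‖) * (F * L * S) = 4 * a * ‖w‖ := by
      rw [← haF]; field_simp
    rw [this]; exact hb1
  have t2 : |Real.log L * fderiv ℝ SS z w / S ^ 2| ≤ 1 * (1 / (a * L * S) * ‖w‖) := by
    rw [abs_div, abs_mul, abs_of_nonneg hlog0, abs_of_pos (by positivity : 0 < S ^ 2),
      div_le_iff₀ (by positivity)]
    have e1 : S * (5 / 4 / b) * ‖w‖ ≤ S * (1 / 80) * ‖w‖ := by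
      have : 5 / 4 / b ≤ 1 / 80 := by
        rw [div_le_iff₀ hbpos]; linarith
      gcongr
    have e2 : Real.log L * |fderiv ℝ SS z w| ≤ L * (S * (1 / 80) * ‖w‖) :=
      mul_le_mul hlogle (hb3.trans e1) (abs_nonneg _) hLpos.le
    have e3 : 1 * (1 / (a * L * S) * ‖w‖) * S ^ 2 = S * ‖w‖ / (a * L) := by
      field_simp
    rw [e3]
    refine e2.trans ?_
    rw [le_div_iff₀ (by positivity)]
    have e4 : L * (S * (1 / 80) * ‖w‖) * (a * L) = (a * L ^ 2) * (S * ‖w‖) / 80 := by ring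
    rw [e4]
    have e5 : 0 ≤ S * ‖w‖ := by positivity
    nlinarith
  have t3 : |dN z w / (N * T)| ≤ 32 * (1 / (a * L * S) * ‖w‖) := by
    rw [abs_div, abs_of_pos (by positivity : 0 < N * T), div_le_iff₀ (by positivity)]
    have e1 : 32 * (1 / (a * L * S) * ‖w‖) * (N * T) = 32 * b * ‖w‖ / (a * L) := by
      rw [hSbT, ← hbN]; field_simp
    rw [e1]
    refine hb2.trans ?_
    rw [le_div_iff₀ (by positivity)]
    have e5 : 0 ≤ b * ‖w‖ := by positivity
    nlinarith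
  have hE0 : 0 ≤ 1 / (a * L * S) * ‖w‖ := by positivity
  calc |-(Real.log L * fderiv ℝ SS z w / S ^ 2) - dF z w / (F * L * S) + dN z w / (N * T)|
      ≤ |Real.log L * fderiv ℝ SS z w / S ^ 2| + |dF z w / (F * L * S)| + |dN z w / (N * T)| := by
        have h1 := abs_add_le (-(Real.log L * fderiv ℝ SS z w / S ^ 2) - dF z w / (F * L * S))
          (dN z w / (N * T))
        have h2 := abs_sub (-(Real.log L * fderiv ℝ SS z w / S ^ 2)) (dF z w / (F * L * S))
        rw [abs_neg] at h2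
        linarith
    _ ≤ 40 * (1 / (a * L * S) * ‖w‖) := by linarith

end Pool.Agent.Helper290.Liou
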