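import Pool.Agent.Helper290.Liou.Defs
import Pool.Agent.Helper290.Liou.P_F_facts

set_option autoImplicit false

open Set Filter Topology MeasureTheory Complex
open scoped ENNReal ContDiff

namespace Pool.Agent.Helper290.Liou



theorem U_facts : IsOpen UU ∧ IsConnected UU ∧ volume UUᶜ = 0 := by
  have hcont : Continuous FF := by
    unfold FF
    fun_prop
  have hcount : (UUᶜ).Countable := by
    have hsub : UUᶜ ⊆ Set.range (fun p : ℤ × ℤ => (⟨(p.1 : ℝ) * (2 * Real.pi), (p.2 : ℝ) * (2 * Real.pi)⟩ : ℂ)) := by
      intro z hz
      have hz0 : FF z = 0 := by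
        by_contra h
        exact hz h
      unfold FF at hz0
      have hX := Real.cos_le_one z.re
      have hX' := Real.neg_one_le_cos z.re
      have hY := Real.cos_le_one z.im
      have hY' := Real.neg_one_le_cos z.im
      have e : (1 - Real.cos z.re) * (3 + Real.cos z.im) + 4 * (1 - Real.cos z.im) = 0 := by
        linear_combination hz0
      have h1 : 0 ≤ (1 - Real.cos z.re) * (3 + Real.cos z.im) :=
        mul_nonneg (by linarith) (by linarith)
      have hc2 : Real.cos z.im = 1 := by linarith
      have hc1 : Real.cos z.re = 1 := by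
        rw [hc2] at e
        linarith
      obtain ⟨n, hn⟩ := (Real.cos_eq_one_iff _).1 hc1
      obtain ⟨m, hm⟩ := (Real.cos_eq_one_iff _).1 hc2
      exact ⟨(n, m), Complex.ext hn hm⟩
    exact (Set.countable_range _).mono hsub
  refine ⟨?_, ?_, ?_⟩
  · exact isOpen_ne_fun hcont continuous_const
  · have hr : 1 < Module.rank ℝ ℂ := by
      rw [Complex.rank_real_complex]
      norm_num
    have h := hcount.isPathConnected_compl_of_one_lt_rank hr
    rw [compl_compl] at h
    exact h.isConnected
  · exact hcount.measure_zero _

end Pool.Agent.Helper290.Liou
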