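import Pool.Agent.Helper290.Liou.Defs
import Pool.Agent.Helper290.Liou.P_F_facts
import Pool.Agent.Helper290.Liou.P_L_facts
import Pool.Agent.Helper290.Liou.P_N_facts
import Pool.Agent.Helper290.Liou.P_U_facts
import Pool.Agent.Helper290.Liou.P_PP_deriv

set_option autoImplicit false

open Set Filter Topology MeasureTheory Complex
open scoped ENNReal ContDiff

namespace Pool.Agent.Helper290.Liou



theorem PP_compact (c : ℝ) : IsCompact {z | z ∈ UU ∧ PP z ≤ c} := by
  set R : ℝ := Real.exp (Real.exp c) with hR
  set δ : ℝ := Real.exp (7 - Real.exp (c * R)) with hδ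
  have hδ0 : 0 < δ := Real.exp_pos _
  set K : Set ℂ := Metric.closedBall 0 (Real.sqrt R) ∩ {z | δ ≤ FF z} with hK
  have hFc : Continuous FF := by
    unfold FF
    have h1 : Continuous fun z : ℂ => Real.cos z.re := Real.continuous_cos.comp continuous_re
    have h2 : Continuous fun z : ℂ => Real.cos z.im := Real.continuous_cos.comp continuous_im
    fun_prop
  have hKc : IsCompact K :=
    (isCompact_closedBall (0 : ℂ) _).inter_right (isClosed_le continuous_const hFc)
  have hKU : K ⊆ UU := by
    rintro z ⟨-, hz⟩
    have hz' : δ ≤ FF z := hz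
    show FF z ≠ 0
    linarith
  have hPc : ContinuousOn PP K := fun z hz =>
    (PP_deriv z (hKU hz)).1.continuousAt.continuousWithinAt
  have hset : {z | z ∈ UU ∧ PP z ≤ c} = K ∩ PP ⁻¹' (Iic c) := by
    apply Subset.antisymm
    · rintro z ⟨hz, hPz⟩
      obtain ⟨hF0, hL4, -, -⟩ := L_facts z hz
      obtain ⟨hN, hT9, hTs, hS, hzN, -, hSN⟩ := N_facts z
      have hlogL : 0 ≤ Real.log (LL z) := Real.log_nonneg (by linarith)
      have hlogT : 0 ≤ Real.log (TT z) := Real.log_nonneg (by linarith)
      have hS0 : 0 < SS z := by linarith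
      have h1 : 0 ≤ Real.log (LL z) / SS z := div_nonneg hlogL hS0.le
      have hPz' : Real.log (LL z) / SS z + Real.log (TT z) ≤ c := hPz
      have hc0 : 0 ≤ c := by linarith
      have hT : TT z ≤ Real.exp c := by
        rw [← Real.log_le_iff_le_exp (by linarith)]
        linarith
      have hN' : NN z ≤ R := by
        rw [hR, ← Real.log_le_iff_le_exp (by linarith)]
        exact hT
      have h2 : Real.log (LL z) ≤ c * R := by
        have h3 : Real.log (LL z) / SS z ≤ c := by linarith
        rw [div_le_iff₀ hS0] at h3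
        exact h3.trans (mul_le_mul_of_nonneg_left (hSN.trans hN') hc0)
      have h3 : LL z ≤ Real.exp (c * R) := by
        rwa [← Real.log_le_iff_le_exp (by linarith)]
      have h4 : 7 - Real.exp (c * R) ≤ Real.log (FF z) := by
        have : LL z = 7 - Real.log (FF z) := rfl
        linarith
      refine ⟨⟨?_, ?_⟩, hPz⟩
      · rw [Metric.mem_closedBall, dist_zero_right]
        exact Real.le_sqrt_of_sq_le (hzN.trans hN')
      · show δ ≤ FF z
        rw [hδ, ← Real.le_log_iff_exp_le hF0]
        exact h4
    · rintro z ⟨hz, hPz⟩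
      exact ⟨hKU hz, hPz⟩
  rw [hset]
  exact hKc.of_isClosed_subset (hPc.preimage_isClosed_of_isClosed hKc.isClosed isClosed_Iic)
    inter_subset_left

end Pool.Agent.Helper290.Liou
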