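import Pool.Agent.Helper290.Liou.Defs

set_option autoImplicit false

open Set Filter Topology MeasureTheory Complex
open scoped ENNReal ContDiff

namespace Pool.Agent.Helper290.Liou



theorem P_rdist (U : Set ℂ) (φ P : ℂ → ℝ) (B : ℝ) (h : Good U φ P B) (hB : 0 < B) (z w : ℂ) :
    ENNReal.ofReal |P z - P w| ≤ ENNReal.ofReal B * rdist U φ z w := by
  have hB0 : ENNReal.ofReal B ≠ 0 := by
    rw [Ne, ENNReal.ofReal_eq_zero]
    linarith
  rw [mul_comm, ← ENNReal.div_le_iff_le_mul (Or.inl hB0) (Or.inl ENNReal.ofReal_ne_top)]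
  unfold rdist
  refine le_iInf₂ fun γ hγ => ?_
  rw [ENNReal.div_le_iff_le_mul (Or.inl hB0) (Or.inl ENNReal.ofReal_ne_top), mul_comm]
  obtain ⟨hγ1, hγU, hγ0, hγw⟩ := hγ
  have hγd : ∀ t, HasDerivAt γ (deriv γ t) t := fun t =>
    (hγ1.differentiable (by norm_num) t).hasDerivAt
  have hγc : Continuous (deriv γ) := hγ1.continuous_deriv (by norm_num)
  have hGc : ContinuousOn (fun t => Real.exp (φ (γ t)) * ‖deriv γ t‖) (Icc (0:ℝ) 1) := by
    apply ContinuousOn.mul
    · apply Real.continuous_exp.comp_continuousOn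
      exact h.sm.continuousOn.comp hγ1.continuous.continuousOn hγU
    · exact hγc.norm.continuousOn
  have hPd : ∀ t ∈ Icc (0:ℝ) 1, HasDerivAt (fun s => P (γ s)) (fderiv ℝ P (γ t) (deriv γ t)) t := by
    intro t ht
    exact (h.Pd (γ t) (hγU t ht)).hasFDerivAt.comp_hasDerivAt t (hγd t)
  have hPd' : ∀ t ∈ Icc (0:ℝ) 1, HasDerivAt (fun s => P (γ s)) (deriv (fun s => P (γ s)) t) t := by
    intro t ht
    exact (hPd t ht).differentiableAt.hasDerivAt
  have hbd : ∀ t ∈ Icc (0:ℝ) 1, |deriv (fun s => P (γ s)) t| ≤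
      B * (Real.exp (φ (γ t)) * ‖deriv γ t‖) := by
    intro t ht
    rw [(hPd t ht).deriv]
    exact h.Pb (γ t) (hγU t ht) _
  have hGi : IntervalIntegrable (fun t => B * (Real.exp (φ (γ t)) * ‖deriv γ t‖)) volume 0 1 := by
    apply ContinuousOn.intervalIntegrable
    rw [uIcc_of_le zero_le_one]
    exact continuousOn_const.mul hGc
  have hdi : IntervalIntegrable (deriv (fun s => P (γ s))) volume 0 1 := by
    refine IntervalIntegrable.mono_fun hGi (measurable_deriv _).aestronglyMeasurable ?_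
    rw [uIoc_of_le zero_le_one]
    refine (ae_restrict_iff' measurableSet_Ioc).2 (Filter.Eventually.of_forall ?_)
    intro t ht
    have h1 := hbd t (Ioc_subset_Icc_self ht)
    change |deriv (fun s => P (γ s)) t| ≤ |B * (Real.exp (φ (γ t)) * ‖deriv γ t‖)|
    exact h1.trans (le_abs_self _)
  have hftc : ∫ t in (0:ℝ)..1, deriv (fun s => P (γ s)) t = P (γ 1) - P (γ 0) := by
    apply intervalIntegral.integral_eq_sub_of_hasDerivAt (f := fun s => P (γ s))
    · intro t ht
      rw [uIcc_of_le zero_le_one] at ht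
      exact hPd' t ht
    · exact hdi
  have hle : |P w - P z| ≤ ∫ t in (0:ℝ)..1, B * (Real.exp (φ (γ t)) * ‖deriv γ t‖) := by
    rw [← hγw, ← hγ0, ← hftc, ← Real.norm_eq_abs]
    apply intervalIntegral.norm_integral_le_of_norm_le zero_le_one
    · refine Filter.Eventually.of_forall ?_
      intro t ht
      exact hbd t (Ioc_subset_Icc_self ht)
    · exact hGi
  have hGi2 : IntegrableOn (fun t => Real.exp (φ (γ t)) * ‖deriv γ t‖) (Icc (0:ℝ) 1) :=
    hGc.integrableOn_Icc
  have hlen : len φ γ = ENNReal.ofReal (∫ t in Icc (0:ℝ) 1,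
      Real.exp (φ (γ t)) * ‖deriv γ t‖) := by
    unfold len
    rw [ofReal_integral_eq_lintegral_ofReal hGi2]
    exact Filter.Eventually.of_forall (fun t => by positivity)
  rw [hlen, ← ENNReal.ofReal_mul hB.le]
  apply ENNReal.ofReal_le_ofReal
  rw [abs_sub_comm]
  refine hle.trans (le_of_eq ?_)
  rw [intervalIntegral.integral_const_mul, intervalIntegral.integral_of_le zero_le_one,
    integral_Icc_eq_integral_Ioc]

end Pool.Agent.Helper290.Liou
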