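import Pool.Agent.Helper290.Liou.Defs
import Pool.Agent.Helper290.Liou.P_F_facts

set_option autoImplicit false

open Set Filter Topology MeasureTheory Complex
open scoped ENNReal ContDiff

namespace Pool.Agent.Helper290.Liou



theorem Q_facts (z : ℂ) (hz : z ∈ UU) : 1 / 8 ≤ QQ z ∧ QQ z ≤ 1 := by
  have hF : FF z ≠ 0 := hz
  have hF2 : 0 < FF z ^ 2 := by positivity
  obtain ⟨a, ha⟩ : ∃ a : ℝ, a = (1 - Real.cos z.re) / 2 := ⟨_, rfl⟩
  obtain ⟨b, hb⟩ : ∃ b : ℝ, b = (1 - Real.cos z.im) / 2 := ⟨_, rfl⟩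
  have hX : Real.cos z.re = 1 - 2 * a := by rw [ha]; ring
  have hY : Real.cos z.im = 1 - 2 * b := by rw [hb]; ring
  have ha0 : 0 ≤ a := by rw [ha]; linarith [Real.cos_le_one z.re]
  have hb0 : 0 ≤ b := by rw [hb]; linarith [Real.cos_le_one z.im]
  have ha1 : a ≤ 1 := by rw [ha]; linarith [Real.neg_one_le_cos z.re]
  have hb1 : b ≤ 1 := by rw [hb]; linarith [Real.neg_one_le_cos z.im]
  have hsx : Real.sin z.re ^ 2 = 1 - (1 - 2 * a) ^ 2 := by
    rw [Real.sin_sq, hX]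
  have hsy : Real.sin z.im ^ 2 = 1 - (1 - 2 * b) ^ 2 := by
    rw [Real.sin_sq, hY]
  have eF : FF z = 8 * (a + b - a * b / 2) := by
    unfold FF; rw [hX, hY]; ring
  have eN : GG z - FF z * LF z = 64 * ((a ^ 2 + b ^ 2) / 4 + a * b - 3 / 8 * (a * b * (a + b))) := by
    rw [eF]
    unfold GG LF
    rw [mul_pow, mul_pow, hsx, hsy, hX, hY]
    ring
  have hab : 0 ≤ a * b := mul_nonneg ha0 hb0
  have habs : a * b * (a + b) ≤ 2 * (a * b) := by nlinarith
  have hs0 : 0 ≤ a + b - a * b / 2 := by nlinarith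
  have hs1 : a + b - a * b / 2 ≤ a + b := by linarith
  have hsq : (a + b - a * b / 2) ^ 2 ≤ (a + b) ^ 2 := by
    apply pow_le_pow_left₀ hs0 hs1
  unfold QQ
  constructor
  · rw [le_div_iff₀ hF2, eN, eF]
    nlinarith [sq_nonneg (a - b), sq_nonneg a, sq_nonneg b]
  · rw [div_le_one hF2, eN, eF]
    nlinarith [sq_nonneg (a - b), sq_nonneg a, sq_nonneg b, sq_nonneg (a * b)]

end Pool.Agent.Helper290.Liou
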