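import Pool.Agent.Helper290.Liou.Defs
import Pool.Agent.Helper290.Liou.P_N_facts

set_option autoImplicit false

open Set Filter Topology MeasureTheory Complex
open scoped ENNReal ContDiff

namespace Pool.Agent.Helper290.Liou



theorem SS_unbounded (R : ℝ) : ∃ z ∈ UU, R < SS z := by
  obtain ⟨n, hn⟩ := exists_nat_gt R
  refine ⟨⟨n, 1⟩, ?_, ?_⟩
  · show FF ⟨n, 1⟩ ≠ 0
    unfold FF
    show (7 - 3 * Real.cos n - 3 * Real.cos 1 - Real.cos n * Real.cos 1 : ℝ) ≠ 0
    have h1 := Real.cos_le_one n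
    have h2 : Real.cos 1 < 1 := by
      have := Real.cos_one_le
      linarith
    have h3 := Real.neg_one_le_cos 1
    have : 0 < 7 - 3 * Real.cos n - 3 * Real.cos 1 - Real.cos n * Real.cos 1 := by
      nlinarith
    exact this.ne'
  · have h1 := (N_facts ⟨n, 1⟩).2.2.2.2.2.1
    have h2 : (n : ℝ) ≤ Real.sqrt (NN ⟨n, 1⟩) := by
      apply Real.le_sqrt_of_sq_le
      unfold NN
      show (n : ℝ) ^ 2 ≤ 10000 + (n : ℝ) ^ 2 + 1 ^ 2
      linarith
    have h3 : (0 : ℝ) ≤ n := Nat.cast_nonneg n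
    linarith

end Pool.Agent.Helper290.Liou
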