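import Pool.Agent.Helper290.Liou.Defs
import Pool.Agent.Helper290.Liou.P_L_facts
import Pool.Agent.Helper290.Liou.P_N_facts
import Pool.Agent.Helper290.Liou.P_exp_phi
import Pool.Agent.Helper290.Liou.P_S_deriv

set_option autoImplicit false

open Set Filter Topology MeasureTheory Complex
open scoped ENNReal ContDiff

namespace Pool.Agent.Helper290.Liou



theorem S_slow (c v : ℝ → ℂ) (hc : ∀ t, c t ∈ UU) (hd : ∀ t, HasDerivAt c (v t) t)
    (hv : ∀ t, Real.exp (phi (c t)) * ‖v t‖ = 1) (t : ℝ) (ht : |t| * SS (c 0) ≤ 1) :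
    SS (c 0) / 2 ≤ SS (c t) ∧ SS (c t) ≤ 2 * SS (c 0) := by
  have hSpos : ∀ u, 0 < SS (c u) := fun u => by
    have := (N_facts (c u)).2.2.2.1
    linarith
  have hder : ∀ u, HasDerivAt (fun u => (SS (c u))⁻¹)
      (-(fderiv ℝ SS (c u) (v u)) / SS (c u) ^ 2) u := by
    intro u
    have h1 : HasDerivAt (fun u => SS (c u)) (fderiv ℝ SS (c u) (v u)) u :=
      (S_deriv (c u)).1.hasFDerivAt.comp_hasDerivAt u (hd u)
    exact h1.fun_inv (hSpos u).ne'
  have hbound : ∀ u, ‖-(fderiv ℝ SS (c u) (v u)) / SS (c u) ^ 2‖ ≤ 1 / 5 := by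
    intro u
    obtain ⟨hF, hL, hFL, -⟩ := L_facts (c u) (hc u)
    obtain ⟨hN, -, -, -, -, -, -⟩ := N_facts (c u)
    have hS := hSpos u
    have hb := ((S_deriv (c u)).2 (v u)).2
    have hsN : 100 ≤ Real.sqrt (NN (c u)) := by
      apply Real.le_sqrt_of_sq_le
      linarith
    have hvn : ‖v u‖ = Real.sqrt (FF (c u)) * LL (c u) * SS (c u) := by
      have h2 := hv u
      have h3 := (exp_phi (c u) (hc u)).2.2.1
      rw [Real.exp_neg] at h3
      rw [← h3]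
      exact eq_inv_of_mul_eq_one_right h2
    have h16 : Real.sqrt (FF (c u)) * LL (c u) ≤ 16 := by
      apply abs_le_of_sq_le_sq' _ (by norm_num) |>.2
      rw [mul_pow, Real.sq_sqrt hF.le]
      linarith
    have hvn16 : ‖v u‖ ≤ 16 * SS (c u) := by
      rw [hvn]
      exact mul_le_mul_of_nonneg_right h16 hS.le
    rw [Real.norm_eq_abs, abs_div, abs_neg, abs_of_pos (pow_pos hS 2), div_le_iff₀ (pow_pos hS 2)]
    refine hb.trans ?_
    have h4 : (5 : ℝ) / 4 / Real.sqrt (NN (c u)) ≤ 1 / 80 := by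
      rw [div_le_iff₀ (by linarith)]
      linarith
    calc SS (c u) * (5 / 4 / Real.sqrt (NN (c u))) * ‖v u‖
        ≤ SS (c u) * (1 / 80) * (16 * SS (c u)) := by gcongr
      _ = 1 / 5 * SS (c u) ^ 2 := by ring
  have hmv := Convex.norm_image_sub_le_of_norm_hasDerivWithin_le (s := Set.univ) (x := 0) (y := t)
    (fun u _ => (hder u).hasDerivWithinAt) (fun u _ => hbound u) convex_univ (Set.mem_univ _)
    (Set.mem_univ _)
  rw [Real.norm_eq_abs, Real.norm_eq_abs, sub_zero] at hmv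
  have h0 := hSpos 0
  have ht' := hSpos t
  have h5 : |t| ≤ (SS (c 0))⁻¹ := by
    rw [← one_div, le_div_iff₀ h0]
    exact ht
  have h6 : |(SS (c t))⁻¹ - (SS (c 0))⁻¹| ≤ 1 / 5 * (SS (c 0))⁻¹ := by
    refine hmv.trans ?_
    gcongr
  obtain ⟨h7, h8⟩ := abs_le.mp h6
  have h9 : (SS (c 0))⁻¹ * SS (c 0) = 1 := inv_mul_cancel₀ h0.ne'
  have h10 : (SS (c t))⁻¹ * SS (c t) = 1 := inv_mul_cancel₀ ht'.ne'
  have hi0 : 0 < (SS (c 0))⁻¹ := inv_pos.mpr h0
  have hit : 0 < (SS (c t))⁻¹ := inv_pos.mpr ht'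
  constructor
  · -- (SS (c t))⁻¹ ≤ 2 (SS (c 0))⁻¹
    have h11 : (SS (c t))⁻¹ ≤ (SS (c 0) / 2)⁻¹ := by
      rw [inv_div]
      have : 2 / SS (c 0) = 2 * (SS (c 0))⁻¹ := div_eq_mul_inv _ _
      rw [this]
      linarith
    exact (inv_le_inv₀ ht' (by positivity)).mp h11
  · have h11 : (2 * SS (c 0))⁻¹ ≤ (SS (c t))⁻¹ := by
      rw [mul_inv]
      linarith
    exact (inv_le_inv₀ (by positivity) ht').mp h11

end Pool.Agent.Helper290.Liou
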