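import Pool.Agent.Helper290.Liou.Defs
import Pool.Agent.Helper290.Liou.P_N_facts

set_option autoImplicit false

open Set Filter Topology MeasureTheory Complex
open scoped ENNReal ContDiff

namespace Pool.Agent.Helper290.Liou



theorem S_near (z w : ℂ) (h : ‖z - w‖ ≤ 10) : SS w ≤ 2 * SS z := by
  have hNn : ∀ u : ℂ, NN u = 10000 + ‖u‖ ^ 2 := by
    intro u
    unfold NN
    rw [Complex.sq_norm, Complex.normSq_apply]
    ring
  obtain ⟨hz1, hz2, -, hz4, -, -, -⟩ := N_facts z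
  obtain ⟨hw1, hw2, -, -, -, -, -⟩ := N_facts w
  have hN0 : 0 < NN z := by linarith
  have hw0 : 0 < NN w := by linarith
  have hwz : ‖w‖ ≤ ‖z‖ + 10 := by
    have h1 := norm_sub_norm_le w z
    rw [norm_sub_rev] at h1
    linarith
  have hNN : NN w ≤ 1.21 * NN z := by
    rw [hNn, hNn]
    have h1 := norm_nonneg w
    have h2 := norm_nonneg z
    have h3 : ‖w‖ ^ 2 ≤ (‖z‖ + 10) ^ 2 := pow_le_pow_left₀ h1 hwz 2
    nlinarith [sq_nonneg (‖z‖ - 50)]
  have hT : TT w ≤ 1.1 * TT z := by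
    unfold TT at hz2 ⊢
    have h1 : Real.log (NN w) ≤ Real.log (1.21 * NN z) := Real.log_le_log hw0 hNN
    rw [Real.log_mul (by norm_num) hN0.ne'] at h1
    have h2 : Real.log 1.21 ≤ 1.21 - 1 := Real.log_le_sub_one_of_pos (by norm_num)
    linarith
  have hS : Real.sqrt (NN w) ≤ 1.1 * Real.sqrt (NN z) := by
    have h1 : Real.sqrt (NN w) ≤ Real.sqrt (1.21 * NN z) := Real.sqrt_le_sqrt hNN
    have h2 : Real.sqrt (1.21 * NN z) = 1.1 * Real.sqrt (NN z) := by
      rw [Real.sqrt_mul (by norm_num), show (1.21 : ℝ) = 1.1 ^ 2 by norm_num,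
        Real.sqrt_sq (by norm_num)]
    linarith
  unfold SS at hz4 ⊢
  have h0 := Real.sqrt_nonneg (NN w)
  have h3 : Real.sqrt (NN w) * TT w ≤ (1.1 * Real.sqrt (NN z)) * (1.1 * TT z) :=
    mul_le_mul hS hT (by linarith) (by positivity)
  linarith

end Pool.Agent.Helper290.Liou
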