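import Pool.Agent.Helper290.Liou.Defs
import Pool.Agent.Helper290.Liou.P_N_facts

set_option autoImplicit false

open Set Filter Topology MeasureTheory Complex
open scoped ENNReal ContDiff

namespace Pool.Agent.Helper290.Liou



theorem int_S2_rad : IntegrableOn (fun r : ℝ => r ^ (Module.finrank ℝ ℂ - 1) •
    (1 / ((10000 + r ^ 2) * (Real.log (10000 + r ^ 2)) ^ 2))) (Ioi 0) volume := by
  have hpos : ∀ r : ℝ, 0 < 10000 + r ^ 2 := fun r => by positivity
  have hlog : ∀ r : ℝ, 0 < Real.log (10000 + r ^ 2) := fun r =>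
    Real.log_pos (by nlinarith [sq_nonneg r])
  have hd : ∀ r : ℝ, HasDerivAt (fun r : ℝ => -(1 / (2 * Real.log (10000 + r ^ 2))))
      (r ^ (Module.finrank ℝ ℂ - 1) • (1 / ((10000 + r ^ 2) * (Real.log (10000 + r ^ 2)) ^ 2))) r := by
    intro r
    have h1 : HasDerivAt (fun r : ℝ => 10000 + r ^ 2) (2 * r) r := by
      simpa using (hasDerivAt_pow 2 r).const_add 10000
    have h2 := h1.log (hpos r).ne'
    have h3 := h2.fun_inv (hlog r).ne'
    have h4 := (h3.const_mul (-(1/2 : ℝ)))
    have hl := (hlog r).ne'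
    have hp := (hpos r).ne'
    have e1 : (fun r : ℝ => -(1 / (2 * Real.log (10000 + r ^ 2)))) =
        fun y => -(1 / 2) * (Real.log (10000 + y ^ 2))⁻¹ := by
      funext x
      have hlx := (hlog x).ne'
      field_simp
    have e2 : r ^ (Module.finrank ℝ ℂ - 1) • (1 / ((10000 + r ^ 2) * Real.log (10000 + r ^ 2) ^ 2)) =
        -(1 / 2) * (-(2 * r / (10000 + r ^ 2)) / Real.log (10000 + r ^ 2) ^ 2) := by
      rw [Complex.finrank_real_complex]
      simp only [smul_eq_mul]
      field_simp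
      try ring
    rw [e1, e2]
    exact h4
  have hlim : Tendsto (fun r : ℝ => -(1 / (2 * Real.log (10000 + r ^ 2)))) atTop (𝓝 0) := by
    have h1 : Tendsto (fun r : ℝ => 10000 + r ^ 2) atTop atTop :=
      tendsto_atTop_add_const_left _ _ (tendsto_pow_atTop (by norm_num))
    have h2 := Real.tendsto_log_atTop.comp h1
    have h3 : Tendsto (fun r : ℝ => 2 * Real.log (10000 + r ^ 2)) atTop atTop :=
      Tendsto.const_mul_atTop (by norm_num) h2
    have h4 := h3.inv_tendsto_atTop.neg
    simp only [neg_zero] at h4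
    refine h4.congr ?_
    intro x
    simp
  refine integrableOn_Ioi_deriv_of_nonneg' (l := 0) (fun x _ => hd x) ?_ hlim
  intro x hx
  have hx' : (0:ℝ) < x := hx
  have := hpos x
  have := hlog x
  simp only [smul_eq_mul]
  positivity

theorem int_S2 : ∫⁻ z : ℂ, ENNReal.ofReal (1 / SS z ^ 2) < ⊤ := by
  have h := (MeasureTheory.integrable_fun_norm_addHaar (volume : Measure ℂ)
    (f := fun r : ℝ => 1 / ((10000 + r ^ 2) * (Real.log (10000 + r ^ 2)) ^ 2))).2 int_S2_rad
  have h2 := h.lintegral_lt_top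
  refine lt_of_eq_of_lt ?_ h2
  refine lintegral_congr ?_
  intro z
  congr 2
  have hN : NN z = 10000 + ‖z‖ ^ 2 := by
    rw [NN, ← Complex.normSq_eq_norm_sq, Complex.normSq_apply]
    ring
  rw [SS, TT, mul_pow, Real.sq_sqrt (by linarith [(N_facts z).1]), hN]

end Pool.Agent.Helper290.Liou
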