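import Pool.Agent.Helper290.Liou.Defs
import Pool.Agent.Helper290.Liou.P_F_facts
import Pool.Agent.Helper290.Liou.P_L_facts

set_option autoImplicit false

open Set Filter Topology MeasureTheory Complex
open scoped ENNReal ContDiff

namespace Pool.Agent.Helper290.Liou



theorem ic_log12 : Real.log 12 ≤ 4 := by
  rw [Real.log_le_iff_le_exp (by norm_num)]
  have := Real.quadratic_le_exp_of_nonneg (x := 4) (by norm_num)
  linarith

theorem ic_mono (a b : ℝ) (ha : 0 < a) (hab : a ≤ b) (hb : 2 ≤ 7 - Real.log b) :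
    a * (7 - Real.log a) ^ 2 ≤ b * (7 - Real.log b) ^ 2 := by
  have hb0 : 0 < b := lt_of_lt_of_le ha hab
  obtain ⟨v, hv⟩ : ∃ v, v = Real.log b - Real.log a := ⟨_, rfl⟩
  have hv0 : 0 ≤ v := by rw [hv]; exact sub_nonneg.2 (Real.log_le_log ha hab)
  have hbe : b = a * Real.exp v := by
    rw [hv, Real.exp_sub, Real.exp_log hb0, Real.exp_log ha]
    field_simp
  have h1 : 7 - Real.log a = (7 - Real.log b) + v := by rw [hv]; ring
  have h2 : (7 - Real.log b) + v ≤ (7 - Real.log b) * Real.exp (v / 2) := by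
    have := Real.add_one_le_exp (v / 2)
    nlinarith
  have h3 : Real.exp v = Real.exp (v / 2) ^ 2 := by
    rw [← Real.exp_nat_mul]
    congr 1
    push_cast
    ring
  have h4 : ((7 - Real.log b) + v) ^ 2 ≤ ((7 - Real.log b) * Real.exp (v / 2)) ^ 2 :=
    pow_le_pow_left₀ (by linarith) h2 2
  calc a * (7 - Real.log a) ^ 2 = a * ((7 - Real.log b) + v) ^ 2 := by rw [h1]
    _ ≤ a * ((7 - Real.log b) * Real.exp (v / 2)) ^ 2 := mul_le_mul_of_nonneg_left h4 ha.le
    _ = (a * Real.exp v) * (7 - Real.log b) ^ 2 := by rw [h3]; ring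
    _ = b * (7 - Real.log b) ^ 2 := by rw [← hbe]

theorem ic_F (z : ℂ) (h1 : |z.re| ≤ Real.pi) (h2 : |z.im| ≤ Real.pi) :
    4 / Real.pi ^ 2 * ‖z‖ ^ 2 ≤ FF z := by
  have a1 := Real.cos_le_one_sub_mul_cos_sq h1
  have a2 := Real.cos_le_one_sub_mul_cos_sq h2
  have b1 := Real.cos_le_one z.re
  have b2 := Real.cos_le_one z.im
  have b3 := Real.neg_one_le_cos z.im
  have e1 : ‖z‖ ^ 2 = z.re ^ 2 + z.im ^ 2 := by
    rw [← Complex.normSq_eq_norm_sq, Complex.normSq_apply]; ring
  rw [e1]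
  unfold FF
  have h3 : (1 - Real.cos z.re) * (3 + Real.cos z.im) ≥ (1 - Real.cos z.re) * 2 :=
    mul_le_mul_of_nonneg_left (by linarith) (by linarith)
  have e2 : 4 / Real.pi ^ 2 * (z.re ^ 2 + z.im ^ 2) = 
      2 * (2 / Real.pi ^ 2 * z.re ^ 2) + 2 * (2 / Real.pi ^ 2 * z.im ^ 2) := by ring
  rw [e2]
  nlinarith

/-- the one dimensional integrand -/
noncomputable def ich (y : ℝ) : ℝ := 
  1 / ((4 / Real.pi ^ 2) * y ^ 2 * (7 - Real.log ((4 / Real.pi ^ 2) * y ^ 2)) ^ 2)

theorem ic_small (y : ℝ) (hy : 0 < y) (hy5 : y ≤ 5) : 3 ≤ 7 - Real.log ((4 / Real.pi ^ 2) * y ^ 2) := by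
  have hpi := Real.pi_gt_three
  have h1 : (4 / Real.pi ^ 2) * y ^ 2 ≤ 12 := by
    have h2 : 4 / Real.pi ^ 2 ≤ 4 / 9 := by
      apply div_le_div_of_nonneg_left (by norm_num) (by norm_num)
      nlinarith
    have h3 : y ^ 2 ≤ 25 := by nlinarith
    have h4 : 0 ≤ 4 / Real.pi ^ 2 := by positivity
    nlinarith [sq_nonneg y]
  have h5 : 0 < (4 / Real.pi ^ 2) * y ^ 2 := by positivity
  have := Real.log_le_log h5 h1
  have := ic_log12
  linarith

theorem ic_one : IntegrableOn (fun y : ℝ => y * ich y) (Ioo 0 5) := by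
  have hc : 0 < 4 / Real.pi ^ 2 := by positivity
  obtain ⟨c, hcd⟩ : ∃ c, c = 4 / Real.pi ^ 2 := ⟨_, rfl⟩
  have hder : ∀ x ∈ Ioo (0:ℝ) 5, HasDerivAt (fun y : ℝ => 1 / (2 * c) * (7 - Real.log (c * y ^ 2))⁻¹) 
      (x * ich x) x := by
    intro x hx
    have hs := ic_small x hx.1 hx.2.le
    have hx0 : x ≠ 0 := hx.1.ne'
    rw [← hcd] at hs hc
    have hne : (7 - Real.log (c * x ^ 2)) ≠ 0 := by linarith
    have hcx : c * x ^ 2 ≠ 0 := by positivity
    have d1 : HasDerivAt (fun y : ℝ => c * y ^ 2) (c * (2 * x)) x := by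
      have := (hasDerivAt_pow 2 x).const_mul c
      simpa using this
    have d2 := ((d1.log hcx).const_sub 7).inv hne
    have d3 := d2.const_mul (1 / (2 * c))
    convert! d3 using 1
    unfold ich
    rw [← hcd]
    field_simp
    try ring
  have hcont : ContinuousOn (Function.update (fun y : ℝ => 1 / (2 * c) * (7 - Real.log (c * y ^ 2))⁻¹) 0 0) (Icc 0 5) := by
    intro x hx
    apply ContinuousAt.continuousWithinAt
    by_cases hx0 : x = 0
    · subst hx0
      rw [continuousAt_update_same]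
      rw [← hcd] at hc
      have h1 : Tendsto (fun y : ℝ => Real.log (c * y ^ 2)) (𝓝[≠] 0) atBot := by
        have h2 : (fun y : ℝ => Real.log c + 2 * Real.log y) =ᶠ[𝓝[≠] 0] (fun y : ℝ => Real.log (c * y ^ 2)) := by
          filter_upwards [self_mem_nhdsWithin] with y hy
          have hy' : y ≠ 0 := hy
          rw [Real.log_mul hc.ne' (by positivity), Real.log_pow]
          push_cast
          ring
        refine Tendsto.congr' h2 ?_
        apply tendsto_atBot_add_const_left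
        exact Tendsto.const_mul_atBot (by norm_num) Real.tendsto_log_nhdsNE_zero
      have h3 : Tendsto (fun y : ℝ => 7 - Real.log (c * y ^ 2)) (𝓝[≠] 0) atTop := by
        have := tendsto_atTop_add_const_left (𝓝[≠] (0:ℝ)) (7:ℝ) (tendsto_neg_atBot_atTop.comp h1)
        refine this.congr fun y => ?_
        simp only [Function.comp]
        ring
      have h4 := (tendsto_inv_atTop_zero.comp h3).const_mul (1 / (2 * c))
      rw [mul_zero] at h4
      exact h4
    · rw [continuousAt_update_of_ne hx0]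
      have hxpos : 0 < x := lt_of_le_of_ne hx.1 (Ne.symm hx0)
      have hs := ic_small x hxpos hx.2
      rw [← hcd] at hs hc
      have hne : (7 - Real.log (c * x ^ 2)) ≠ 0 := by linarith
      have hcx : c * x ^ 2 ≠ 0 := by positivity
      refine ContinuousAt.mul continuousAt_const (ContinuousAt.inv₀ ?_ hne)
      refine ContinuousAt.sub continuousAt_const (ContinuousAt.log ?_ hcx)
      fun_prop
  have hder' : ∀ x ∈ Ioo (0:ℝ) 5, HasDerivAt (Function.update (fun y : ℝ => 1 / (2 * c) * (7 - Real.log (c * y ^ 2))⁻¹) 0 0) 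
      (x * ich x) x := by
    intro x hx
    refine (hder x hx).congr_of_eventuallyEq ?_
    filter_upwards [isOpen_ne.mem_nhds hx.1.ne'] with y hy
    exact Function.update_of_ne hy _ _
  have := intervalIntegral.integrableOn_deriv_of_nonneg hcont hder' (fun x hx => by
    unfold ich
    have := hx.1
    positivity)
  exact this.mono_set Ioo_subset_Ioc_self

theorem ic_ball : IntegrableOn (fun z : ℂ => ich ‖z‖) (Metric.ball (0:ℂ) 5) := by
  have h := (MeasureTheory.integrableOn_fun_norm_addHaar (volume : Measure ℂ) (f := ich) (r := 5)).2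
  apply h
  refine ic_one.congr_fun ?_ measurableSet_Ioo
  intro y hy
  simp [Complex.finrank_real_complex]

theorem int_cell : ∫⁻ z in {z : ℂ | |z.re| ≤ Real.pi ∧ |z.im| ≤ Real.pi},
    ENNReal.ofReal (1 / (FF z * LL z ^ 2)) < ⊤ := by
  have hpi := Real.pi_gt_three
  have hpi2 := Real.pi_lt_d2
  have hsub : {z : ℂ | |z.re| ≤ Real.pi ∧ |z.im| ≤ Real.pi} ⊆ Metric.ball (0:ℂ) 5 := by
    intro z hz
    obtain ⟨h1, h2⟩ := hz
    rw [mem_ball_zero_iff]
    have e1 : ‖z‖ ^ 2 = z.re ^ 2 + z.im ^ 2 := by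
      rw [← Complex.normSq_eq_norm_sq, Complex.normSq_apply]; ring
    have h3 : z.re ^ 2 ≤ Real.pi ^ 2 := sq_le_sq' (abs_le.1 h1).1 (abs_le.1 h1).2
    have h4 : z.im ^ 2 ≤ Real.pi ^ 2 := sq_le_sq' (abs_le.1 h2).1 (abs_le.1 h2).2
    have h5 : Real.pi ^ 2 < 10 := by nlinarith
    have h6 : ‖z‖ ^ 2 < 5 ^ 2 := by linarith
    exact lt_of_pow_lt_pow_left₀ 2 (by norm_num) h6
  have hmeas : MeasurableSet {z : ℂ | |z.re| ≤ Real.pi ∧ |z.im| ≤ Real.pi} := by
    apply IsClosed.measurableSet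
    have c1 : IsClosed {z : ℂ | |z.re| ≤ Real.pi} := 
      isClosed_le (continuous_abs.comp Complex.continuous_re) continuous_const
    have c2 : IsClosed {z : ℂ | |z.im| ≤ Real.pi} := 
      isClosed_le (continuous_abs.comp Complex.continuous_im) continuous_const
    exact c1.inter c2
  have hle : ∫⁻ z in {z : ℂ | |z.re| ≤ Real.pi ∧ |z.im| ≤ Real.pi},
      ENNReal.ofReal (1 / (FF z * LL z ^ 2)) ≤ 
      ∫⁻ z in {z : ℂ | |z.re| ≤ Real.pi ∧ |z.im| ≤ Real.pi}, ENNReal.ofReal (ich ‖z‖) := by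
    refine setLIntegral_mono' hmeas ?_
    intro z hz
    obtain ⟨h1, h2⟩ := hz
    apply ENNReal.ofReal_le_ofReal
    have hF := ic_F z h1 h2
    by_cases hz0 : z = 0
    · subst hz0
      have : FF 0 = 0 := by unfold FF; simp; norm_num
      rw [this]
      simp [ich]
    · have hn : 0 < ‖z‖ := norm_pos_iff.2 hz0
      have ha : 0 < 4 / Real.pi ^ 2 * ‖z‖ ^ 2 := by positivity
      have hU : z ∈ UU := (lt_of_lt_of_le ha hF).ne'
      have hL := (L_facts z hU).2.1
      unfold LL at hL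
      have hm := ic_mono _ _ ha hF (by linarith)
      have h5 : ‖z‖ ≤ 5 := by
        have : z ∈ Metric.ball (0:ℂ) 5 := hsub ⟨h1, h2⟩
        rw [mem_ball_zero_iff] at this
        exact this.le
      have hs := ic_small ‖z‖ hn h5
      unfold ich LL
      apply one_div_le_one_div_of_le _ hm
      have : 0 < (7 - Real.log ((4 / Real.pi ^ 2) * ‖z‖ ^ 2)) := by linarith
      positivity
  refine lt_of_le_of_lt hle ?_
  refine lt_of_le_of_lt (lintegral_mono_set hsub) ?_
  have := ic_ball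
  exact this.lintegral_lt_top

end Pool.Agent.Helper290.Liou
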