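import Pool.Agent.Helper290.Liou.Defs
import Pool.Agent.Helper290.Liou.P_F_facts
import Pool.Agent.Helper290.Liou.P_L_facts
import Pool.Agent.Helper290.Liou.P_N_facts
import Pool.Agent.Helper290.Liou.P_U_facts
import Pool.Agent.Helper290.Liou.P_exp_phi
import Pool.Agent.Helper290.Liou.P_int_S2
import Pool.Agent.Helper290.Liou.P_int_cell
import Pool.Agent.Helper290.Liou.P_S_near

set_option autoImplicit false

open Set Filter Topology MeasureTheory Complex
open scoped ENNReal ContDiff

namespace Pool.Agent.Helper290.Liou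



noncomputable def area_finite_p (n : ℤ × ℤ) : ℂ :=
  ⟨(n.1 : ℝ) * (2 * Real.pi), (n.2 : ℝ) * (2 * Real.pi)⟩

def area_finite_Q : Set ℂ := {z | z.re ∈ Ioc (-Real.pi) Real.pi ∧ z.im ∈ Ioc (-Real.pi) Real.pi}

def area_finite_R (n : ℤ × ℤ) : Set ℂ := (fun z => z + (-area_finite_p n)) ⁻¹' area_finite_Q

theorem area_finite_measQ : MeasurableSet area_finite_Q :=
  (Complex.measurable_re measurableSet_Ioc).inter (Complex.measurable_im measurableSet_Ioc)

theorem area_finite_measR (n : ℤ × ℤ) : MeasurableSet (area_finite_R n) :=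
  (measurable_add_const (-area_finite_p n)) area_finite_measQ

theorem area_finite_mem (n : ℤ × ℤ) (z : ℂ) : z ∈ area_finite_R n ↔
    (z.re - (n.1 : ℝ) * (2 * Real.pi) ∈ Ioc (-Real.pi) Real.pi ∧
      z.im - (n.2 : ℝ) * (2 * Real.pi) ∈ Ioc (-Real.pi) Real.pi) := by
  unfold area_finite_R area_finite_Q area_finite_p
  simp only [Set.mem_preimage, Set.mem_ofPred_eq, ← sub_eq_add_neg, Complex.sub_re, Complex.sub_im]

theorem area_finite_exists (x : ℝ) : ∃ a : ℤ, x - (a : ℝ) * (2 * Real.pi) ∈ Ioc (-Real.pi) Real.pi := by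
  have hpi := Real.pi_pos
  refine ⟨⌈(x - Real.pi) / (2 * Real.pi)⌉, ?_, ?_⟩
  · have h := Int.ceil_lt_add_one ((x - Real.pi) / (2 * Real.pi))
    have h2 : (⌈(x - Real.pi) / (2 * Real.pi)⌉ : ℝ) * (2 * Real.pi) < ((x - Real.pi) / (2 * Real.pi) + 1) * (2 * Real.pi) :=
      mul_lt_mul_of_pos_right h (by linarith)
    have h3 : ((x - Real.pi) / (2 * Real.pi) + 1) * (2 * Real.pi) = x - Real.pi + 2 * Real.pi := by
      field_simp
    rw [h3] at h2
    linarith
  · have h := Int.le_ceil ((x - Real.pi) / (2 * Real.pi))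
    have h2 : ((x - Real.pi) / (2 * Real.pi)) * (2 * Real.pi) ≤ (⌈(x - Real.pi) / (2 * Real.pi)⌉ : ℝ) * (2 * Real.pi) :=
      mul_le_mul_of_nonneg_right h (by linarith)
    have h3 : ((x - Real.pi) / (2 * Real.pi)) * (2 * Real.pi) = x - Real.pi := by
      field_simp
    rw [h3] at h2
    linarith

theorem area_finite_uniq (x : ℝ) (a b : ℤ) (ha : x - (a : ℝ) * (2 * Real.pi) ∈ Ioc (-Real.pi) Real.pi)
    (hb : x - (b : ℝ) * (2 * Real.pi) ∈ Ioc (-Real.pi) Real.pi) : a = b := by
  have hpi := Real.pi_pos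
  have h1 : ((a : ℝ) - b) * (2 * Real.pi) < 1 * (2 * Real.pi) := by linarith [ha.1, ha.2, hb.1, hb.2]
  have h2 : ((b : ℝ) - a) * (2 * Real.pi) < 1 * (2 * Real.pi) := by linarith [ha.1, ha.2, hb.1, hb.2]
  have h3 := lt_of_mul_lt_mul_right h1 (by linarith)
  have h4 := lt_of_mul_lt_mul_right h2 (by linarith)
  have h5 : a - b < 1 := by exact_mod_cast h3
  have h6 : b - a < 1 := by exact_mod_cast h4
  omega

theorem area_finite_cover : (⋃ n, area_finite_R n) = univ := by
  rw [Set.eq_univ_iff_forall]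
  intro z
  obtain ⟨a, ha⟩ := area_finite_exists z.re
  obtain ⟨b, hb⟩ := area_finite_exists z.im
  exact Set.mem_iUnion.mpr ⟨(a, b), (area_finite_mem (a, b) z).mpr ⟨ha, hb⟩⟩

theorem area_finite_disj : Pairwise (Function.onFun Disjoint area_finite_R) := by
  intro n m hnm
  rw [Function.onFun, Set.disjoint_left]
  intro z hz hz'
  rw [area_finite_mem] at hz hz'
  apply hnm
  exact Prod.ext (area_finite_uniq _ _ _ hz.1 hz'.1) (area_finite_uniq _ _ _ hz.2 hz'.2)

theorem area_finite_per (n : ℤ × ℤ) (z : ℂ) : FF (z + (-area_finite_p n)) = FF z := by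
  unfold FF area_finite_p
  simp only [← sub_eq_add_neg, Complex.sub_re, Complex.sub_im]
  rw [Real.cos_sub_int_mul_two_pi, Real.cos_sub_int_mul_two_pi]

theorem area_finite_dist (n : ℤ × ℤ) (z w : ℂ) (hz : z ∈ area_finite_R n) (hw : w ∈ area_finite_R n) :
    ‖z - w‖ ≤ 10 := by
  rw [area_finite_mem] at hz hw
  have hpi : Real.pi < 3.15 := Real.pi_lt_d2
  have h1 : |(z - w).re| ≤ 2 * Real.pi := by
    rw [Complex.sub_re, abs_le]
    constructor <;> linarith [hz.1.1, hz.1.2, hw.1.1, hw.1.2]
  have h2 : |(z - w).im| ≤ 2 * Real.pi := by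
    rw [Complex.sub_im, abs_le]
    constructor <;> linarith [hz.2.1, hz.2.2, hw.2.1, hw.2.2]
  have h3 : ‖z - w‖ ^ 2 ≤ 10 ^ 2 := by
    rw [← Complex.normSq_eq_norm_sq, Complex.normSq_apply]
    have e1 : (z - w).re * (z - w).re ≤ (2 * Real.pi) * (2 * Real.pi) := by
      rw [← abs_mul_abs_self (z - w).re]
      exact mul_self_le_mul_self (abs_nonneg _) h1
    have e2 : (z - w).im * (z - w).im ≤ (2 * Real.pi) * (2 * Real.pi) := by
      rw [← abs_mul_abs_self (z - w).im]
      exact mul_self_le_mul_self (abs_nonneg _) h2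
    nlinarith [Real.pi_pos]
  exact abs_le_of_sq_le_sq' h3 (by norm_num) |>.2

theorem area_finite_volR (n : ℤ × ℤ) : volume (area_finite_R n) = volume area_finite_Q :=
  measure_preimage_add_right volume (-area_finite_p n) area_finite_Q

theorem area_finite_V0 : volume area_finite_Q ≠ 0 := by
  have hpi : 3 < Real.pi := Real.pi_gt_three
  have hsub : Metric.ball (0:ℂ) 1 ⊆ area_finite_Q := by
    intro z hz
    rw [Metric.mem_ball, dist_zero_right] at hz
    have h1 := (Complex.abs_re_le_norm z).trans_lt hz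
    have h2 := (Complex.abs_im_le_norm z).trans_lt hz
    rw [abs_lt] at h1 h2
    exact ⟨⟨by linarith [h1.1], by linarith [h1.2]⟩, ⟨by linarith [h2.1], by linarith [h2.2]⟩⟩
  have hpos : 0 < volume (Metric.ball (0:ℂ) 1) := Metric.measure_ball_pos volume 0 one_pos
  exact (hpos.trans_le (measure_mono hsub)).ne'

theorem area_finite_Vtop : volume area_finite_Q ≠ ⊤ := by
  have hpi : Real.pi < 3.15 := Real.pi_lt_d2
  have hsub : area_finite_Q ⊆ Metric.closedBall (0:ℂ) 10 := by
    intro z hz
    rw [Metric.mem_closedBall, dist_zero_right]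
    have h1 : |z.re| ≤ Real.pi := abs_le.mpr ⟨hz.1.1.le, hz.1.2⟩
    have h2 : |z.im| ≤ Real.pi := abs_le.mpr ⟨hz.2.1.le, hz.2.2⟩
    have := Complex.norm_le_abs_re_add_abs_im z
    linarith
  exact ((measure_mono hsub).trans_lt (isCompact_closedBall (0:ℂ) 10).measure_lt_top).ne

theorem area_finite_cellR (n : ℤ × ℤ) :
    ∫⁻ z in area_finite_R n, ENNReal.ofReal (1 / (FF z * LL z ^ 2))
      = ∫⁻ z in area_finite_Q, ENNReal.ofReal (1 / (FF z * LL z ^ 2)) := by
  rw [← lintegral_indicator (area_finite_measR n), ← lintegral_indicator area_finite_measQ]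
  rw [← lintegral_add_right_eq_self
    (fun z => area_finite_Q.indicator (fun z => ENNReal.ofReal (1 / (FF z * LL z ^ 2))) z)
    (-area_finite_p n)]
  congr 1
  ext z
  have hL : LL (z + (-area_finite_p n)) = LL z := by
    unfold LL
    rw [area_finite_per]
  by_cases h : z ∈ area_finite_R n
  · rw [Set.indicator_of_mem h, Set.indicator_of_mem (show z + (-area_finite_p n) ∈ area_finite_Q from h),
      area_finite_per, hL]
  · rw [Set.indicator_of_notMem h, Set.indicator_of_notMem (show z + (-area_finite_p n) ∉ area_finite_Q from h)]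

theorem area_finite : ∫⁻ z in UU, ENNReal.ofReal (Real.exp (2 * phi z)) < ⊤ := by
  set h : ℂ → ℝ≥0∞ := fun z => ENNReal.ofReal (1 / (FF z * LL z ^ 2)) with hh
  set w : ℂ → ℝ≥0∞ := fun z => ENNReal.ofReal (1 / SS z ^ 2) with hw
  set V := volume area_finite_Q with hV
  have hV0 : V ≠ 0 := area_finite_V0
  have hVt : V ≠ ⊤ := area_finite_Vtop
  set I0 := ∫⁻ z in area_finite_Q, h z with hI0
  have hI : I0 < ⊤ := by
    refine lt_of_le_of_lt (lintegral_mono_set ?_) int_cell
    intro z hz
    exact ⟨abs_le.mpr ⟨hz.1.1.le, hz.1.2⟩, abs_le.mpr ⟨hz.2.1.le, hz.2.2⟩⟩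
  have hW : ∫⁻ z, w z < ⊤ := int_S2
  have h1 : ∫⁻ z in UU, ENNReal.ofReal (Real.exp (2 * phi z)) ≤ ∫⁻ z, h z * w z := by
    refine le_trans (le_of_eq ?_) (setLIntegral_le_lintegral UU _)
    refine setLIntegral_congr_fun U_facts.1.measurableSet ?_
    intro z hz
    have hF := (L_facts z hz).1
    have hL := (L_facts z hz).2.1
    have hS := (N_facts z).2.2.2.1
    simp only [hh, hw]
    rw [← ENNReal.ofReal_mul (by positivity), (exp_phi z hz).1]
    congr 1
    rw [one_div_mul_one_div]
  refine lt_of_le_of_lt h1 ?_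
  have hcell : ∀ n, ∫⁻ z in area_finite_R n, h z * w z ≤ (I0 * (4 / V)) * ∫⁻ z in area_finite_R n, w z := by
    intro n
    set Wn := ∫⁻ z in area_finite_R n, w z with hWn
    have hWnt : Wn ≠ ⊤ := ((setLIntegral_le_lintegral (area_finite_R n) w).trans_lt hW).ne
    have hbd : ∀ z ∈ area_finite_R n, w z ≤ 4 * Wn / V := by
      intro z hz
      rw [ENNReal.le_div_iff_mul_le (Or.inl hV0) (Or.inl hVt)]
      calc w z * V = ∫⁻ _ in area_finite_R n, w z := by
            rw [setLIntegral_const, area_finite_volR]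
        _ ≤ ∫⁻ u in area_finite_R n, 4 * w u := by
            refine setLIntegral_mono' (area_finite_measR n) ?_
            intro u hu
            have hd : ‖z - u‖ ≤ 10 := area_finite_dist n z u hz hu
            have hs := S_near z u hd
            have hSz := (N_facts z).2.2.2.1
            have hSu := (N_facts u).2.2.2.1
            simp only [hw]
            rw [show (4 : ℝ≥0∞) = ENNReal.ofReal 4 by simp, ← ENNReal.ofReal_mul (by norm_num)]
            apply ENNReal.ofReal_le_ofReal
            rw [mul_one_div, div_le_div_iff₀ (by positivity) (by positivity)]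
            nlinarith
        _ = 4 * Wn := by
            rw [lintegral_const_mul' 4 _ (by simp)]
    calc ∫⁻ z in area_finite_R n, h z * w z ≤ ∫⁻ z in area_finite_R n, h z * (4 * Wn / V) := by
          refine setLIntegral_mono' (area_finite_measR n) ?_
          intro z hz
          gcongr
          exact hbd z hz
      _ = (∫⁻ z in area_finite_R n, h z) * (4 * Wn / V) := by
          rw [lintegral_mul_const']
          exact ENNReal.div_ne_top (ENNReal.mul_ne_top (by simp) hWnt) hV0
      _ = I0 * (4 * Wn / V) := by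
          rw [area_finite_cellR]
      _ = (I0 * (4 / V)) * Wn := by
          rw [ENNReal.mul_div_right_comm, mul_assoc]
  calc ∫⁻ z, h z * w z = ∫⁻ z in ⋃ n, area_finite_R n, h z * w z := by
        rw [area_finite_cover, setLIntegral_univ]
    _ = ∑' n, ∫⁻ z in area_finite_R n, h z * w z :=
        lintegral_iUnion area_finite_measR area_finite_disj _
    _ ≤ ∑' n, (I0 * (4 / V)) * ∫⁻ z in area_finite_R n, w z := ENNReal.tsum_le_tsum hcell
    _ = (I0 * (4 / V)) * ∑' n, ∫⁻ z in area_finite_R n, w z := ENNReal.tsum_mul_left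
    _ = (I0 * (4 / V)) * ∫⁻ z, w z := by
        rw [← lintegral_iUnion area_finite_measR area_finite_disj, area_finite_cover, setLIntegral_univ]
    _ < ⊤ := ENNReal.mul_lt_top (ENNReal.mul_lt_top hI (ENNReal.div_lt_top (by simp) hV0)) hW

end Pool.Agent.Helper290.Liou
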