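import Pool.Agent.Helper290.Liou.Defs

set_option autoImplicit false

open Set Filter Topology MeasureTheory Complex
open scoped ENNReal ContDiff

namespace Pool.Agent.Helper290.Liou



theorem rdist_near (U : Set ℂ) (φ : ℂ → ℝ) (hU : IsOpen U) (hφ : ContinuousOn φ U) (z : ℂ)
    (hz : z ∈ U) : Tendsto (fun w => rdist U φ w z) (𝓝 z) (𝓝 0) := by
  have hUz : U ∈ 𝓝 z := hU.mem_nhds hz
  have hc : ContinuousAt φ z := hφ.continuousAt hUz
  have hev : ∀ᶠ w in 𝓝 z, w ∈ U ∧ φ w < φ z + 1 :=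
    (Filter.eventually_of_mem hUz fun w hw => hw).and (hc.eventually (gt_mem_nhds (lt_add_one _)))
  obtain ⟨r, hr, hball⟩ := Metric.eventually_nhds_iff_ball.1 hev
  have hup : Tendsto (fun w => ENNReal.ofReal (Real.exp (φ z + 1) * ‖z - w‖)) (𝓝 z) (𝓝 0) := by
    have h1 : Tendsto (fun w : ℂ => Real.exp (φ z + 1) * ‖z - w‖) (𝓝 z) (𝓝 0) := by
      have h2 : Continuous (fun w : ℂ => Real.exp (φ z + 1) * ‖z - w‖) := by fun_prop
      have h3 := h2.tendsto z
      simpa using h3
    have h4 := (ENNReal.continuous_ofReal.tendsto 0).comp h1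
    rw [ENNReal.ofReal_zero] at h4
    exact h4
  refine tendsto_of_tendsto_of_tendsto_of_le_of_le' tendsto_const_nhds hup
    (Filter.Eventually.of_forall fun w => bot_le) ?_
  filter_upwards [Metric.ball_mem_nhds z hr] with w hw
  have hmem : ∀ t ∈ Icc (0 : ℝ) 1, w + t • (z - w) ∈ Metric.ball z r := by
    intro t ht
    exact (convex_ball z r).add_smul_sub_mem hw (Metric.mem_ball_self hr) ht
  have hder : ∀ t : ℝ, deriv (fun t : ℝ => w + t • (z - w)) t = z - w := by
    intro t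
    have := ((hasDerivAt_id t).smul_const (z - w)).const_add w
    simpa using this.deriv
  have hγ : (fun t : ℝ => w + t • (z - w)) ∈ {γ : ℝ → ℂ | ContDiff ℝ 1 γ ∧ (∀ t ∈ Icc (0:ℝ) 1, γ t ∈ U) ∧
      γ 0 = w ∧ γ 1 = z} := by
    refine ⟨?_, fun t ht => (hball _ (hmem t ht)).1, by simp, by simp⟩
    exact contDiff_const.add (contDiff_id.smul contDiff_const)
  refine (iInf₂_le _ hγ).trans ?_
  unfold len
  calc ∫⁻ t in Icc (0:ℝ) 1, ENNReal.ofReal (Real.exp (φ (w + t • (z - w))) * ‖deriv (fun t : ℝ => w + t • (z - w)) t‖)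
      ≤ ∫⁻ t in Icc (0:ℝ) 1, ENNReal.ofReal (Real.exp (φ z + 1) * ‖z - w‖) := by
        apply setLIntegral_mono' measurableSet_Icc
        intro t ht
        rw [hder t]
        apply ENNReal.ofReal_le_ofReal
        apply mul_le_mul_of_nonneg_right _ (norm_nonneg _)
        exact Real.exp_le_exp.2 (hball _ (hmem t ht)).2.le
    _ = ENNReal.ofReal (Real.exp (φ z + 1) * ‖z - w‖) := by
        rw [lintegral_const, Measure.restrict_apply_univ, Real.volume_Icc]
        simp

end Pool.Agent.Helper290.Liou
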