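import Pool.Agent.Helper290.Liou.Defs

set_option autoImplicit false

open Set Filter Topology MeasureTheory Complex
open scoped ENNReal ContDiff

namespace Pool.Agent.Helper290.Liou



theorem st_deriv_nonpos {s : ℝ} (hs : s ≤ 0) : deriv Real.smoothTransition s = 0 := by
  apply IsLocalMin.deriv_eq_zero
  refine Filter.Eventually.of_forall fun t => ?_
  rw [Real.smoothTransition.zero_of_nonpos hs]
  exact Real.smoothTransition.nonneg t

theorem st_deriv_ge_one {s : ℝ} (hs : 1 ≤ s) : deriv Real.smoothTransition s = 0 := by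
  apply IsLocalMax.deriv_eq_zero
  refine Filter.Eventually.of_forall fun t => ?_
  rw [Real.smoothTransition.one_of_one_le hs]
  exact Real.smoothTransition.le_one t

theorem st_hasDeriv (s : ℝ) :
    HasDerivAt Real.smoothTransition (deriv Real.smoothTransition s) s :=
  ((Real.smoothTransition.contDiff (n := 1)).differentiable (by norm_num) s).hasDerivAt

theorem st_lin (b t : ℝ) :
    HasDerivAt (fun t => Real.smoothTransition (2 * t - b))
      (2 * deriv Real.smoothTransition (2 * t - b)) t := by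
  have h1 : HasDerivAt (fun t : ℝ => 2 * t - b) 2 t := by
    simpa using ((hasDerivAt_id t).const_mul (2:ℝ)).sub_const b
  have h2 := HasDerivAt.comp (h₂ := Real.smoothTransition) (h := fun t : ℝ => 2 * t - b) t
    (st_hasDeriv (2 * t - b)) h1
  rw [mul_comm] at h2
  exact h2

theorem len_piece (φ : ℂ → ℝ) (γ g : ℝ → ℂ) (b : ℝ) (s : Set ℝ) (hs : MeasurableSet s)
    (h1 : ∀ t ∈ s, γ t = g (Real.smoothTransition (2 * t - b)))
    (h2 : ∀ t ∈ s, deriv γ t = ((2 * deriv Real.smoothTransition (2 * t - b) : ℝ) : ℂ) *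
      deriv g (Real.smoothTransition (2 * t - b))) :
    ∫⁻ t in s, ENNReal.ofReal (Real.exp (φ (γ t)) * ‖deriv γ t‖) ≤ len φ g := by
  have hmono : Monotone (fun t => Real.smoothTransition (2 * t - b)) := by
    intro t u htu
    exact Real.smoothTransition.monotone (by linarith)
  have hder : ∀ t, 0 ≤ 2 * deriv Real.smoothTransition (2 * t - b) := by
    intro t
    have := Real.smoothTransition.monotone.deriv_nonneg (x := 2 * t - b)
    linarith
  have key := lintegral_image_eq_lintegral_deriv_mul_of_monotoneOn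
    (f := fun t => Real.smoothTransition (2 * t - b))
    (f' := fun t => 2 * deriv Real.smoothTransition (2 * t - b)) hs
    (fun t _ => (st_lin b t).hasDerivWithinAt) (hmono.monotoneOn s)
    (fun r => ENNReal.ofReal (Real.exp (φ (g r)) * ‖deriv g r‖))
  have e1 : ∫⁻ t in s, ENNReal.ofReal (Real.exp (φ (γ t)) * ‖deriv γ t‖)
      = ∫⁻ t in s, ENNReal.ofReal (2 * deriv Real.smoothTransition (2 * t - b)) *
        ENNReal.ofReal (Real.exp (φ (g (Real.smoothTransition (2 * t - b)))) *
          ‖deriv g (Real.smoothTransition (2 * t - b))‖) := by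
    refine setLIntegral_congr_fun hs fun t ht => ?_
    rw [← ENNReal.ofReal_mul (hder t), h1 t ht, h2 t ht, norm_mul, Complex.norm_real,
      Real.norm_of_nonneg (hder t)]
    congr 1
    ring
  rw [e1, ← key]
  unfold len
  refine lintegral_mono_set ?_
  rintro r ⟨t, _, rfl⟩
  exact ⟨Real.smoothTransition.nonneg _, Real.smoothTransition.le_one _⟩

theorem concat_exists (U : Set ℂ) (φ : ℂ → ℝ) (x y z : ℂ) (g1 g2 : ℝ → ℂ)
    (c1 : ContDiff ℝ 1 g1) (m1 : ∀ t ∈ Icc (0:ℝ) 1, g1 t ∈ U) (a1 : g1 0 = x) (b1 : g1 1 = y)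
    (c2 : ContDiff ℝ 1 g2) (m2 : ∀ t ∈ Icc (0:ℝ) 1, g2 t ∈ U) (a2 : g2 0 = y) (b2 : g2 1 = z) :
    rdist U φ x z ≤ len φ g1 + len φ g2 := by
  set γ : ℝ → ℂ := fun t => g1 (Real.smoothTransition (2 * t - 0)) +
    g2 (Real.smoothTransition (2 * t - 1)) - y with hγ
  have v1 : ∀ t, t ≤ 1 / 2 → γ t = g1 (Real.smoothTransition (2 * t - 0)) := by
    intro t ht
    simp only [hγ]
    rw [Real.smoothTransition.zero_of_nonpos (by linarith : 2 * t - 1 ≤ 0), a2]
    ring
  have v2 : ∀ t, 1 / 2 ≤ t → γ t = g2 (Real.smoothTransition (2 * t - 1)) := by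
    intro t ht
    simp only [hγ]
    rw [Real.smoothTransition.one_of_one_le (by linarith : 1 ≤ 2 * t - 0), b1]
    ring
  have hd1 : ∀ (g : ℝ → ℂ) (_ : ContDiff ℝ 1 g) (b t : ℝ),
      HasDerivAt (fun t => g (Real.smoothTransition (2 * t - b)))
        (((2 * deriv Real.smoothTransition (2 * t - b) : ℝ) : ℂ) *
          deriv g (Real.smoothTransition (2 * t - b))) t := by
    intro g cg b t
    have hg : HasDerivAt g (deriv g (Real.smoothTransition (2 * t - b)))
        (Real.smoothTransition (2 * t - b)) :=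
      (cg.differentiable (by norm_num) _).hasDerivAt
    have := HasDerivAt.scomp (g₁ := g) t hg (st_lin b t)
    rw [Complex.real_smul] at this
    exact this
  have hd : ∀ t, deriv γ t = ((2 * deriv Real.smoothTransition (2 * t - 0) : ℝ) : ℂ) *
      deriv g1 (Real.smoothTransition (2 * t - 0)) +
      ((2 * deriv Real.smoothTransition (2 * t - 1) : ℝ) : ℂ) *
      deriv g2 (Real.smoothTransition (2 * t - 1)) := by
    intro t
    exact (((hd1 g1 c1 0 t).add (hd1 g2 c2 1 t)).sub_const y).deriv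
  have cst : ∀ b : ℝ, ContDiff ℝ 1 (fun t : ℝ => Real.smoothTransition (2 * t - b)) := by
    intro b
    exact (Real.smoothTransition.contDiff (n := 1)).comp
      ((contDiff_const.mul contDiff_id).sub contDiff_const)
  have cγ : ContDiff ℝ 1 γ := ((c1.comp (cst 0)).add (c2.comp (cst 1))).sub contDiff_const
  have mem : ∀ t ∈ Icc (0:ℝ) 1, γ t ∈ U := by
    intro t _
    rcases le_total t (1/2) with h | h
    · rw [v1 t h]
      exact m1 _ ⟨Real.smoothTransition.nonneg _, Real.smoothTransition.le_one _⟩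
    · rw [v2 t h]
      exact m2 _ ⟨Real.smoothTransition.nonneg _, Real.smoothTransition.le_one _⟩
  have e0 : γ 0 = x := by
    rw [v1 0 (by norm_num), Real.smoothTransition.zero_of_nonpos (by norm_num), a1]
  have e1 : γ 1 = z := by
    rw [v2 1 (by norm_num), Real.smoothTransition.one_of_one_le (by norm_num), b2]
  have hle : rdist U φ x z ≤ len φ γ := by
    unfold rdist
    exact iInf₂_le γ ⟨cγ, mem, e0, e1⟩
  refine hle.trans ?_
  have hsplit : Icc (0:ℝ) 1 = Icc (0:ℝ) (1/2) ∪ Icc (1/2) 1 := by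
    rw [Icc_union_Icc_eq_Icc] <;> norm_num
  have hl : len φ γ ≤ (∫⁻ t in Icc (0:ℝ) (1/2), ENNReal.ofReal (Real.exp (φ (γ t)) * ‖deriv γ t‖)) +
      ∫⁻ t in Icc (1/2:ℝ) 1, ENNReal.ofReal (Real.exp (φ (γ t)) * ‖deriv γ t‖) := by
    unfold len
    rw [hsplit]
    exact lintegral_union_le _ _ _
  refine hl.trans (add_le_add ?_ ?_)
  · refine len_piece φ γ g1 0 _ measurableSet_Icc (fun t ht => v1 t ht.2) (fun t ht => ?_)
    rw [hd t, st_deriv_nonpos (by linarith [ht.2] : 2 * t - 1 ≤ 0)]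
    simp
  · refine len_piece φ γ g2 1 _ measurableSet_Icc (fun t ht => v2 t ht.1) (fun t ht => ?_)
    rw [hd t, st_deriv_ge_one (by linarith [ht.1] : 1 ≤ 2 * t - 0)]
    simp

theorem rdist_triangle (U : Set ℂ) (φ : ℂ → ℝ) (x y z : ℂ) :
    rdist U φ x z ≤ rdist U φ x y + rdist U φ y z := by
  conv_rhs => unfold rdist
  refine ENNReal.le_iInf₂_add_iInf₂ ?_
  rintro g1 ⟨c1, m1, a1, b1⟩ g2 ⟨c2, m2, a2, b2⟩
  exact concat_exists U φ x y z g1 g2 c1 m1 a1 b1 c2 m2 a2 b2

end Pool.Agent.Helper290.Liou
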