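import Pool.Agent.Helper290.Liou.Defs
import Pool.Agent.Helper290.Liou.P_P_rdist
import Pool.Agent.Helper290.Liou.P_rdist_triangle
import Pool.Agent.Helper290.Liou.P_rdist_near

set_option autoImplicit false

open Set Filter Topology MeasureTheory Complex
open scoped ENNReal ContDiff

namespace Pool.Agent.Helper290.Liou



theorem complete_of_good (U : Set ℂ) (φ P : ℂ → ℝ) (B : ℝ) (h : Good U φ P B) (hB : 0 < B) :
    CompleteMetric U φ := by
  intro s hs hc
  obtain ⟨k, hk⟩ := hc 1 one_pos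
  have hbd : ∀ n ≥ k, P (s n) ≤ P (s k) + B := by
    intro n hn
    have h1 := P_rdist U φ P B h hB (s n) (s k)
    have h2 : ENNReal.ofReal |P (s n) - P (s k)| ≤ ENNReal.ofReal B := by
      refine h1.trans ?_
      calc ENNReal.ofReal B * rdist U φ (s n) (s k) ≤ ENNReal.ofReal B * 1 := by
            gcongr
            exact (hk n hn k le_rfl).le
        _ = _ := mul_one _
    have h3 := (ENNReal.ofReal_le_ofReal_iff hB.le).1 h2
    have := abs_le.1 h3
    linarith [this.2]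
  obtain ⟨z, hz, ψ, hψ, hlim⟩ := (h.Pc (P (s k) + B)).tendsto_subseq
    (x := fun n => s (n + k)) (fun n => ⟨hs _, hbd _ (by omega)⟩)
  refine ⟨z, hz.1, ?_⟩
  have hnear := (rdist_near U φ h.op h.sm.continuousOn z hz.1).comp hlim
  rw [ENNReal.tendsto_atTop_zero]
  intro ε hε
  have hε2 : 0 < ε / 2 := ENNReal.half_pos (ne_of_gt hε)
  obtain ⟨k', hk'⟩ := hc (ε / 2) hε2
  refine ⟨k', fun n hn => ?_⟩
  have h1 : ∀ᶠ m in atTop, rdist U φ (s (ψ m + k)) z < ε / 2 :=
    hnear.eventually (gt_mem_nhds hε2)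
  have h2 : ∀ᶠ m in atTop, k' ≤ ψ m := hψ.tendsto_atTop.eventually_ge_atTop k'
  obtain ⟨m, hm1, hm2⟩ := (h1.and h2).exists
  calc rdist U φ (s n) z ≤ rdist U φ (s n) (s (ψ m + k)) + rdist U φ (s (ψ m + k)) z :=
        rdist_triangle U φ _ _ _
    _ ≤ ε / 2 + ε / 2 := add_le_add (hk' n hn _ (by omega)).le hm1.le
    _ = ε := ENNReal.add_halves ε

end Pool.Agent.Helper290.Liou
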