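import Pool.Agent.Helper290.Liou.Defs

set_option autoImplicit false

open Set Filter Topology MeasureTheory Complex
open scoped ENNReal ContDiff

namespace Pool.Agent.Helper290.Liou



theorem uvec_normSq (φ : ℂ → ℝ) (p : ℂ × ℝ) :
    Complex.normSq (uvec φ p) = Real.exp (-2 * φ p.1) := by
  have h1 : ‖Complex.exp ((p.2 : ℂ) * I)‖ = 1 := Complex.norm_exp_ofReal_mul_I p.2
  rw [Complex.normSq_eq_norm_sq, uvec, norm_mul, h1, mul_one, Complex.norm_real, Real.norm_eq_abs,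
    sq_abs, ← Real.exp_nat_mul]
  congr 1
  push_cast
  ring

theorem alc (φ : ℂ → ℝ) (p ξ : ℂ × ℝ) :
    ((al φ p ξ : ℝ) : ℂ) + ((jj φ p ξ : ℝ) : ℂ) * I =
      ((Real.exp (2 * φ p.1) : ℝ) : ℂ) * ((starRingEnd ℂ) (uvec φ p) * ξ.1) := by
  have h : ∀ (r : ℝ) (z : ℂ), ((r * z.re : ℝ) : ℂ) + ((r * z.im : ℝ) : ℂ) * I = (r : ℂ) * z := by
    intro r z
    rw [Complex.ofReal_mul, Complex.ofReal_mul]
    conv_rhs => rw [← Complex.re_add_im z]
    ring
  exact h _ _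

theorem sq_sum (φ : ℂ → ℝ) (p ξ : ℂ × ℝ) :
    al φ p ξ ^ 2 + jj φ p ξ ^ 2 = (Real.exp (φ p.1) * ‖ξ.1‖) ^ 2 := by
  have h := uvec_normSq φ p
  have h2 : al φ p ξ ^ 2 + jj φ p ξ ^ 2 =
      Real.exp (2 * φ p.1) ^ 2 * Complex.normSq ((starRingEnd ℂ) (uvec φ p) * ξ.1) := by
    rw [Complex.normSq_apply]
    simp only [al, jj]
    ring
  rw [h2, Complex.normSq_mul, Complex.normSq_conj, h, Complex.normSq_eq_norm_sq, mul_pow,
    ← Real.exp_nat_mul, ← Real.exp_nat_mul, ← mul_assoc, ← Real.exp_add]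
  congr 2
  push_cast
  ring

theorem comps (φ : ℂ → ℝ) (p : ℂ × ℝ) :
    (∀ a b c : ℝ, ∃ ξ, al φ p ξ = a ∧ jj φ p ξ = b ∧ ww φ p ξ = c) ∧
    (∀ ξ η, al φ p ξ = al φ p η → jj φ p ξ = jj φ p η → ww φ p ξ = ww φ p η → ξ = η) ∧
    (∀ (a b : ℝ) (ξ η : ℂ × ℝ), al φ p (a • ξ + b • η) = a * al φ p ξ + b * al φ p η ∧
      jj φ p (a • ξ + b • η) = a * jj φ p ξ + b * jj φ p η ∧
      ww φ p (a • ξ + b • η) = a * ww φ p ξ + b * ww φ p η) ∧
    (∀ ξ, sasaki φ p ξ = Real.sqrt (al φ p ξ ^ 2 + jj φ p ξ ^ 2 + ww φ p ξ ^ 2)) ∧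
    (∀ ξ, footNorm φ p ξ = Real.sqrt (al φ p ξ ^ 2 + jj φ p ξ ^ 2)) := by
  have hn := uvec_normSq φ p
  have hexp : Real.exp (2 * φ p.1) * Real.exp (-2 * φ p.1) = 1 := by
    rw [← Real.exp_add]
    simp
  have hv0 : uvec φ p ≠ 0 := by
    intro h
    rw [h] at hn
    simp at hn
    exact absurd hn.symm (Real.exp_pos _).ne'
  refine ⟨?_, ?_, ?_, ?_, ?_⟩
  · intro a b c
    refine ⟨(((a : ℂ) + (b : ℂ) * I) * uvec φ p,
      c + fderiv ℝ φ p.1 (I * (((a : ℂ) + (b : ℂ) * I) * uvec φ p))), ?_, ?_, ?_⟩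
    · have h1 : (starRingEnd ℂ) (uvec φ p) * (((a : ℂ) + (b : ℂ) * I) * uvec φ p) =
          ((Complex.normSq (uvec φ p) : ℝ) : ℂ) * ((a : ℂ) + (b : ℂ) * I) := by
        rw [Complex.normSq_eq_conj_mul_self]
        ring
      simp only [al]
      rw [h1, hn, Complex.re_ofReal_mul, ← mul_assoc, hexp]
      simp
    · have h1 : (starRingEnd ℂ) (uvec φ p) * (((a : ℂ) + (b : ℂ) * I) * uvec φ p) =
          ((Complex.normSq (uvec φ p) : ℝ) : ℂ) * ((a : ℂ) + (b : ℂ) * I) := by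
        rw [Complex.normSq_eq_conj_mul_self]
        ring
      simp only [jj]
      rw [h1, hn, Complex.im_ofReal_mul, ← mul_assoc, hexp]
      simp
    · simp only [ww]
      ring
  · intro ξ η ha hj hw
    have h1 := alc φ p ξ
    have h2 := alc φ p η
    rw [ha, hj, h2] at h1
    have hE : ((Real.exp (2 * φ p.1) : ℝ) : ℂ) ≠ 0 := by
      exact_mod_cast (Real.exp_pos _).ne'
    have hc : (starRingEnd ℂ) (uvec φ p) ≠ 0 := by
      simpa using hv0
    have h3 : ξ.1 = η.1 := (mul_left_cancel₀ hc (mul_left_cancel₀ hE h1)).symm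
    have h4 : ξ.2 = η.2 := by
      simp only [ww] at hw
      rw [h3] at hw
      linarith
    exact Prod.ext h3 h4
  · intro a b ξ η
    refine ⟨?_, ?_, ?_⟩
    · have h1 : (starRingEnd ℂ) (uvec φ p) * (a • ξ + b • η).1 =
          (a : ℂ) * ((starRingEnd ℂ) (uvec φ p) * ξ.1) +
            (b : ℂ) * ((starRingEnd ℂ) (uvec φ p) * η.1) := by
        simp only [Prod.fst_add, Prod.smul_fst, Complex.real_smul]
        ring
      simp only [al]
      rw [h1, Complex.add_re, Complex.re_ofReal_mul, Complex.re_ofReal_mul]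
      ring
    · have h1 : (starRingEnd ℂ) (uvec φ p) * (a • ξ + b • η).1 =
          (a : ℂ) * ((starRingEnd ℂ) (uvec φ p) * ξ.1) +
            (b : ℂ) * ((starRingEnd ℂ) (uvec φ p) * η.1) := by
        simp only [Prod.fst_add, Prod.smul_fst, Complex.real_smul]
        ring
      simp only [jj]
      rw [h1, Complex.add_im, Complex.im_ofReal_mul, Complex.im_ofReal_mul]
      ring
    · have h1 : I * (a • ξ + b • η).1 = a • (I * ξ.1) + b • (I * η.1) := by
        simp only [Prod.fst_add, Prod.smul_fst, Complex.real_smul]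
        ring
      simp only [ww]
      rw [h1, map_add, map_smul, map_smul]
      simp only [Prod.snd_add, Prod.smul_snd, smul_eq_mul]
      ring
  · intro ξ
    rw [sq_sum]
    rfl
  · intro ξ
    rw [sq_sum, Real.sqrt_sq (by positivity)]
    rfl

end Pool.Agent.Helper290.Liou
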