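import Pool.Agent.Helper290.Liou.Defs
import Pool.Agent.Helper290.Liou.P_F_facts
import Pool.Agent.Helper290.Liou.P_L_facts
import Pool.Agent.Helper290.Liou.P_N_facts

set_option autoImplicit false

open Set Filter Topology MeasureTheory Complex
open scoped ENNReal ContDiff

namespace Pool.Agent.Helper290.Liou



theorem phi_deriv_aux (z : ℂ) (hz : z ∈ UU) : ∃ A : ℂ →L[ℝ] ℝ, HasFDerivAt phi A z ∧ ∀ w, A w =
    -(dF z w / (2 * FF z)) + dF z w / (FF z * LL z)
      - (dN z w / (2 * NN z) + dN z w / (NN z * TT z)) := by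
  obtain ⟨hFp, hL4, -, -⟩ := L_facts z hz
  obtain ⟨hN, hT9, -, -, -, -, -⟩ := N_facts z
  have hNp : 0 < NN z := by linarith
  have hLp : 0 < LL z := by linarith
  have hTp : 0 < TT z := by linarith
  have hsq : 0 < Real.sqrt (NN z) := Real.sqrt_pos.2 hNp
  have hre : HasFDerivAt (fun z : ℂ => z.re) Complex.reCLM z := Complex.reCLM.hasFDerivAt
  have him : HasFDerivAt (fun z : ℂ => z.im) Complex.imCLM z := Complex.imCLM.hasFDerivAt
  have hcr : HasFDerivAt (fun z : ℂ => Real.cos z.re) ((-Real.sin z.re) • Complex.reCLM) z :=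
    (Real.hasDerivAt_cos z.re).comp_hasFDerivAt z hre
  have hci : HasFDerivAt (fun z : ℂ => Real.cos z.im) ((-Real.sin z.im) • Complex.imCLM) z :=
    (Real.hasDerivAt_cos z.im).comp_hasFDerivAt z him
  have hF := ((((hasFDerivAt_const (7:ℝ) z).sub (hcr.const_mul 3)).sub
    (hci.const_mul 3)).sub (hcr.mul hci))
  have hF' : HasFDerivAt FF _ z := hF
  have hN0 := (((hasFDerivAt_const (10000:ℝ) z).add (hre.pow 2)).add (him.pow 2))
  have hN' : HasFDerivAt NN _ z := hN0
  have hlF := hF'.log hFp.ne'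
  have hL' := (hasFDerivAt_const (7:ℝ) z).sub hlF
  have hLL : HasFDerivAt LL _ z := hL'
  have hTT : HasFDerivAt TT _ z := hN'.log hNp.ne'
  have hSq := hN'.sqrt hNp.ne'
  have hSS : HasFDerivAt SS _ z := hSq.mul hTT
  have hSp : 0 < SS z := mul_pos hsq hTp
  have hphi : HasFDerivAt phi _ z :=
    (((hlF.mul_const (1/2)).neg.sub (hLL.log hLp.ne')).sub (hSS.log hSp.ne')).congr_of_eventuallyEq
      (Filter.Eventually.of_forall fun y => by
        simp only [phi, Pi.sub_apply, Pi.neg_apply, LL]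
        ring)
  refine ⟨_, hphi, fun w => ?_⟩
  have hs2 : Real.sqrt (NN z) * Real.sqrt (NN z) = NN z := Real.mul_self_sqrt hNp.le
  have hSSd : SS z = Real.sqrt (NN z) * TT z := rfl
  simp [dF, dN]
  rw [hSSd]
  generalize hsdef : Real.sqrt (NN z) = s at *
  generalize TT z = T at *
  generalize LL z = L at *
  generalize FF z = F at *
  generalize NN z = N at *
  subst hs2
  have h1 := hsq.ne'
  have h2 := hTp.ne'
  have h3 := hLp.ne'
  have h4 := hFp.ne'
  field_simp
  ring

theorem phi_deriv (z : ℂ) (hz : z ∈ UU) : DifferentiableAt ℝ phi z ∧ ∀ w, fderiv ℝ phi z w =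
    -(dF z w / (2 * FF z)) + dF z w / (FF z * LL z)
      - (dN z w / (2 * NN z) + dN z w / (NN z * TT z)) := by
  obtain ⟨A, hA, hw⟩ := phi_deriv_aux z hz
  exact ⟨hA.differentiableAt, fun w => by rw [hA.fderiv]; exact hw w⟩

end Pool.Agent.Helper290.Liou
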