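import Pool.Agent.Helper290.Liou.Defs
import Pool.Agent.Helper290.Liou.P_F_facts
import Pool.Agent.Helper290.Liou.P_L_facts
import Pool.Agent.Helper290.Liou.P_N_facts
import Pool.Agent.Helper290.Liou.P_phi_deriv
import Pool.Agent.Helper290.Liou.P_U_facts

set_option autoImplicit false

open Set Filter Topology MeasureTheory Complex
open scoped ENNReal ContDiff

namespace Pool.Agent.Helper290.Liou



theorem lp_deriv (A F L B N T : ℝ → ℝ) (a f l b n t : ℝ) (hA : HasDerivAt A a 0)
    (hF : HasDerivAt F f 0) (hL : HasDerivAt L l 0) (hB : HasDerivAt B b 0)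
    (hN : HasDerivAt N n 0) (hT : HasDerivAt T t 0) (hF0 : F 0 ≠ 0) (hL0 : L 0 ≠ 0)
    (hN0 : N 0 ≠ 0) (hT0 : T 0 ≠ 0) :
    HasDerivAt (fun s => -(A s / (2 * F s)) + A s / (F s * L s)
        - (B s / (2 * N s) + B s / (N s * T s)))
      (-((a * (2 * F 0) - A 0 * (2 * f)) / (2 * F 0) ^ 2) +
        (a * (F 0 * L 0) - A 0 * (f * L 0 + F 0 * l)) / (F 0 * L 0) ^ 2 -
        ((b * (2 * N 0) - B 0 * (2 * n)) / (2 * N 0) ^ 2 +
          (b * (N 0 * T 0) - B 0 * (n * T 0 + N 0 * t)) / (N 0 * T 0) ^ 2)) 0 := by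
  have h1 := (hA.div (hF.const_mul 2) (mul_ne_zero two_ne_zero hF0)).neg
  have h2 := hA.div (hF.mul hL) (mul_ne_zero hF0 hL0)
  have h3 := hB.div (hN.const_mul 2) (mul_ne_zero two_ne_zero hN0)
  have h4 := hB.div (hN.mul hT) (mul_ne_zero hN0 hT0)
  exact (h1.add h2).sub (h3.add h4)

theorem lp_diff (z : ℂ) (hF0 : FF z ≠ 0) (hL0 : LL z ≠ 0) (hN0 : NN z ≠ 0) (hT0 : TT z ≠ 0)
    (e : ℂ) : DifferentiableAt ℝ (fun w => -(dF w e / (2 * FF w)) + dF w e / (FF w * LL w)
      - (dN w e / (2 * NN w) + dN w e / (NN w * TT w))) z := by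
  have hre : Differentiable ℝ (fun w : ℂ => w.re) := Complex.reCLM.differentiable
  have him : Differentiable ℝ (fun w : ℂ => w.im) := Complex.imCLM.differentiable
  have hcr := hre.cos
  have hci := him.cos
  have hsr := hre.sin
  have hsi := him.sin
  have hF : DifferentiableAt ℝ FF z := by
    unfold FF
    exact (((differentiableAt_const (7 : ℝ)).sub ((hcr z).const_mul 3)).sub
      ((hci z).const_mul 3)).sub ((hcr z).mul (hci z))
  have hL : DifferentiableAt ℝ LL z := by
    unfold LL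
    exact (differentiableAt_const (7 : ℝ)).sub (hF.log hF0)
  have hN : DifferentiableAt ℝ NN z := by
    unfold NN
    exact ((differentiableAt_const (10000 : ℝ)).add ((hre z).pow 2)).add ((him z).pow 2)
  have hT : DifferentiableAt ℝ TT z := by
    unfold TT
    exact hN.log hN0
  have hdF : DifferentiableAt ℝ (fun w => dF w e) z := by
    unfold dF
    exact (((hsr z).mul ((differentiableAt_const (3 : ℝ)).add (hci z))).mul_const _).add
      (((hsi z).mul ((differentiableAt_const (3 : ℝ)).add (hcr z))).mul_const _)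
  have hdN : DifferentiableAt ℝ (fun w => dN w e) z := by
    unfold dN
    exact (((hre z).mul_const _).add ((him z).mul_const _)).const_mul 2
  have n1 : (2 : ℝ) * FF z ≠ 0 := mul_ne_zero two_ne_zero hF0
  have n2 : FF z * LL z ≠ 0 := mul_ne_zero hF0 hL0
  have n3 : (2 : ℝ) * NN z ≠ 0 := mul_ne_zero two_ne_zero hN0
  have n4 : NN z * TT z ≠ 0 := mul_ne_zero hN0 hT0
  have m1 := hF.const_mul (2 : ℝ)
  have m3 := hN.const_mul (2 : ℝ)
  have q1 : DifferentiableAt ℝ (fun w => dF w e / (2 * FF w)) z := by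
    simp only [div_eq_mul_inv]
    exact hdF.mul (m1.inv n1)
  have q2 : DifferentiableAt ℝ (fun w => dF w e / (FF w * LL w)) z := by
    simp only [div_eq_mul_inv]
    have m2 : DifferentiableAt ℝ (fun w => FF w * LL w) z := hF.mul hL
    exact hdF.mul (m2.inv n2)
  have q3 : DifferentiableAt ℝ (fun w => dN w e / (2 * NN w)) z := by
    simp only [div_eq_mul_inv]
    exact hdN.mul (m3.inv n3)
  have q4 : DifferentiableAt ℝ (fun w => dN w e / (NN w * TT w)) z := by
    simp only [div_eq_mul_inv]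
    have m4 : DifferentiableAt ℝ (fun w => NN w * TT w) z := hN.mul hT
    exact hdN.mul (m4.inv n4)
  exact (q1.neg.add q2).sub (q3.add q4)

theorem lp_fd (z : ℂ) (hz : z ∈ UU) (e : ℂ) :
    fderiv ℝ (fun w => fderiv ℝ phi w e) z e = deriv (fun t : ℝ =>
      -(dF (z + t • e) e / (2 * FF (z + t • e))) + dF (z + t • e) e / (FF (z + t • e) * LL (z + t • e))
      - (dN (z + t • e) e / (2 * NN (z + t • e)) + dN (z + t • e) e / (NN (z + t • e) * TT (z + t • e))))
      0 := by
  have hev : (fun w => fderiv ℝ phi w e) =ᶠ[𝓝 z] (fun w => -(dF w e / (2 * FF w)) +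
      dF w e / (FF w * LL w) - (dN w e / (2 * NN w) + dN w e / (NN w * TT w))) := by
    filter_upwards [U_facts.1.mem_nhds hz] with w hw
    exact (phi_deriv w hw).2 e
  rw [hev.fderiv_eq]
  have hL := L_facts z hz
  have hN := N_facts z
  have := (lp_diff z hL.1.ne' (by linarith [hL.2.1]) (by linarith [hN.1]) (by linarith [hN.2.1])
    e).lineDeriv_eq_fderiv (v := e)
  rw [← this]
  rfl

theorem lap_phi (z : ℂ) (hz : z ∈ UU) : lap phi z =
    QQ z * (1 / 2 - 1 / LL z) + GG z / (FF z ^ 2 * LL z ^ 2) - LS z := by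
  have hL := L_facts z hz
  have hN := N_facts z
  have hF0 : FF z ≠ 0 := hL.1.ne'
  have hL0 : LL z ≠ 0 := by linarith [hL.2.1]
  have hN0 : NN z ≠ 0 := by linarith [hN.1]
  have hT0 : TT z ≠ 0 := by linarith [hN.2.1]
  unfold lap
  rw [lp_fd z hz 1, lp_fd z hz I]
  -- direction 1
  have d1 : HasDerivAt (fun t : ℝ => (z + t • (1 : ℂ)).re) 1 0 := by
    have : (fun t : ℝ => (z + t • (1 : ℂ)).re) = fun t => z.re + t := by funext t; simp
    rw [this]
    exact (hasDerivAt_id (0 : ℝ)).const_add z.re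
  have d1' : ∀ t : ℝ, (z + t • (1 : ℂ)).im = z.im := by intro t; simp
  have d2 : HasDerivAt (fun t : ℝ => (z + t • I).im) 1 0 := by
    have : (fun t : ℝ => (z + t • I).im) = fun t => z.im + t := by funext t; simp
    rw [this]
    exact (hasDerivAt_id (0 : ℝ)).const_add z.im
  have d2' : ∀ t : ℝ, (z + t • I).re = z.re := by intro t; simp
  have z1 : z + (0 : ℝ) • (1 : ℂ) = z := by simp
  have z2 : z + (0 : ℝ) • I = z := by simp
  -- first
  have hF1 : HasDerivAt (fun t : ℝ => FF (z + t • (1 : ℂ)))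
      (Real.sin z.re * (3 + Real.cos z.im)) 0 := by
    have h := ((((d1.cos.const_mul 3).const_sub 7).sub_const (3 * Real.cos z.im)).sub
      (d1.cos.mul_const (Real.cos z.im)))
    have e1 : (fun t : ℝ => FF (z + t • (1 : ℂ))) = fun t : ℝ =>
        7 - 3 * Real.cos (z + t • (1 : ℂ)).re - 3 * Real.cos z.im -
          Real.cos (z + t • (1 : ℂ)).re * Real.cos z.im := by
      funext t
      unfold FF
      rw [d1']
    rw [e1]
    refine h.congr_deriv ?_
    rw [z1]; ring
  have hA1 : HasDerivAt (fun t : ℝ => dF (z + t • (1 : ℂ)) 1)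
      (Real.cos z.re * (3 + Real.cos z.im)) 0 := by
    have h := d1.sin.mul_const (3 + Real.cos z.im)
    have e1 : (fun t : ℝ => dF (z + t • (1 : ℂ)) 1) = fun t : ℝ =>
        Real.sin (z + t • (1 : ℂ)).re * (3 + Real.cos z.im) := by
      funext t
      unfold dF
      rw [d1']
      simp
    rw [e1]
    refine h.congr_deriv ?_
    rw [z1]; ring
  have hL1 : HasDerivAt (fun t : ℝ => LL (z + t • (1 : ℂ)))
      (-(Real.sin z.re * (3 + Real.cos z.im) / FF z)) 0 := by
    have h := (hF1.log (by rw [z1]; exact hF0)).const_sub 7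
    rw [z1] at h
    exact h
  have hN1 : HasDerivAt (fun t : ℝ => NN (z + t • (1 : ℂ))) (2 * z.re) 0 := by
    have h := ((d1.pow 2).const_add 10000).add_const (z.im ^ 2)
    have e1 : (fun t : ℝ => NN (z + t • (1 : ℂ))) = fun t : ℝ =>
        10000 + (z + t • (1 : ℂ)).re ^ 2 + z.im ^ 2 := by
      funext t
      unfold NN
      rw [d1']
    rw [e1]
    refine h.congr_deriv ?_
    rw [z1]; push_cast; norm_num
  have hT1 : HasDerivAt (fun t : ℝ => TT (z + t • (1 : ℂ))) (2 * z.re / NN z) 0 := by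
    have h := hN1.log (by rw [z1]; exact hN0)
    rw [z1] at h
    exact h
  have hB1 : HasDerivAt (fun t : ℝ => dN (z + t • (1 : ℂ)) 1) 2 0 := by
    have h := d1.const_mul 2
    have e1 : (fun t : ℝ => dN (z + t • (1 : ℂ)) 1) = fun t : ℝ => 2 * (z + t • (1 : ℂ)).re := by
      funext t
      unfold dN
      simp
    rw [e1]
    refine h.congr_deriv ?_
    norm_num
  -- second
  have hF2 : HasDerivAt (fun t : ℝ => FF (z + t • I))
      (Real.sin z.im * (3 + Real.cos z.re)) 0 := by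
    have h := (((d2.cos.const_mul 3).const_sub (7 - 3 * Real.cos z.re))).sub
      (d2.cos.const_mul (Real.cos z.re))
    have e1 : (fun t : ℝ => FF (z + t • I)) = fun t : ℝ =>
        7 - 3 * Real.cos z.re - 3 * Real.cos (z + t • I).im -
          Real.cos z.re * Real.cos (z + t • I).im := by
      funext t
      unfold FF
      rw [d2']
    rw [e1]
    refine h.congr_deriv ?_
    rw [z2]; ring
  have hA2 : HasDerivAt (fun t : ℝ => dF (z + t • I) I)
      (Real.cos z.im * (3 + Real.cos z.re)) 0 := by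
    have h := d2.sin.mul_const (3 + Real.cos z.re)
    have e1 : (fun t : ℝ => dF (z + t • I) I) = fun t : ℝ =>
        Real.sin (z + t • I).im * (3 + Real.cos z.re) := by
      funext t
      unfold dF
      rw [d2']
      simp
    rw [e1]
    refine h.congr_deriv ?_
    rw [z2]; ring
  have hL2 : HasDerivAt (fun t : ℝ => LL (z + t • I))
      (-(Real.sin z.im * (3 + Real.cos z.re) / FF z)) 0 := by
    have h := (hF2.log (by rw [z2]; exact hF0)).const_sub 7
    rw [z2] at h
    exact h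
  have hN2 : HasDerivAt (fun t : ℝ => NN (z + t • I)) (2 * z.im) 0 := by
    have h := (d2.pow 2).const_add (10000 + z.re ^ 2)
    have e1 : (fun t : ℝ => NN (z + t • I)) = fun t : ℝ =>
        10000 + z.re ^ 2 + (z + t • I).im ^ 2 := by
      funext t
      unfold NN
      rw [d2']
    rw [e1]
    refine h.congr_deriv ?_
    rw [z2]; push_cast; norm_num
  have hT2 : HasDerivAt (fun t : ℝ => TT (z + t • I)) (2 * z.im / NN z) 0 := by
    have h := hN2.log (by rw [z2]; exact hN0)
    rw [z2] at h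
    exact h
  have hB2 : HasDerivAt (fun t : ℝ => dN (z + t • I) I) 2 0 := by
    have h := d2.const_mul 2
    have e1 : (fun t : ℝ => dN (z + t • I) I) = fun t : ℝ => 2 * (z + t • I).im := by
      funext t
      unfold dN
      simp
    rw [e1]
    refine h.congr_deriv ?_
    norm_num
  have r1 := lp_deriv _ _ _ _ _ _ _ _ _ _ _ _ hA1 hF1 hL1 hB1 hN1 hT1 (by rw [z1]; exact hF0)
    (by rw [z1]; exact hL0) (by rw [z1]; exact hN0) (by rw [z1]; exact hT0)
  have r2 := lp_deriv _ _ _ _ _ _ _ _ _ _ _ _ hA2 hF2 hL2 hB2 hN2 hT2 (by rw [z2]; exact hF0)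
    (by rw [z2]; exact hL0) (by rw [z2]; exact hN0) (by rw [z2]; exact hT0)
  rw [r1.deriv, r2.deriv]
  simp only [z1, z2]
  have a1 : dF z 1 = Real.sin z.re * (3 + Real.cos z.im) := by simp [dF]
  have a2 : dF z I = Real.sin z.im * (3 + Real.cos z.re) := by simp [dF]
  have b1 : dN z 1 = 2 * z.re := by simp [dN]
  have b2 : dN z I = 2 * z.im := by simp [dN]
  rw [a1, a2, b1, b2]
  have hNr : z.re ^ 2 = NN z - 10000 - z.im ^ 2 := by unfold NN; ring
  have key1 : ∀ a a' F L : ℝ, F ≠ 0 → L ≠ 0 →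
      -((a' * (2 * F) - a * (2 * a)) / (2 * F) ^ 2) +
        (a' * (F * L) - a * (a * L + F * (-(a / F)))) / (F * L) ^ 2 =
      -(a' / (2 * F)) + a ^ 2 / (2 * F ^ 2) + a' / (F * L) - a ^ 2 / (F ^ 2 * L) +
        a ^ 2 / (F ^ 2 * L ^ 2) := by
    intro a a' F L hF hL
    field_simp
    ring
  have key2 : ∀ x N T : ℝ, N ≠ 0 → T ≠ 0 →
      (2 * (2 * N) - 2 * x * (2 * (2 * x))) / (2 * N) ^ 2 +
          (2 * (N * T) - 2 * x * (2 * x * T + N * (2 * x / N))) / (N * T) ^ 2 =
      1 / N - 2 * x ^ 2 / N ^ 2 + 2 / (N * T) - 4 * x ^ 2 / (N ^ 2 * T) -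
        4 * x ^ 2 / (N ^ 2 * T ^ 2) := by
    intro x N T hN hT
    field_simp
    ring
  rw [key1 _ _ _ _ hF0 hL0, key1 _ _ _ _ hF0 hL0, key2 _ _ _ hN0 hT0, key2 _ _ _ hN0 hT0]
  unfold QQ GG LF LS
  rw [hNr]
  field_simp
  ring

end Pool.Agent.Helper290.Liou
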