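import Pool.Agent.Helper290.Liou.Defs
import Pool.Agent.Helper290.Liou.P_F_facts
import Pool.Agent.Helper290.Liou.P_L_facts
import Pool.Agent.Helper290.Liou.P_N_facts
import Pool.Agent.Helper290.Liou.P_Q_facts
import Pool.Agent.Helper290.Liou.P_LS_facts
import Pool.Agent.Helper290.Liou.P_lap_phi
import Pool.Agent.Helper290.Liou.P_exp_phi

set_option autoImplicit false

open Set Filter Topology MeasureTheory Complex
open scoped ENNReal ContDiff

namespace Pool.Agent.Helper290.Liou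



theorem curv_bounds (z : ℂ) (hz : z ∈ UU) :
    SS z ^ 2 ≤ -curv phi z ∧ -curv phi z ≤ 150 * SS z ^ 2 := by
  obtain ⟨hF0, hF12, hG16, hFG⟩ := F_facts z
  obtain ⟨hF, hL, hFL2, hFL4⟩ := L_facts z hz
  obtain ⟨_, _, _, hS, _, _, _⟩ := N_facts z
  obtain ⟨hQ1, hQ2⟩ := Q_facts z hz
  have hW := abs_le.1 (LS_facts z)
  have hlap := lap_phi z hz
  have hexp := (exp_phi z hz).2.1
  have hcurv : -curv phi z = SS z ^ 2 * (FF z * LL z ^ 2 * (QQ z * (1 / 2 - 1 / LL z) - LS z) + GG z / FF z) := by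
    unfold curv
    rw [hexp, hlap, neg_neg]
    have hL0 : LL z ≠ 0 := by linarith
    have hF0 : FF z ≠ 0 := hF.ne'
    field_simp
    ring
  rw [hcurv]
  generalize FF z = F at *
  generalize LL z = L at *
  generalize SS z = S at *
  generalize QQ z = Q at *
  generalize GG z = G at *
  generalize LS z = W at *
  have hS2 : 0 ≤ S ^ 2 := sq_nonneg S
  have hL1 : 1 / L ≤ 1 / 4 := by
    apply one_div_le_one_div_of_le (by norm_num) hL
  have hL2 : 0 ≤ 1 / L := by positivity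
  have hGF : 1 - F / 4 ≤ G / F := by
    rw [le_div_iff₀ hF]
    nlinarith
  have hGF2 : G / F ≤ 16 := by
    rw [div_le_iff₀ hF]
    linarith
  have hlow : 1 / 32 - 1 / 1000 ≤ Q * (1 / 2 - 1 / L) - W := by nlinarith
  have hup : Q * (1 / 2 - 1 / L) - W ≤ 1 / 2 + 1 / 1000 := by nlinarith
  have hLsq : 16 ≤ L ^ 2 := by nlinarith
  have hFL : 16 * F ≤ F * L ^ 2 := by
    have := mul_le_mul_of_nonneg_left hLsq hF0
    linarith
  have hFLn : 0 ≤ F * L ^ 2 := by positivity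
  have h1 : F * L ^ 2 * (1 / 32 - 1 / 1000) ≤ F * L ^ 2 * (Q * (1 / 2 - 1 / L) - W) :=
    mul_le_mul_of_nonneg_left hlow hFLn
  have h2 : F * L ^ 2 * (Q * (1 / 2 - 1 / L) - W) ≤ F * L ^ 2 * (1 / 2 + 1 / 1000) :=
    mul_le_mul_of_nonneg_left hup hFLn
  have hB1 : 1 ≤ F * L ^ 2 * (Q * (1 / 2 - 1 / L) - W) + G / F := by linarith
  have hB2 : F * L ^ 2 * (Q * (1 / 2 - 1 / L) - W) + G / F ≤ 150 := by linarith
  constructor
  · nlinarith
  · nlinarith

end Pool.Agent.Helper290.Liou
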