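import Pool.Agent.Helper290.Liou.Defs

set_option autoImplicit false

open Set Filter Topology MeasureTheory Complex
open scoped ENNReal ContDiff

namespace Pool.Agent.Helper290.Liou



theorem geoField_smooth (U : Set ℂ) (φ : ℂ → ℝ) (hU : IsOpen U) (hφ : ContDiffOn ℝ ∞ φ U) :
    ContDiffOn ℝ ∞ (geoField φ) (U ×ˢ univ) := by
  have hfst : ContDiffOn ℝ ∞ (fun p : ℂ × ℝ => p.1) (U ×ˢ (univ : Set ℝ)) := contDiffOn_fst
  have hmaps : MapsTo (fun p : ℂ × ℝ => p.1) (U ×ˢ (univ : Set ℝ)) U := fun p hp => hp.1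
  have h1 : ContDiffOn ℝ ∞ (fun p : ℂ × ℝ => φ p.1) (U ×ˢ (univ : Set ℝ)) :=
    hφ.comp hfst hmaps
  have h2 : ContDiffOn ℝ ∞ (fun p : ℂ × ℝ => Real.exp (-φ p.1)) (U ×ˢ (univ : Set ℝ)) :=
    h1.neg.exp
  have h3 : ContDiffOn ℝ ∞ (fun p : ℂ × ℝ => ((Real.exp (-φ p.1) : ℝ) : ℂ))
      (U ×ˢ (univ : Set ℝ)) := Complex.ofRealCLM.contDiff.comp_contDiffOn h2
  have h4 : ContDiff ℝ ∞ (fun p : ℂ × ℝ => Complex.exp ((p.2 : ℂ) * I)) :=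
    ((Complex.ofRealCLM.contDiff.comp contDiff_snd).mul contDiff_const).cexp
  have h5 : ContDiffOn ℝ ∞ (uvec φ) (U ×ˢ (univ : Set ℝ)) := h3.mul h4.contDiffOn
  have h6 : ContDiffOn ℝ ∞ (fderiv ℝ φ) U := hφ.fderiv_of_isOpen hU (by simp)
  have h7 : ContDiffOn ℝ ∞ (fun p : ℂ × ℝ => fderiv ℝ φ p.1) (U ×ˢ (univ : Set ℝ)) :=
    h6.comp hfst hmaps
  have h8 : ContDiffOn ℝ ∞ (fun p : ℂ × ℝ => fderiv ℝ φ p.1 (I * uvec φ p))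
      (U ×ˢ (univ : Set ℝ)) := h7.clm_apply (contDiffOn_const.mul h5)
  exact h5.prodMk h8

end Pool.Agent.Helper290.Liou
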