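import Pool.Agent.Helper290.Liou.Defs
import Pool.Agent.Helper290.Liou.P_geoField_smooth

set_option autoImplicit false

open Set Filter Topology MeasureTheory Complex
open scoped ENNReal ContDiff

namespace Pool.Agent.Helper290.Liou



/-- cut off: a compactly supported field `X = χ • geoField`, `0 ≤ χ ≤ 1`, `χ = 1` near `K`. -/
theorem cut_field (U : Set ℂ) (φ : ℂ → ℝ) (hU : IsOpen U) (hφ : ContDiffOn ℝ ∞ φ U)
    (K : Set (ℂ × ℝ)) (hK : IsCompact K) (hKU : K ⊆ U ×ˢ univ) :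
    ∃ (χ : ℂ × ℝ → ℝ) (X : ℂ × ℝ → ℂ × ℝ), ContDiff ℝ ∞ X ∧ HasCompactSupport X ∧
      (∀ q, 0 ≤ χ q ∧ χ q ≤ 1) ∧ (∀ q, X q = χ q • geoField φ q) ∧ (∀ q ∈ K, χ q = 1) ∧
      (∃ K' : Set (ℂ × ℝ), IsCompact K' ∧ K' ⊆ U ×ˢ univ ∧ ∀ q, q ∉ K' → χ q = 0) := by
  have hV : IsOpen (U ×ˢ (univ : Set ℝ)) := hU.prod isOpen_univ
  obtain ⟨K', hK', hKK', hK'U⟩ := exists_compact_between hK hV hKU
  obtain ⟨f, hf1, hf0, hf01⟩ := exists_contMDiffMap_one_nhds_of_subset_interior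
    (n := (⊤ : ℕ∞)) (modelWithCornersSelf ℝ (ℂ × ℝ)) hK.isClosed hKK'
  have hfd : ContDiff ℝ ∞ (f : ℂ × ℝ → ℝ) := contMDiff_iff_contDiff.1 f.contMDiff
  have hg := geoField_smooth U φ hU hφ
  refine ⟨f, fun q => f q • geoField φ q, ?_, ?_, fun q => hf01 q, fun q => rfl, ?_, K', hK', hK'U,
    fun q hq => hf0 q hq⟩
  · rw [contDiff_iff_contDiffAt]
    intro q
    by_cases hq : q ∈ U ×ˢ (univ : Set ℝ)
    · exact hfd.contDiffAt.smul (hg.contDiffAt (hV.mem_nhds hq))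
    · have hq' : q ∈ K'ᶜ := fun h => hq (hK'U h)
      have hc : ContDiffAt ℝ ∞ (fun _ : ℂ × ℝ => (0 : ℂ × ℝ)) q := contDiffAt_const
      refine hc.congr_of_eventuallyEq ?_
      filter_upwards [hK'.isClosed.isOpen_compl.mem_nhds hq'] with x hx
      rw [hf0 x hx, zero_smul]
  · exact HasCompactSupport.intro hK' (fun q hq => by simp only [hf0 q hq, zero_smul])
  · intro q hq
    exact hf1.self_of_nhdsSet q hq

end Pool.Agent.Helper290.Liou
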