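import Pool.Agent.Helper290.Liou.Defs

set_option autoImplicit false

open Set Filter Topology MeasureTheory Complex
open scoped ENNReal ContDiff

namespace Pool.Agent.Helper290.Liou



theorem dgeo (U : Set ℂ) (φ : ℂ → ℝ) (hU : IsOpen U) (hφ : ContDiffOn ℝ ∞ φ U)
    (q : ℂ × ℝ) (hq : q.1 ∈ U) (ζ : ℂ) (ϑ : ℝ) :
    fderiv ℝ (geoField φ) q (ζ, ϑ) =
      ((-((fderiv ℝ φ q.1 ζ : ℝ) : ℂ) + I * (ϑ : ℂ)) * uvec φ q,
        fderiv ℝ (fderiv ℝ φ) q.1 ζ (I * uvec φ q)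
          - fderiv ℝ φ q.1 ζ * fderiv ℝ φ q.1 (I * uvec φ q)
          - ϑ * fderiv ℝ φ q.1 (uvec φ q)) := by
  have hat : ContDiffAt ℝ ∞ φ q.1 := hφ.contDiffAt (hU.mem_nhds hq)
  have hd : HasFDerivAt φ (fderiv ℝ φ q.1) q.1 :=
    (hat.differentiableAt (by simp)).hasFDerivAt
  have hd2 : HasFDerivAt (fderiv ℝ φ) (fderiv ℝ (fderiv ℝ φ) q.1) q.1 :=
    ((hat.fderiv_right (m := 1) (by norm_cast)).differentiableAt (by simp)).hasFDerivAt
  have hfst : HasFDerivAt (fun p : ℂ × ℝ => p.1) (ContinuousLinearMap.fst ℝ ℂ ℝ) q := hasFDerivAt_fst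
  have hsnd : HasFDerivAt (fun p : ℂ × ℝ => p.2) (ContinuousLinearMap.snd ℝ ℂ ℝ) q := hasFDerivAt_snd
  have h1 : HasFDerivAt (fun p : ℂ × ℝ => φ p.1)
      ((fderiv ℝ φ q.1).comp (ContinuousLinearMap.fst ℝ ℂ ℝ)) q := hd.comp q hfst
  have h2 : HasFDerivAt (fun p : ℂ × ℝ => Real.exp (-φ p.1)) _ q := h1.neg.exp
  have h3 : HasFDerivAt (fun p : ℂ × ℝ => ((Real.exp (-φ p.1) : ℝ) : ℂ)) _ q :=
    Complex.ofRealCLM.hasFDerivAt.comp q h2
  have h4 : HasFDerivAt (fun p : ℂ × ℝ => ((p.2 : ℝ) : ℂ)) _ q :=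
    Complex.ofRealCLM.hasFDerivAt.comp q hsnd
  have h5 : HasFDerivAt (fun p : ℂ × ℝ => Complex.exp (((p.2 : ℝ) : ℂ) * I)) _ q :=
    (h4.mul_const I).cexp
  have h6 : HasFDerivAt (uvec φ) _ q := h3.mul h5
  have hu : ∃ u' : ℂ × ℝ →L[ℝ] ℂ, HasFDerivAt (uvec φ) u' q ∧
      u' (ζ, ϑ) = (-((fderiv ℝ φ q.1 ζ : ℝ) : ℂ) + I * (ϑ : ℂ)) * uvec φ q := by
    refine ⟨_, h6, ?_⟩
    simp only [ContinuousLinearMap.add_apply, ContinuousLinearMap.smul_apply,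
      ContinuousLinearMap.comp_apply, ContinuousLinearMap.neg_apply, ContinuousLinearMap.coe_fst',
      ContinuousLinearMap.coe_snd', Complex.ofRealCLM_apply, smul_eq_mul, uvec, Pi.neg_apply]
    push_cast
    ring
  obtain ⟨u', hu', hval⟩ := hu
  have h7 : HasFDerivAt (fun p : ℂ × ℝ => I * uvec φ p) (I • u') q := hu'.const_mul I
  have h8 : HasFDerivAt (fun p : ℂ × ℝ => fderiv ℝ φ p.1)
      ((fderiv ℝ (fderiv ℝ φ) q.1).comp (ContinuousLinearMap.fst ℝ ℂ ℝ)) q := hd2.comp q hfst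
  have h9 := h8.clm_apply h7
  have h10 : HasFDerivAt (geoField φ) _ q := hu'.prodMk h9
  rw [h10.fderiv]
  have e1 : I * ((-((fderiv ℝ φ q.1 ζ : ℝ) : ℂ) + I * (ϑ : ℂ)) * uvec φ q) =
      (-(fderiv ℝ φ q.1 ζ)) • (I * uvec φ q) + (-ϑ) • uvec φ q := by
    rw [Complex.real_smul, Complex.real_smul]
    push_cast
    linear_combination (ϑ : ℂ) * uvec φ q * Complex.I_mul_I
  ext1
  · simpa using hval
  · simp only [ContinuousLinearMap.prod_apply, ContinuousLinearMap.add_apply,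
      ContinuousLinearMap.comp_apply, ContinuousLinearMap.smul_apply, ContinuousLinearMap.flip_apply,
      ContinuousLinearMap.coe_fst', smul_eq_mul]
    rw [hval, e1, map_add, map_smul, map_smul, smul_eq_mul, smul_eq_mul]
    ring

end Pool.Agent.Helper290.Liou
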