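import Pool.Agent.Helper290.Liou.Defs
import Pool.Agent.GR.Flow

set_option autoImplicit false

open Set Filter Topology MeasureTheory Complex
open scoped ENNReal ContDiff

namespace Pool.Agent.Helper290.Liou

/-- flow of a smooth compactly supported vector field (known, in the team library) -/
theorem flow_cpt (X : ℂ × ℝ → ℂ × ℝ) (hX : ContDiff ℝ ∞ X) (hc : HasCompactSupport X) :
    ∃ G : ℝ → ℂ × ℝ → ℂ × ℝ, ContDiff ℝ ∞ (fun q : ℝ × (ℂ × ℝ) => G q.1 q.2) ∧
      (∀ p, G 0 p = p) ∧ (∀ s t p, G (s + t) p = G s (G t p)) ∧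
      (∀ p t, HasDerivAt (fun t => G t p) (X (G t p)) t) := by
  obtain ⟨K, hK⟩ := hX.lipschitzWith_of_hasCompactSupport hc (by simp)
  obtain ⟨M, hM⟩ := hc.exists_bound_of_continuous hX.continuous
  have hM' : ∀ x, ‖X x‖ ≤ (Real.toNNReal M : NNReal) := fun x => (hM x).trans (Real.le_coe_toNNReal M)
  choose g h0 h1 using fun p => Pool.Agent.GR.Flow.exists_solution hK hM' p
  have hfl : Pool.Agent.GR.Flow.IsFlowOf X (fun t p => g p t) := ⟨h0, h1⟩
  refine ⟨fun t p => g p t, ?_, h0, fun s t p => hfl.add hK s t p, h1⟩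
  rw [contDiff_infty]
  intro m
  have key : ∀ m : ℕ, m ≠ 0 → ContDiff ℝ m (fun q : ℝ × (ℂ × ℝ) => g q.2 q.1) := by
    intro m hm
    exact Pool.Agent.GR.Flow.contDiff_flow (X := ⟨X, hX.continuous⟩) hm
      (hX.of_le (by exact_mod_cast le_top)) hK hfl
  exact (key (m + 1) (by omega)).of_le (by exact_mod_cast Nat.le_succ m)

end Pool.Agent.Helper290.Liou
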