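import Pool.Agent.Helper290.Liou.Defs
import Pool.Agent.Helper290.Liou.P_flow_cpt
import Pool.Agent.Helper290.Liou.P_geoField_smooth
import Pool.Agent.Helper290.Liou.P_cut_field

set_option autoImplicit false

open Set Filter Topology MeasureTheory Complex
open scoped ENNReal ContDiff

namespace Pool.Agent.Helper290.Liou



theorem loc_flow_norm_uvec (φ : ℂ → ℝ) (p : ℂ × ℝ) : ‖uvec φ p‖ = Real.exp (-φ p.1) := by
  unfold uvec
  rw [norm_mul, Complex.norm_exp_ofReal_mul_I, mul_one, Complex.norm_real, Real.norm_eq_abs,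
    abs_of_pos (Real.exp_pos _)]

theorem loc_flow_P (U : Set ℂ) (φ P : ℂ → ℝ) (B : ℝ) (h : Good U φ P B) (q : ℂ × ℝ)
    (hq : q.1 ∈ U) (r : ℝ) (hr0 : 0 ≤ r) (hr1 : r ≤ 1) :
    |fderiv ℝ P q.1 (r • uvec φ q)| ≤ B := by
  have h1 := h.Pb q.1 hq (r • uvec φ q)
  refine h1.trans ?_
  rw [norm_smul, loc_flow_norm_uvec, Real.norm_eq_abs, abs_of_nonneg hr0]
  have h2 : Real.exp (φ q.1) * (r * Real.exp (-φ q.1)) = r := by
    rw [Real.exp_neg]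
    field_simp
  rw [h2]
  calc B * r ≤ B * 1 := mul_le_mul_of_nonneg_left hr1 h.Bnn
    _ = B := mul_one B

theorem loc_flow_bnd (U : Set ℂ) (φ P : ℂ → ℝ) (B : ℝ) (h : Good U φ P B) (τ : ℝ)
    (γ : ℝ → ℂ × ℝ) (r : ℝ → ℝ) (hr : ∀ t ∈ Ioo (-τ) τ, 0 ≤ r t ∧ r t ≤ 1)
    (hU : ∀ t ∈ Ioo (-τ) τ, (γ t).1 ∈ U)
    (hd : ∀ t ∈ Ioo (-τ) τ, HasDerivAt γ (r t • geoField φ (γ t)) t)
    (c' M : ℝ) (hM : ∀ q : ℂ × ℝ, q.1 ∈ U → P q.1 ≤ c' →
      |fderiv ℝ φ q.1 (I * uvec φ q)| ≤ M) (hc' : P (γ 0).1 + B * τ ≤ c') :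
    ∀ t ∈ Ioo (-τ) τ, P (γ t).1 ≤ P (γ 0).1 + B * |t| ∧ |(γ t).2| ≤ |(γ 0).2| + M * |t| := by
  have hP : ∀ t ∈ Ioo (-τ) τ, P (γ t).1 ≤ P (γ 0).1 + B * |t| := by
    intro t ht
    have h0 : (0 : ℝ) ∈ Ioo (-τ) τ := by
      constructor
      · linarith [ht.1, ht.2]
      · linarith [ht.1, ht.2]
    have hder : ∀ s ∈ Ioo (-τ) τ, HasDerivWithinAt (fun s => P (γ s).1)
        (fderiv ℝ P (γ s).1 (r s • uvec φ (γ s))) (Ioo (-τ) τ) s := by
      intro s hs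
      have h1 : HasDerivAt (fun s => (γ s).1) (r s • uvec φ (γ s)) s :=
        (ContinuousLinearMap.fst ℝ ℂ ℝ).hasFDerivAt.comp_hasDerivAt s (hd s hs)
      exact ((h.Pd _ (hU s hs)).hasFDerivAt.comp_hasDerivAt s h1).hasDerivWithinAt
    have hb := (convex_Ioo (-τ) τ).norm_image_sub_le_of_norm_hasDerivWithin_le hder
      (fun s hs => by
        rw [Real.norm_eq_abs]
        exact loc_flow_P U φ P B h (γ s) (hU s hs) (r s) (hr s hs).1 (hr s hs).2) h0 ht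
    rw [Real.norm_eq_abs, Real.norm_eq_abs, sub_zero] at hb
    have := (abs_le.1 hb).2
    linarith
  intro t ht
  refine ⟨hP t ht, ?_⟩
  have h0 : (0 : ℝ) ∈ Ioo (-τ) τ := by
    constructor
    · linarith [ht.1, ht.2]
    · linarith [ht.1, ht.2]
  have hder : ∀ s ∈ Ioo (-τ) τ, HasDerivWithinAt (fun s => (γ s).2)
      (r s • fderiv ℝ φ (γ s).1 (I * uvec φ (γ s))) (Ioo (-τ) τ) s := by
    intro s hs
    have h1 : HasDerivAt (fun s => (γ s).2) (r s • fderiv ℝ φ (γ s).1 (I * uvec φ (γ s))) s :=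
      (ContinuousLinearMap.snd ℝ ℂ ℝ).hasFDerivAt.comp_hasDerivAt s (hd s hs)
    exact h1.hasDerivWithinAt
  have hb := (convex_Ioo (-τ) τ).norm_image_sub_le_of_norm_hasDerivWithin_le hder
    (fun s hs => by
      have hs' : |s| < τ := abs_lt.2 hs
      have h1 : P (γ s).1 ≤ c' := by
        have h2 := hP s hs
        have h3 : B * |s| ≤ B * τ := mul_le_mul_of_nonneg_left hs'.le h.Bnn
        linarith
      have h4 := hM (γ s) (hU s hs) h1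
      show ‖r s • fderiv ℝ φ (γ s).1 (I * uvec φ (γ s))‖ ≤ M
      rw [norm_smul, Real.norm_eq_abs, Real.norm_eq_abs, abs_of_nonneg (hr s hs).1]
      calc r s * |fderiv ℝ φ (γ s).1 (I * uvec φ (γ s))|
          ≤ 1 * |fderiv ℝ φ (γ s).1 (I * uvec φ (γ s))| :=
            mul_le_mul_of_nonneg_right (hr s hs).2 (abs_nonneg _)
        _ ≤ M := by rw [one_mul]; exact h4) h0 ht
  rw [Real.norm_eq_abs, Real.norm_eq_abs, sub_zero] at hb
  have h5 : |(γ t).2| ≤ |(γ 0).2| + |(γ t).2 - (γ 0).2| := by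
    have := abs_add_le (γ 0).2 ((γ t).2 - (γ 0).2)
    rwa [add_sub_cancel] at this
  linarith

theorem loc_flow_M (U : Set ℂ) (φ P : ℂ → ℝ) (B : ℝ) (h : Good U φ P B) (c' : ℝ) :
    ∃ M : ℝ, 0 ≤ M ∧ ∀ q : ℂ × ℝ, q.1 ∈ U → P q.1 ≤ c' →
      |fderiv ℝ φ q.1 (I * uvec φ q)| ≤ M := by
  have h1 : ContinuousOn (fun z => fderiv ℝ φ z) U :=
    h.sm.continuousOn_fderiv_of_isOpen h.op (by simp)
  have h2 : ContinuousOn (fun z => Real.exp (-φ z) * ‖fderiv ℝ φ z‖) {z | z ∈ U ∧ P z ≤ c'} :=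
    ((Real.continuous_exp.comp_continuousOn h.sm.continuousOn.neg).mul h1.norm).mono
      fun z hz => hz.1
  obtain ⟨C, hC⟩ := (h.Pc c').exists_bound_of_continuousOn h2
  refine ⟨|C|, abs_nonneg _, ?_⟩
  intro q hq1 hq2
  have h3 := hC q.1 ⟨hq1, hq2⟩
  rw [Real.norm_eq_abs, abs_of_nonneg (by positivity)] at h3
  have h4 : ‖fderiv ℝ φ q.1 (I * uvec φ q)‖ ≤ ‖fderiv ℝ φ q.1‖ * ‖I * uvec φ q‖ :=
    (fderiv ℝ φ q.1).le_opNorm _
  rw [norm_mul, Complex.norm_I, one_mul, loc_flow_norm_uvec, Real.norm_eq_abs] at h4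
  rw [mul_comm] at h3
  exact (h4.trans h3).trans (le_abs_self C)

theorem loc_flow (U : Set ℂ) (φ P : ℂ → ℝ) (B : ℝ) (h : Good U φ P B) (c R T : ℝ) :
    ∃ G : ℝ → ℂ × ℝ → ℂ × ℝ, ContDiff ℝ ∞ (fun q : ℝ × (ℂ × ℝ) => G q.1 q.2) ∧
      ∀ p : ℂ × ℝ, p.1 ∈ U → P p.1 ≤ c → |p.2| ≤ R → G 0 p = p ∧
        (∀ t, |t| < T → (G t p).1 ∈ U ∧ HasDerivAt (fun s => G s p) (geoField φ (G t p)) t) ∧
        ∀ (γ : ℝ → ℂ × ℝ) (T' : ℝ), T' ≤ T → γ 0 = p →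
          (∀ t, |t| < T' → (γ t).1 ∈ U ∧ HasDerivAt γ (geoField φ (γ t)) t) →
          ∀ t, |t| < T' → γ t = G t p := by
  obtain ⟨M, hM0, hM⟩ := loc_flow_M U φ P B h (c + B * |T|)
  set K : Set (ℂ × ℝ) := {z | z ∈ U ∧ P z ≤ c + B * |T|} ×ˢ Icc (-(R + M * |T|)) (R + M * |T|)
    with hKdef
  have hK : IsCompact K := (h.Pc _).prod isCompact_Icc
  have hKU : K ⊆ U ×ˢ univ := fun q hq => ⟨hq.1.1, mem_univ _⟩
  obtain ⟨χ, X, hX, hXc, hχ, hXχ, hχK, K', hK', hK'U, hχK'⟩ := cut_field U φ h.op h.sm K hK hKU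
  obtain ⟨G, hG, hG0, hGadd, hGd⟩ := flow_cpt X hX hXc
  obtain ⟨Lip, hLip⟩ := hX.lipschitzWith_of_hasCompactSupport hXc (by simp)
  -- zeros of the field are fixed
  have hfix : ∀ q, X q = 0 → ∀ s, G s q = q := by
    intro q hq s
    have hz : (fun s => G s q) = fun _ => q := by
      refine ODE_solution_unique_univ (v := fun _ => X) (s := fun _ => univ) (K := Lip) (t₀ := 0)
        (fun t => hLip.lipschitzOnWith) (fun t => ⟨hGd q t, mem_univ _⟩) (fun t => ⟨?_, mem_univ _⟩)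
        (hG0 q)
      show HasDerivAt (fun _ : ℝ => q) (X q) t
      rw [hq]
      exact hasDerivAt_const t q
    exact congrFun hz s
  have hmemU : ∀ p : ℂ × ℝ, p.1 ∈ U → ∀ t, (G t p).1 ∈ U := by
    intro p hp t
    by_cases hpK : p ∈ K'
    · by_cases hq : G t p ∈ K'
      · exact (hK'U hq).1
      · exfalso
        have h1 : X (G t p) = 0 := by rw [hXχ, hχK' _ hq, zero_smul]
        have h2 := hfix _ h1 (-t)
        rw [← hGadd, neg_add_cancel, hG0] at h2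
        rw [← h2] at hq
        exact hq hpK
    · have h1 : X p = 0 := by rw [hXχ, hχK' _ hpK, zero_smul]
      rw [hfix _ h1]
      exact hp
  have hinK : ∀ (γ : ℝ → ℂ × ℝ) (r : ℝ → ℝ) (τ : ℝ), τ ≤ T →
      (∀ t ∈ Ioo (-τ) τ, 0 ≤ r t ∧ r t ≤ 1) → (∀ t ∈ Ioo (-τ) τ, (γ t).1 ∈ U) →
      (∀ t ∈ Ioo (-τ) τ, HasDerivAt γ (r t • geoField φ (γ t)) t) →
      P (γ 0).1 ≤ c → |(γ 0).2| ≤ R → ∀ t ∈ Ioo (-τ) τ, γ t ∈ K := by
    intro γ r τ hτ hr hγU hγd hγP hγR t ht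
    have hτ' : τ ≤ |T| := hτ.trans (le_abs_self T)
    have ht' : |t| < τ := abs_lt.2 ht
    have hb := loc_flow_bnd U φ P B h τ γ r hr hγU hγd (c + B * |T|) M hM (by
      have := mul_le_mul_of_nonneg_left hτ' h.Bnn
      linarith) t ht
    have h1 : B * |t| ≤ B * |T| := mul_le_mul_of_nonneg_left (ht'.le.trans hτ') h.Bnn
    have h2 : M * |t| ≤ M * |T| := mul_le_mul_of_nonneg_left (ht'.le.trans hτ') hM0
    refine ⟨⟨hγU t ht, by linarith [hb.1]⟩, ?_⟩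
    rw [mem_Icc, ← abs_le]
    linarith [hb.2]
  refine ⟨G, hG, ?_⟩
  intro p hp hpP hpR
  have hKG : ∀ t ∈ Ioo (-T) T, G t p ∈ K := by
    refine hinK (fun t => G t p) (fun t => χ (G t p)) T le_rfl (fun t _ => hχ _)
      (fun t _ => hmemU p hp t) (fun t _ => ?_) ?_ ?_
    · rw [← hXχ]
      exact hGd p t
    · show P (G 0 p).1 ≤ c
      rw [hG0]
      exact hpP
    · show |(G 0 p).2| ≤ R
      rw [hG0]
      exact hpR
  refine ⟨hG0 p, ?_, ?_⟩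
  · intro t ht
    refine ⟨hmemU p hp t, ?_⟩
    have h1 := hGd p t
    rw [hXχ, hχK _ (hKG t (abs_lt.1 ht)), one_smul] at h1
    exact h1
  · intro γ T' hT' hγ0 hγ t ht
    have hKγ : ∀ t ∈ Ioo (-T') T', γ t ∈ K := by
      refine hinK γ (fun _ => 1) T' hT' (fun t _ => ⟨zero_le_one, le_rfl⟩)
        (fun t ht => (hγ t (abs_lt.2 ht)).1) (fun t ht => ?_) ?_ ?_
      · rw [one_smul]
        exact (hγ t (abs_lt.2 ht)).2
      · rw [hγ0]
        exact hpP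
      · rw [hγ0]
        exact hpR
    have h0 : (0 : ℝ) ∈ Ioo (-T') T' := by
      have := abs_nonneg t
      constructor <;> linarith
    have heq := ODE_solution_unique_of_mem_Ioo (v := fun _ => X) (s := fun _ => univ) (K := Lip)
      (t₀ := 0) (f := γ) (g := fun t => G t p) (a := -T') (b := T')
      (fun t _ => hLip.lipschitzOnWith) h0 (fun t ht => ⟨?_, mem_univ _⟩)
      (fun t _ => ⟨hGd p t, mem_univ _⟩) (by rw [hγ0, hG0])
    · exact heq (abs_lt.1 ht)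
    · show HasDerivAt γ (X (γ t)) t
      rw [hXχ, hχK _ (hKγ t ht), one_smul]
      exact (hγ t (abs_lt.2 ht)).2

end Pool.Agent.Helper290.Liou
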