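import Pool.Agent.Helper290.Liou.Defs
import Pool.Agent.Helper290.Liou.P_geoField_smooth
import Pool.Agent.Helper290.Liou.P_loc_flow

set_option autoImplicit false

open Set Filter Topology MeasureTheory Complex
open scoped ENNReal ContDiff

namespace Pool.Agent.Helper290.Liou



theorem ef_real_lin (L : ℂ →L[ℝ] ℝ) (v : ℂ) :
    (-((L v : ℝ) : ℂ) + I * ((L (I * v) : ℝ) : ℂ)) =
      -((((L 1 : ℝ) : ℂ)) - I * ((L I : ℝ) : ℂ)) * v := by
  have h1 : L v = v.re * L 1 + v.im * L I := by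
    have : v = v.re • (1 : ℂ) + v.im • I := by
      apply Complex.ext <;> simp
    conv_lhs => rw [this]
    rw [map_add, map_smul, map_smul, smul_eq_mul, smul_eq_mul]
  have h2 : L (I * v) = -v.im * L 1 + v.re * L I := by
    have : I * v = (-v.im) • (1 : ℂ) + v.re • I := by
      apply Complex.ext <;> simp
    conv_lhs => rw [this]
    rw [map_add, map_smul, map_smul, smul_eq_mul, smul_eq_mul]
  rw [h1, h2]
  apply Complex.ext
  · simp
    ring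
  · simp
    ring

theorem ef_geo (φ : ℂ → ℝ) (γ : ℝ → ℂ × ℝ) (t : ℝ) (hd : DifferentiableAt ℝ φ (γ t).1)
    (hγ : HasDerivAt γ (geoField φ (γ t)) t) :
    HasDerivAt (fun s => uvec φ (γ s))
    (-(((fderiv ℝ φ (γ t).1 1 : ℝ) : ℂ) - I * ((fderiv ℝ φ (γ t).1 I : ℝ) : ℂ))
      * uvec φ (γ t) ^ 2) t := by
  have h1 : HasDerivAt (fun s => (γ s).1) (uvec φ (γ t)) t := hγ.fst
  have h2 : HasDerivAt (fun s => (γ s).2) (fderiv ℝ φ (γ t).1 (I * uvec φ (γ t))) t := hγ.snd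
  have h3 : HasDerivAt (fun s => φ (γ s).1) (fderiv ℝ φ (γ t).1 (uvec φ (γ t))) t :=
    hd.hasFDerivAt.comp_hasDerivAt t h1
  have h4 : HasDerivAt (fun s => ((Real.exp (-φ (γ s).1) : ℝ) : ℂ))
      ((Real.exp (-φ (γ t).1) * (-fderiv ℝ φ (γ t).1 (uvec φ (γ t))) : ℝ) : ℂ) t :=
    (h3.neg.exp).ofReal_comp
  have h5 : HasDerivAt (fun s => Complex.exp (((γ s).2 : ℂ) * I))
      (Complex.exp (((γ t).2 : ℂ) * I) *
        (((fderiv ℝ φ (γ t).1 (I * uvec φ (γ t)) : ℝ) : ℂ) * I)) t :=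
    (h2.ofReal_comp.mul_const I).cexp
  have h6 := h4.mul h5
  have h7 := ef_real_lin (fderiv ℝ φ (γ t).1) (uvec φ (γ t))
  refine h6.congr_deriv ?_
  have h8 : -(((fderiv ℝ φ (γ t).1 1 : ℝ) : ℂ) - I * ((fderiv ℝ φ (γ t).1 I : ℝ) : ℂ))
      * uvec φ (γ t) ^ 2 = (-((fderiv ℝ φ (γ t).1 (uvec φ (γ t)) : ℝ) : ℂ) +
        I * ((fderiv ℝ φ (γ t).1 (I * uvec φ (γ t)) : ℝ) : ℂ)) * uvec φ (γ t) := by
    rw [h7]
    ring
  rw [h8]
  have h9 : uvec φ (γ t) =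
    ((Real.exp (-φ (γ t).1) : ℝ) : ℂ) * Complex.exp (((γ t).2 : ℂ) * I) := rfl
  generalize fderiv ℝ φ (γ t).1 (uvec φ (γ t)) = A at *
  generalize fderiv ℝ φ (γ t).1 (I * uvec φ (γ t)) = B' at *
  rw [h9]
  push_cast
  ring

theorem exists_flow (U : Set ℂ) (φ P : ℂ → ℝ) (B : ℝ) (h : Good U φ P B) :
    ∃ Φ, IsGeodesicFlow U φ Φ := by
  choose G hGs hG using fun n : ℕ => loc_flow U φ P B h n n n
  have hcmp0 : ∀ (m n : ℕ), m ≤ n → ∀ p : ℂ × ℝ, p.1 ∈ U → P p.1 ≤ m → |p.2| ≤ m →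
      ∀ t : ℝ, |t| < m → G m t p = G n t p := by
    intro m n hmn p hp h1 h2 t ht
    have hmn' : (m : ℝ) ≤ n := by exact_mod_cast hmn
    obtain ⟨hm0, hm1, -⟩ := hG m p hp h1 h2
    obtain ⟨-, -, hn2⟩ := hG n p hp (h1.trans hmn') (h2.trans hmn')
    exact hn2 (fun s => G m s p) m hmn' hm0 hm1 t ht
  have hcmp : ∀ (m n : ℕ) (p : ℂ × ℝ), p.1 ∈ U → P p.1 ≤ m → |p.2| ≤ m → P p.1 ≤ n →
      |p.2| ≤ n → ∀ t : ℝ, |t| < m → |t| < n → G m t p = G n t p := by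
    intro m n p hp h1 h2 h3 h4 t h5 h6
    rcases le_total m n with hmn | hmn
    · exact hcmp0 m n hmn p hp h1 h2 t h5
    · exact (hcmp0 n m hmn p hp h3 h4 t h6).symm
  set K : ℝ × (ℂ × ℝ) → ℝ := fun q => max (P q.2.1) (max |q.2.2| |q.1|) with hK
  set nn : ℝ × (ℂ × ℝ) → ℕ := fun q => ⌊K q⌋₊ + 1 with hnn
  have hKn : ∀ q, K q < nn q := by
    intro q
    have := Nat.lt_floor_add_one (K q)
    simpa [hnn] using this
  have hK1 : ∀ q, P q.2.1 ≤ K q := fun q => le_max_left _ _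
  have hK2 : ∀ q, |q.2.2| ≤ K q := fun q => (le_max_left _ _).trans (le_max_right _ _)
  have hK3 : ∀ q, |q.1| ≤ K q := fun q => (le_max_right _ _).trans (le_max_right _ _)
  set Φ : ℝ → ℂ × ℝ → ℂ × ℝ := fun t p => G (nn (t, p)) t p with hΦ
  have hΦeq : ∀ (m : ℕ) (t : ℝ) (p : ℂ × ℝ), p.1 ∈ U → K (t, p) < m → Φ t p = G m t p := by
    intro m t p hp hm
    exact hcmp (nn (t, p)) m p hp ((hK1 (t, p)).trans (hKn _).le) ((hK2 (t, p)).trans (hKn _).le)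
      ((hK1 (t, p)).trans hm.le) ((hK2 (t, p)).trans hm.le) t ((hK3 (t, p)).trans_lt (hKn _))
      ((hK3 (t, p)).trans_lt hm)
  have hKcont : ∀ q : ℝ × (ℂ × ℝ), q.2.1 ∈ U → ContinuousAt K q := by
    intro q hq
    have hP : ContinuousAt P q.2.1 := (h.Pd q.2.1 hq).continuousAt
    have hP2 : ContinuousAt (fun q : ℝ × (ℂ × ℝ) => P q.2.1) q :=
      ContinuousAt.comp (f := fun q : ℝ × (ℂ × ℝ) => q.2.1) hP (by fun_prop)
    exact hP2.max ((by fun_prop : ContinuousAt (fun q : ℝ × (ℂ × ℝ) => |q.2.2|) q).max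
      (by fun_prop : ContinuousAt (fun q : ℝ × (ℂ × ℝ) => |q.1|) q))
  have hev : ∀ q : ℝ × (ℂ × ℝ), q.2.1 ∈ U →
      ∀ᶠ q' in 𝓝 q, q'.2.1 ∈ U ∧ K q' < nn q := by
    intro q hq
    have h1 : ∀ᶠ q' in 𝓝 q, q'.2.1 ∈ U := by
      have : ContinuousAt (fun q : ℝ × (ℂ × ℝ) => q.2.1) q := by fun_prop
      exact this.eventually (h.op.mem_nhds hq)
    exact h1.and ((hKcont q hq).eventually (gt_mem_nhds (hKn q)))
  have hder : ∀ p : ℂ × ℝ, p.1 ∈ U → ∀ t,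
      HasDerivAt (fun s => Φ s p) (geoField φ (Φ t p)) t ∧ (Φ t p).1 ∈ U := by
    intro p hp t
    have h1 := (hG (nn (t, p)) p hp ((hK1 (t, p)).trans (hKn _).le)
      ((hK2 (t, p)).trans (hKn _).le)).2.1 t ((hK3 (t, p)).trans_lt (hKn _))
    refine ⟨?_, h1.1⟩
    have h2 : (fun s => Φ s p) =ᶠ[𝓝 t] (fun s => G (nn (t, p)) s p) := by
      have h3 := hev (t, p) hp
      have h4 : ContinuousAt (fun s : ℝ => (s, p)) t := by fun_prop
      filter_upwards [h4.eventually h3] with s hs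
      exact hΦeq _ s p hs.1 hs.2
    exact h1.2.congr_of_eventuallyEq h2
  refine ⟨Φ, ?_, ?_, ?_, ?_, ?_, ?_⟩
  · intro p hp
    exact (hG (nn (0, p)) p hp ((hK1 (0, p)).trans (hKn _).le)
      ((hK2 (0, p)).trans (hKn _).le)).1
  · intro p hp t
    exact (hder p hp t).2
  · intro p hp t
    exact (hder p hp t).1.fst
  · intro p hp t
    have h1 := hder p hp t
    have h2 : DifferentiableAt ℝ φ (Φ t p).1 :=
      (h.sm.differentiableOn (by simp)).differentiableAt (h.op.mem_nhds h1.2)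
    exact ef_geo φ (fun s => Φ s p) t h2 h1.1
  · intro p hp t
    exact (hder p hp t).1.snd
  · rintro q ⟨-, hq, -⟩
    have h1 : ContDiffAt ℝ ∞ (fun q : ℝ × (ℂ × ℝ) => Φ q.1 q.2) q := by
      refine ((hGs (nn q)).contDiffAt).congr_of_eventuallyEq ?_
      filter_upwards [hev q hq] with q' hq'
      exact hΦeq _ q'.1 q'.2 hq'.1 hq'.2
    exact h1.contDiffWithinAt

end Pool.Agent.Helper290.Liou
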