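import Pool.Agent.Helper290.Liou.Defs
import Pool.Agent.Helper290.Liou.P_loc_flow

set_option autoImplicit false

open Set Filter Topology MeasureTheory Complex
open scoped ENNReal ContDiff

namespace Pool.Agent.Helper290.Liou



theorem flow_group (U : Set ℂ) (φ P : ℂ → ℝ) (B : ℝ) (h : Good U φ P B)
    (Φ : ℝ → ℂ × ℝ → ℂ × ℝ) (hΦ : IsGeodesicFlow U φ Φ) (p : ℂ × ℝ) (hp : p.1 ∈ U) (s t : ℝ) :
    Φ (s + t) p = Φ s (Φ t p) := by
  have hder : ∀ r : ℂ × ℝ, r.1 ∈ U → ∀ x, HasDerivAt (fun s => Φ s r) (geoField φ (Φ x r)) x :=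
    fun r hr x => (hΦ.pos r hr x).prodMk (hΦ.ang r hr x)
  have hq : (Φ t p).1 ∈ U := hΦ.mem p hp t
  obtain ⟨G, _, hG⟩ := loc_flow U φ P B h (P (Φ t p).1) |(Φ t p).2| (|s| + 1)
  obtain ⟨_, _, huniq⟩ := hG (Φ t p) hq le_rfl le_rfl
  have hs : |s| < |s| + 1 := by linarith
  have h1 := huniq (fun x => Φ (x + t) p) (|s| + 1) le_rfl (by
    show Φ (0 + t) p = Φ t p
    rw [zero_add]) (fun x _ => ⟨hΦ.mem p hp (x + t), by
      exact HasDerivAt.comp_add_const x t (hder p hp (x + t))⟩) s hs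
  have h2 := huniq (fun x => Φ x (Φ t p)) (|s| + 1) le_rfl (hΦ.zero _ hq)
    (fun x _ => ⟨hΦ.mem _ hq x, hder _ hq x⟩) s hs
  exact h1.trans h2.symm

end Pool.Agent.Helper290.Liou
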