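import Pool.Agent.Helper290.Liou.Defs

set_option autoImplicit false

open Set Filter Topology MeasureTheory Complex
open scoped ENNReal ContDiff

namespace Pool.Agent.Helper290.Liou



theorem int_N : ∫⁻ z : ℂ, ENNReal.ofReal (1 / NN z) = ⊤ := by
  obtain ⟨B, hB⟩ : ∃ B : ℕ → Set ℂ, B = fun k => Metric.ball (((3 * 2 ^ k : ℝ)) : ℂ) (2 ^ k) := ⟨_, rfl⟩
  have hmeas : ∀ k, MeasurableSet (B k) := by
    intro k
    rw [hB]
    exact measurableSet_ball
  have hnorm : ∀ k z, z ∈ B k → 2 * 2 ^ k < ‖z‖ ∧ ‖z‖ < 4 * 2 ^ k := by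
    intro k z hz
    have h2 : (0 : ℝ) < 2 ^ k := by positivity
    have hz' : ‖z - (((3 * 2 ^ k : ℝ)) : ℂ)‖ < 2 ^ k := by
      rw [hB] at hz
      rw [← dist_eq_norm]
      exact hz
    have hc : ‖(((3 * 2 ^ k : ℝ)) : ℂ)‖ = 3 * 2 ^ k := by
      rw [Complex.norm_real, Real.norm_eq_abs, abs_of_pos (by positivity)]
    have h1 := norm_sub_norm_le (((3 * 2 ^ k : ℝ)) : ℂ) z
    rw [norm_sub_rev, hc] at h1
    have h3 := norm_sub_norm_le z (((3 * 2 ^ k : ℝ)) : ℂ)
    rw [hc] at h3
    constructor <;> linarith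
  have hlt : ∀ j k : ℕ, j < k → Disjoint (B j) (B k) := by
    intro j k hjk
    rw [Set.disjoint_left]
    intro z hzj hzk
    have h1 := (hnorm j z hzj).2
    have h2 := (hnorm k z hzk).1
    have h3 : (2 : ℝ) ^ (j + 1) ≤ 2 ^ k := pow_le_pow_right₀ (by norm_num) hjk
    rw [pow_succ] at h3
    linarith
  have hdisj : Pairwise (Function.onFun Disjoint B) := by
    intro j k hjk
    rcases lt_or_gt_of_ne hjk with h | h
    · exact hlt j k h
    · exact (hlt k j h).symm
  have h1 : ∫⁻ z in ⋃ k, B k, ENNReal.ofReal (1 / NN z) =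
      ∑' k, ∫⁻ z in B k, ENNReal.ofReal (1 / NN z) := lintegral_iUnion hmeas hdisj _
  have h2 : ∀ k, ENNReal.ofReal (1 / 10016) ≤ ∫⁻ z in B k, ENNReal.ofReal (1 / NN z) := by
    intro k
    have hvol : ENNReal.ofReal ((2 ^ k) ^ 2) ≤ volume (B k) := by
      rw [hB]
      beta_reduce
      rw [Complex.volume_ball, ← ENNReal.ofReal_pow (by positivity)]
      refine le_mul_of_one_le_right bot_le ?_
      have : (1 : NNReal) ≤ NNReal.pi := by
        rw [← NNReal.coe_le_coe, NNReal.coe_one, NNReal.coe_real_pi]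
        linarith [Real.pi_gt_three]
      exact_mod_cast this
    calc ENNReal.ofReal (1 / 10016)
        = ENNReal.ofReal (1 / (10016 * (2 ^ k) ^ 2)) * ENNReal.ofReal ((2 ^ k) ^ 2) := by
          rw [← ENNReal.ofReal_mul (by positivity)]
          congr 1
          have : (0 : ℝ) < 2 ^ k := by positivity
          field_simp
      _ ≤ ENNReal.ofReal (1 / (10016 * (2 ^ k) ^ 2)) * volume (B k) := by gcongr
      _ = ∫⁻ z in B k, ENNReal.ofReal (1 / (10016 * (2 ^ k) ^ 2)) := (setLIntegral_const _ _).symm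
      _ ≤ ∫⁻ z in B k, ENNReal.ofReal (1 / NN z) := by
          refine setLIntegral_mono' (hmeas k) (fun z hz => ENNReal.ofReal_le_ofReal ?_)
          have hn := (hnorm k z hz).2
          have h0 := norm_nonneg z
          have hsq : ‖z‖ ^ 2 = z.re ^ 2 + z.im ^ 2 := by
            rw [Complex.sq_norm, Complex.normSq_apply]
            ring
          have h1k : (1 : ℝ) ≤ 2 ^ k := one_le_pow₀ (by norm_num)
          have hNN : NN z = 10000 + ‖z‖ ^ 2 := by
            unfold NN
            rw [hsq]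
            ring
          rw [hNN]
          refine one_div_le_one_div_of_le (by positivity) ?_
          nlinarith
  have h3 : ∑' k, ∫⁻ z in B k, ENNReal.ofReal (1 / NN z) = ⊤ := by
    have h4 : ∑' _ : ℕ, ENNReal.ofReal (1 / 10016) = ⊤ :=
      ENNReal.tsum_const_eq_top_of_ne_zero (by
        rw [Ne, ENNReal.ofReal_eq_zero]
        norm_num)
    rw [← top_le_iff, ← h4]
    exact ENNReal.tsum_le_tsum h2
  rw [← top_le_iff, ← h3, ← h1]
  exact setLIntegral_le_lintegral _ _

end Pool.Agent.Helper290.Liou
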