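import Pool.Agent.Helper290.Liou.Defs
import Pool.Agent.Helper290.Liou.P_L_facts
import Pool.Agent.Helper290.Liou.P_N_facts
import Pool.Agent.Helper290.Liou.P_U_facts
import Pool.Agent.Helper290.Liou.P_exp_phi
import Pool.Agent.Helper290.Liou.P_int_N

set_option autoImplicit false

open Set Filter Topology MeasureTheory Complex
open scoped ENNReal ContDiff

namespace Pool.Agent.Helper290.Liou



theorem int_top_pt (z : ℂ) (hz : z ∈ UU) :
    ENNReal.ofReal (1 / 256) * ENNReal.ofReal (1 / NN z) ≤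
      ENNReal.ofReal (SS z * Real.exp (2 * phi z)) := by
  rw [← ENNReal.ofReal_mul (by norm_num)]
  apply ENNReal.ofReal_le_ofReal
  obtain ⟨hF, hL, hFL, -⟩ := L_facts z hz
  obtain ⟨hN, -, -, hS, -, -, hSN⟩ := N_facts z
  have hN0 : 0 < NN z := by linarith
  have hS0 : 0 < SS z := by linarith
  have hL0 : 0 < LL z := by linarith
  rw [(exp_phi z hz).1]
  have e : SS z * (1 / (FF z * LL z ^ 2 * SS z ^ 2)) = 1 / (FF z * LL z ^ 2 * SS z) := by
    field_simp
  rw [e, div_mul_div_comm, one_mul]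
  apply one_div_le_one_div_of_le (by positivity)
  exact mul_le_mul hFL hSN hS0.le (by norm_num)

theorem int_top : ∫⁻ z in UU, ENNReal.ofReal (SS z * Real.exp (2 * phi z)) = ⊤ := by
  have hop : IsOpen UU := U_facts.1
  have hres : (volume : Measure ℂ).restrict UU = volume := by
    apply Measure.restrict_eq_self_of_ae_mem
    exact mem_ae_iff.2 U_facts.2.2
  have h1 : ∫⁻ z in UU, ENNReal.ofReal (1 / 256) * ENNReal.ofReal (1 / NN z) ≤
      ∫⁻ z in UU, ENNReal.ofReal (SS z * Real.exp (2 * phi z)) :=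
    setLIntegral_mono' hop.measurableSet fun z hz => int_top_pt z hz
  have h2 : ∫⁻ z in UU, ENNReal.ofReal (1 / 256) * ENNReal.ofReal (1 / NN z) = ⊤ := by
    rw [hres, lintegral_const_mul' _ _ ENNReal.ofReal_ne_top, int_N]
    exact ENNReal.mul_top (by simp)
  rw [h2] at h1
  exact top_le_iff.1 h1

end Pool.Agent.Helper290.Liou
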