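import Pool.Agent.Helper290.Liou.Defs
import Pool.Agent.Helper290.Liou.P_dgeo

set_option autoImplicit false

open Set Filter Topology MeasureTheory Complex
open scoped ENNReal ContDiff

namespace Pool.Agent.Helper290.Liou



theorem jacobi_key (φ : ℂ → ℝ) (p : ℂ × ℝ) (ζ : ℂ) :
    ((Real.exp (2 * φ p.1) : ℝ) : ℂ) * ((starRingEnd ℂ) (uvec φ p) * ζ) =
      Complex.exp ((φ p.1 : ℂ) - (p.2 : ℂ) * I) * ζ := by
  unfold uvec
  rw [map_mul, Complex.conj_ofReal, ← Complex.exp_conj]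
  simp only [map_mul, Complex.conj_ofReal, Complex.conj_I]
  rw [Complex.ofReal_exp, Complex.ofReal_exp, ← mul_assoc, ← mul_assoc, ← Complex.exp_add,
    ← Complex.exp_add]
  congr 2
  push_cast
  ring

theorem jacobi_al (φ : ℂ → ℝ) (p ξ : ℂ × ℝ) :
    al φ p ξ = (Complex.exp ((φ p.1 : ℂ) - (p.2 : ℂ) * I) * ξ.1).re := by
  rw [← jacobi_key, Complex.re_ofReal_mul]
  rfl

theorem jacobi_jj (φ : ℂ → ℝ) (p ξ : ℂ × ℝ) :
    jj φ p ξ = (Complex.exp ((φ p.1 : ℂ) - (p.2 : ℂ) * I) * ξ.1).im := by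
  rw [← jacobi_key, Complex.im_ofReal_mul]
  rfl

theorem jacobi_inv (φ : ℂ → ℝ) (p : ℂ × ℝ) :
    Complex.exp ((φ p.1 : ℂ) - (p.2 : ℂ) * I) * uvec φ p = 1 := by
  unfold uvec
  rw [Complex.ofReal_exp, ← mul_assoc, ← Complex.exp_add, ← Complex.exp_add, ← Complex.exp_zero]
  congr 1
  push_cast
  ring

theorem jacobi_norm (φ : ℂ → ℝ) (p : ℂ × ℝ) :
    (uvec φ p).re ^ 2 + (uvec φ p).im ^ 2 = Real.exp (-2 * φ p.1) := by
  have h : ‖uvec φ p‖ = Real.exp (-φ p.1) := by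
    unfold uvec
    rw [norm_mul, Complex.norm_exp_ofReal_mul_I, mul_one, Complex.norm_real, Real.norm_eq_abs,
      abs_of_pos (Real.exp_pos _)]
  have h2 := Complex.sq_norm (uvec φ p)
  rw [Complex.normSq_apply, h, ← Real.exp_nat_mul] at h2
  have e : ((2 : ℕ) : ℝ) * -φ p.1 = -2 * φ p.1 := by push_cast; ring
  rw [e] at h2
  rw [h2]; ring

theorem jacobi_lin (L : ℂ →L[ℝ] ℝ) (x y : ℝ) (v : ℂ) :
    L (((x : ℂ) + (y : ℂ) * I) * v) = x * L v + y * L (I * v) := by
  have e : ((x : ℂ) + (y : ℂ) * I) * v = x • v + y • (I * v) := by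
    simp only [Complex.real_smul]; ring
  rw [e, map_add, map_smul, map_smul, smul_eq_mul, smul_eq_mul]

theorem jacobi (U : Set ℂ) (φ : ℂ → ℝ) (hU : IsOpen U) (hφ : ContDiffOn ℝ ∞ φ U)
    (q η : ℝ → ℂ × ℝ) (t : ℝ) (hq : (q t).1 ∈ U) (hd : HasDerivAt q (geoField φ (q t)) t)
    (he : HasDerivAt η (fderiv ℝ (geoField φ) (q t) (η t)) t) :
    HasDerivAt (fun s => al φ (q s) (η s)) 0 t ∧
    HasDerivAt (fun s => jj φ (q s) (η s)) (ww φ (q t) (η t)) t ∧
    HasDerivAt (fun s => ww φ (q s) (η s)) (-curv φ (q t).1 * jj φ (q t) (η t)) t := by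
  have hat : ContDiffAt ℝ ∞ φ (q t).1 := hφ.contDiffAt (hU.mem_nhds hq)
  have hL : HasFDerivAt φ (fderiv ℝ φ (q t).1) (q t).1 :=
    (hat.differentiableAt (by simp)).hasFDerivAt
  have hat2 : ContDiffAt ℝ 1 (fderiv ℝ φ) (q t).1 :=
    hat.fderiv_right (m := 1) (by norm_cast)
  have hD : HasFDerivAt (fderiv ℝ φ) (fderiv ℝ (fderiv ℝ φ) (q t).1) (q t).1 :=
    (hat2.differentiableAt (by simp)).hasFDerivAt
  set z := (q t).1 with hz
  set v := uvec φ (q t) with hv
  set L := fderiv ℝ φ z with hLdef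
  set D := fderiv ℝ (fderiv ℝ φ) z with hDdef
  rw [show η t = ((η t).1, (η t).2) from rfl, dgeo U φ hU hφ (q t) hq] at he
  rw [← hz, ← hv, ← hLdef, ← hDdef] at he
  set ζ := (η t).1 with hζ
  set ϑ := (η t).2 with hϑ
  -- components
  have hz' : HasDerivAt (fun s => (q s).1) v t :=
    (ContinuousLinearMap.fst ℝ ℂ ℝ).hasFDerivAt.comp_hasDerivAt t hd
  have hθ' : HasDerivAt (fun s => (q s).2) (L (I * v)) t :=
    (ContinuousLinearMap.snd ℝ ℂ ℝ).hasFDerivAt.comp_hasDerivAt t hd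
  have hζ' : HasDerivAt (fun s => (η s).1) ((-((L ζ : ℝ) : ℂ) + I * (ϑ : ℂ)) * v) t :=
    (ContinuousLinearMap.fst ℝ ℂ ℝ).hasFDerivAt.comp_hasDerivAt t he
  have hϑ' : HasDerivAt (fun s => (η s).2) (D ζ (I * v) - L ζ * L (I * v) - ϑ * L v) t :=
    (ContinuousLinearMap.snd ℝ ℂ ℝ).hasFDerivAt.comp_hasDerivAt t he
  have hφ' : HasDerivAt (fun s => φ (q s).1) (L v) t := hL.comp_hasDerivAt t hz'
  -- the complex function
  set P := Complex.exp ((φ (q t).1 : ℂ) - ((q t).2 : ℂ) * I) with hP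
  have hPv : P * v = 1 := jacobi_inv φ (q t)
  have hPd : HasDerivAt (fun s => Complex.exp ((φ (q s).1 : ℂ) - ((q s).2 : ℂ) * I))
      (P * (((L v : ℝ) : ℂ) - ((L (I * v) : ℝ) : ℂ) * I)) t :=
    ((hφ'.ofReal_comp).sub ((hθ'.ofReal_comp).mul_const I)).cexp
  have hG : HasDerivAt (fun s => Complex.exp ((φ (q s).1 : ℂ) - ((q s).2 : ℂ) * I) * (η s).1)
      ((((L v : ℝ) : ℂ) - ((L (I * v) : ℝ) : ℂ) * I) * (P * ζ) +
        (-((L ζ : ℝ) : ℂ) + I * (ϑ : ℂ))) t := by
    refine (hPd.mul hζ').congr_deriv ?_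
    show P * (((L v : ℝ) : ℂ) - ((L (I * v) : ℝ) : ℂ) * I) * ζ +
      P * ((-((L ζ : ℝ) : ℂ) + I * (ϑ : ℂ)) * v) = _
    linear_combination (-((L ζ : ℝ) : ℂ) + I * (ϑ : ℂ)) * hPv
  set α := (P * ζ).re with hα
  set β := (P * ζ).im with hβ
  have hPζ : P * ζ = (α : ℂ) + (β : ℂ) * I := (Complex.re_add_im _).symm
  have hζe : ζ = ((α : ℂ) + (β : ℂ) * I) * v := by
    rw [← hPζ]
    linear_combination (-ζ) * hPv
  have hIζ : I * ζ = (((-β : ℝ) : ℂ) + (α : ℂ) * I) * v := by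
    rw [hζe]
    push_cast
    linear_combination ((β : ℂ) * v) * Complex.I_mul_I
  have hLζ : L ζ = α * L v + β * L (I * v) := by
    conv_lhs => rw [hζe]
    exact jacobi_lin L α β v
  have hLIζ : L (I * ζ) = -β * L v + α * L (I * v) := by
    rw [hIζ]
    exact jacobi_lin L (-β) α v
  have hjj : jj φ (q t) (η t) = β := jacobi_jj φ (q t) (η t)
  refine ⟨?_, ?_, ?_⟩
  · have h1 := Complex.reCLM.hasFDerivAt.comp_hasDerivAt t hG
    have h2 : HasDerivAt (fun s => al φ (q s) (η s))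
        (Complex.reCLM ((((L v : ℝ) : ℂ) - ((L (I * v) : ℝ) : ℂ) * I) * (P * ζ) +
        (-((L ζ : ℝ) : ℂ) + I * (ϑ : ℂ)))) t := by
      refine h1.congr_of_eventuallyEq (Eventually.of_forall fun s => ?_)
      exact jacobi_al φ (q s) (η s)
    refine h2.congr_deriv ?_
    rw [hPζ, Complex.reCLM_apply, hLζ]
    simp
    ring
  · have h1 := Complex.imCLM.hasFDerivAt.comp_hasDerivAt t hG
    have h2 : HasDerivAt (fun s => jj φ (q s) (η s))
        (Complex.imCLM ((((L v : ℝ) : ℂ) - ((L (I * v) : ℝ) : ℂ) * I) * (P * ζ) +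
        (-((L ζ : ℝ) : ℂ) + I * (ϑ : ℂ)))) t := by
      refine h1.congr_of_eventuallyEq (Eventually.of_forall fun s => ?_)
      exact jacobi_jj φ (q s) (η s)
    refine h2.congr_deriv ?_
    have hww : ww φ (q t) (η t) = ϑ - L (I * ζ) := rfl
    rw [hPζ, Complex.imCLM_apply, hww, hLIζ]
    simp
    ring
  · have hc : HasDerivAt (fun s => fderiv ℝ φ (q s).1) (D v) t := hD.comp_hasDerivAt t hz'
    have hu : HasDerivAt (fun s => I * (η s).1) (I * ((-((L ζ : ℝ) : ℂ) + I * (ϑ : ℂ)) * v)) t :=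
      hζ'.const_mul I
    have h3 := hϑ'.sub (hc.clm_apply hu)
    refine h3.congr_deriv ?_
    show D ζ (I * v) - L ζ * L (I * v) - ϑ * L v -
      (D v (I * ζ) + L (I * ((-((L ζ : ℝ) : ℂ) + I * (ϑ : ℂ)) * v))) = _
    have e1 : L (I * ((-((L ζ : ℝ) : ℂ) + I * (ϑ : ℂ)) * v)) = -ϑ * L v + (-L ζ) * L (I * v) := by
      have : I * ((-((L ζ : ℝ) : ℂ) + I * (ϑ : ℂ)) * v) =
          (((-ϑ : ℝ) : ℂ) + ((-L ζ : ℝ) : ℂ) * I) * v := by
        push_cast
        linear_combination ((ϑ : ℂ) * v) * Complex.I_mul_I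
      rw [this]
      exact jacobi_lin L (-ϑ) (-L ζ) v
    have e2 : D ζ (I * v) = α * D v (I * v) + β * D (I * v) (I * v) := by
      have e : ζ = α • v + β • (I * v) := by
        conv_lhs => rw [hζe]
        simp only [Complex.real_smul]; ring
      conv_lhs => rw [e]
      simp only [map_add, map_smul, _root_.add_apply, _root_.smul_apply,
        smul_eq_mul]
    have e3 : D v (I * ζ) = -β * D v v + α * D v (I * v) := by
      rw [hIζ]
      exact jacobi_lin (D v) (-β) α v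
    have hlap : lap φ z = D 1 1 + D I I := by
      unfold lap
      have hg : ∀ c : ℂ, fderiv ℝ (fun w => fderiv ℝ φ w c) z = D.flip c := by
        intro c
        have := hD.clm_apply (hasFDerivAt_const c z)
        rw [this.fderiv]
        ext u
        simp [hDdef]
      rw [hg, hg]
      rfl
    have hDv : D v v + D (I * v) (I * v) = (v.re ^ 2 + v.im ^ 2) * (D 1 1 + D I I) := by
      have ev : v = v.re • (1 : ℂ) + v.im • I := by
        simp only [Complex.real_smul, mul_one]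
        exact (Complex.re_add_im v).symm
      have eIv : I * v = (-v.im) • (1 : ℂ) + v.re • I := by
        conv_lhs => rw [ev]
        simp only [Complex.real_smul, mul_one]
        push_cast
        linear_combination (v.im : ℂ) * Complex.I_mul_I
      have key : ∀ x y : ℝ, D (x • (1 : ℂ) + y • I) (x • (1 : ℂ) + y • I) =
          x ^ 2 * D 1 1 + x * y * (D 1 I + D I 1) + y ^ 2 * D I I := by
        intro x y
        simp only [map_add, map_smul, _root_.add_apply,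
          _root_.smul_apply, smul_eq_mul]
        ring
      have k1 := key v.re v.im
      have k2 := key (-v.im) v.re
      rw [← ev] at k1
      rw [← eIv] at k2
      rw [k1, k2]
      ring
    have hn := jacobi_norm φ (q t)
    rw [← hv, ← hz] at hn
    rw [e1, e2, e3, hjj]
    unfold curv
    rw [hlap, ← hn]
    linear_combination β * hDv

end Pool.Agent.Helper290.Liou
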