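import Pool.Agent.Helper290.Liou.Defs
import Pool.Agent.Helper290.Liou.P_U_facts
import Pool.Agent.Helper290.Liou.P_area_finite

set_option autoImplicit false

open Set Filter Topology MeasureTheory Complex
open scoped ENNReal ContDiff

namespace Pool.Agent.Helper290.Liou



theorem liou_prob_meas : Measurable phi := by
  unfold phi LL SS TT NN FF
  fun_prop

theorem liou_prob : areaM UU phi univ < ⊤ ∧ IsProbabilityMeasure (liouville UU phi) := by
  have hA : areaM UU phi univ = ∫⁻ z in UU, ENNReal.ofReal (Real.exp (2 * phi z)) := by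
    unfold areaM
    rw [withDensity_apply _ MeasurableSet.univ, Measure.restrict_univ]
  have hfin : areaM UU phi univ < ⊤ := by
    rw [hA]
    exact area_finite
  refine ⟨hfin, ?_⟩
  have hm : Measurable (fun z => ENNReal.ofReal (Real.exp (2 * phi z))) :=
    ENNReal.measurable_ofReal.comp (Real.measurable_exp.comp (liou_prob_meas.const_mul 2))
  have hpos : areaM UU phi univ ≠ 0 := by
    rw [hA]
    intro h0
    rw [lintegral_eq_zero_iff hm] at h0
    have h1 : ∀ᵐ z ∂(volume.restrict UU), False := by
      filter_upwards [h0] with z hz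
      have : (0 : ℝ≥0∞) < ENNReal.ofReal (Real.exp (2 * phi z)) :=
        ENNReal.ofReal_pos.mpr (Real.exp_pos _)
      rw [hz] at this
      exact absurd this (lt_irrefl _)
    have h2 : volume.restrict UU = 0 := by
      rw [← ae_eq_bot]
      exact Filter.eventually_false_iff_eq_bot.mp h1
    rw [Measure.restrict_eq_zero] at h2
    obtain ⟨ho, hc, -⟩ := U_facts
    exact (ho.measure_pos volume hc.nonempty).ne' h2
  have hpi : ENNReal.ofReal (2 * Real.pi) ≠ 0 := by
    rw [Ne, ENNReal.ofReal_eq_zero, not_le]
    positivity
  constructor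
  unfold liouville
  rw [Measure.smul_apply, ← univ_prod_univ, Measure.prod_prod, smul_eq_mul,
    Measure.restrict_apply MeasurableSet.univ, univ_inter, Real.volume_Ioc, sub_zero]
  exact ENNReal.inv_mul_cancel (mul_ne_zero hpos hpi) (ENNReal.mul_ne_top hfin.ne ENNReal.ofReal_ne_top)

end Pool.Agent.Helper290.Liou
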