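import Pool.Agent.Helper290.Liou.Defs

set_option autoImplicit false

open Set Filter Topology MeasureTheory Complex
open scoped ENNReal ContDiff

namespace Pool.Agent.Helper290.Liou



theorem log_derivs (J W k : ℝ → ℝ)
    (hJ : ∀ t, HasDerivAt J (W t) t) (hW : ∀ t, HasDerivAt W (k t * J t) t)
    (hJp : ∀ t, 0 < J t) (hWp : ∀ t, 0 < W t) :
    HasDerivAt (fun t => Real.log (Real.sqrt (J t ^ 2 + W t ^ 2) / Real.sqrt (J 0 ^ 2 + W 0 ^ 2)))
      (W 0 * J 0 * (1 + k 0) / (J 0 ^ 2 + W 0 ^ 2)) 0 ∧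
    HasDerivAt (fun t => Real.log (J t / J 0)) (W 0 / J 0) 0 := by
  have hJ0 := hJp 0
  have hW0 := hWp 0
  constructor
  · have hD : HasDerivAt (fun t => J t ^ 2 + W t ^ 2) (2 * (W 0 * J 0 * (1 + k 0))) 0 := by
      refine (((hJ 0).fun_pow 2).add ((hW 0).fun_pow 2)).congr_deriv ?_
      push_cast
      ring
    have hDp : 0 < J 0 ^ 2 + W 0 ^ 2 := by positivity
    have hs := hD.sqrt hDp.ne'
    have hsp : 0 < Real.sqrt (J 0 ^ 2 + W 0 ^ 2) := Real.sqrt_pos.2 hDp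
    have hl := (hs.div_const (Real.sqrt (J 0 ^ 2 + W 0 ^ 2))).log (div_pos hsp hsp).ne'
    refine hl.congr_deriv ?_
    have hsq : Real.sqrt (J 0 ^ 2 + W 0 ^ 2) ^ 2 = J 0 ^ 2 + W 0 ^ 2 := Real.sq_sqrt hDp.le
    generalize Real.sqrt (J 0 ^ 2 + W 0 ^ 2) = s at hsp hsq
    rw [← hsq]
    field_simp
  · have hl := ((hJ 0).div_const (J 0)).log (div_pos hJ0 hJ0).ne'
    refine hl.congr_deriv ?_
    field_simp

end Pool.Agent.Helper290.Liou
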