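import Pool.Agent.Helper290.Liou.Defs

set_option autoImplicit false

open Set Filter Topology MeasureTheory Complex
open scoped ENNReal ContDiff

namespace Pool.Agent.Helper290.Liou



theorem ode_unst_mono (F F' : ℝ → ℝ) (c : ℝ) (h : ∀ t, c ≤ t → HasDerivAt F (F' t) t)
    (h' : ∀ t, c ≤ t → 0 ≤ F' t) (t : ℝ) (ht : c ≤ t) : F c ≤ F t := by
  have h1 : MonotoneOn F (Set.Ici c) := by
    apply monotoneOn_of_deriv_nonneg (convex_Ici c)
    · intro x hx
      exact (h x hx).continuousAt.continuousWithinAt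
    · intro x hx
      rw [interior_Ici] at hx
      exact (h x hx.le).differentiableAt.differentiableWithinAt
    · intro x hx
      rw [interior_Ici] at hx
      rw [(h x hx.le).deriv]
      exact h' x hx.le
  exact h1 Set.self_mem_Ici ht ht

theorem ode_unst_smono (F F' : ℝ → ℝ) (c : ℝ) (h : ∀ t, c ≤ t → HasDerivAt F (F' t) t)
    (h' : ∀ t, c ≤ t → 0 < F' t) (t : ℝ) (ht : c < t) : F c < F t := by
  have h1 : StrictMonoOn F (Set.Ici c) := by
    apply strictMonoOn_of_deriv_pos (convex_Ici c)
    · intro x hx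
      exact (h x hx).continuousAt.continuousWithinAt
    · intro x hx
      rw [interior_Ici] at hx
      rw [(h x hx.le).deriv]
      exact h' x hx.le
  exact h1 Set.self_mem_Ici ht.le ht

theorem ode_unst_pos (k A A' B B' : ℝ → ℝ) (hk : ∀ t, 1 ≤ k t)
    (hA : ∀ t, HasDerivAt A (A' t) t) (hA' : ∀ t, HasDerivAt A' (k t * A t) t)
    (hB : ∀ t, HasDerivAt B (B' t) t) (hB' : ∀ t, HasDerivAt B' (k t * B t) t)
    (A0 : A 0 = 1) (A0' : A' 0 = 0) (B0 : B 0 = 0) (B0' : B' 0 = 1) :
    ∀ t, 0 ≤ t → 1 ≤ A t ∧ 0 ≤ A' t ∧ t ≤ B t ∧ 1 ≤ B' t ∧ t ≤ B' t := by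
  have s1 : ∀ t, 0 ≤ t → 0 ≤ B t * B' t := by
    intro t ht
    have := ode_unst_mono (fun t => B t * B' t) (fun t => B' t * B' t + B t * (k t * B t)) 0
      (fun t _ => (hB t).mul (hB' t)) (fun t _ => by
        have h1 := hk t
        have h2 : 0 ≤ k t * (B t * B t) := mul_nonneg (by linarith) (mul_self_nonneg _)
        nlinarith [mul_self_nonneg (B' t)]) t ht
    simpa [B0] using this
  have s2 : ∀ t, 0 ≤ t → 1 ≤ B' t ^ 2 - B t ^ 2 := by
    intro t ht
    have := ode_unst_mono (fun t => B' t ^ 2 - B t ^ 2) (fun t => 2 * (k t - 1) * (B t * B' t)) 0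
      (fun t _ => by
        have h1 := ((hB' t).pow 2).sub ((hB t).pow 2)
        exact h1.congr_deriv (by push_cast; ring)) (fun t ht => by
        have h1 := hk t
        have h2 := s1 t ht
        exact mul_nonneg (by linarith) h2) t ht
    simpa [B0, B0'] using this
  have s3 : ∀ t, 0 ≤ t → 0 < B' t := by
    intro t ht
    by_contra hcon
    push Not at hcon
    have hc : ContinuousOn B' (Set.Icc 0 t) := fun x _ => (hB' x).continuousAt.continuousWithinAt
    obtain ⟨c, hc1, hc2⟩ := intermediate_value_Icc' ht hc ⟨hcon, by rw [B0']; norm_num⟩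
    have := s2 c hc1.1
    rw [hc2] at this
    nlinarith [sq_nonneg (B c)]
  have s4 : ∀ t, 0 ≤ t → 1 ≤ B' t := by
    intro t ht
    have h1 := s2 t ht
    have h2 := s3 t ht
    nlinarith [sq_nonneg (B t)]
  have s5 : ∀ t, 0 ≤ t → t ≤ B t := by
    intro t ht
    have := ode_unst_mono (fun t => B t - t) (fun t => B' t - 1) 0
      (fun t _ => (hB t).sub (hasDerivAt_id t)) (fun t ht => by have := s4 t ht; linarith) t ht
    simp only [B0] at this
    linarith
  have s6 : ∀ t, 0 ≤ t → t ≤ B' t := by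
    intro t ht
    have h1 := s2 t ht
    have h2 := s3 t ht
    have h3 := s5 t ht
    nlinarith
  have r1 : ∀ t, 0 ≤ t → 0 ≤ A t * A' t := by
    intro t ht
    have := ode_unst_mono (fun t => A t * A' t) (fun t => A' t * A' t + A t * (k t * A t)) 0
      (fun t _ => (hA t).mul (hA' t)) (fun t _ => by
        have h1 := hk t
        have h2 : 0 ≤ k t * (A t * A t) := mul_nonneg (by linarith) (mul_self_nonneg _)
        nlinarith [mul_self_nonneg (A' t)]) t ht
    simpa [A0'] using this
  have r2 : ∀ t, 0 ≤ t → 1 ≤ A t ^ 2 := by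
    intro t ht
    have := ode_unst_mono (fun t => A t ^ 2) (fun t => 2 * (A t * A' t)) 0
      (fun t _ => by
        have h1 := ((hA t).pow 2)
        exact h1.congr_deriv (by push_cast; ring)) (fun t ht => by
        have h2 := r1 t ht
        linarith) t ht
    simpa [A0] using this
  have r3 : ∀ t, 0 ≤ t → 0 < A t := by
    intro t ht
    by_contra hcon
    push Not at hcon
    have hc : ContinuousOn A (Set.Icc 0 t) := fun x _ => (hA x).continuousAt.continuousWithinAt
    obtain ⟨c, hc1, hc2⟩ := intermediate_value_Icc' ht hc ⟨hcon, by rw [A0]; norm_num⟩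
    have := r2 c hc1.1
    rw [hc2] at this
    norm_num at this
  have r4 : ∀ t, 0 ≤ t → 1 ≤ A t := by
    intro t ht
    have h1 := r2 t ht
    have h2 := r3 t ht
    nlinarith
  have r5 : ∀ t, 0 ≤ t → 0 ≤ A' t := by
    intro t ht
    have := ode_unst_mono A' (fun t => k t * A t) 0
      (fun t _ => hA' t) (fun t ht => by
        have := r4 t ht
        have := hk t
        positivity) t ht
    rwa [A0'] at this
  exact fun t ht => ⟨r4 t ht, r5 t ht, s5 t ht, s4 t ht, s6 t ht⟩

/-- half-line statement: `a`, `b` on `[0, ∞)` -/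
theorem ode_unst_half (k a a1 b b1 : ℝ → ℝ) (hk : ∀ t, 1 ≤ k t)
    (ha : ∀ t, HasDerivAt a (a1 t) t) (ha1 : ∀ t, HasDerivAt a1 (k t * a t) t)
    (hb : ∀ t, HasDerivAt b (b1 t) t) (hb1 : ∀ t, HasDerivAt b1 (k t * b t) t)
    (a0 : a 0 = 1) (a10 : a1 0 = 0) (b0 : b 0 = 0) (b10 : b1 0 = 1) :
    ∃ u, 0 < u ∧ (∀ s, a s * b1 s - a1 s * b s = 1) ∧
      (∀ s, 0 ≤ s → 0 < a s - u * b s ∧ 0 < u * b1 s - a1 s) ∧
      (∀ s, 0 < s → a s - u * b s ≤ 1 / s ∧ u * b1 s - a1 s ≤ 1 / s) := by
  have hp := ode_unst_pos k a a1 b b1 hk ha ha1 hb hb1 a0 a10 b0 b10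
  have hW : ∀ s, a s * b1 s - a1 s * b s = 1 := by
    intro s
    have hd : ∀ t, HasDerivAt (fun s => a s * b1 s - a1 s * b s) 0 t := by
      intro t
      have h1 := ((ha t).mul (hb1 t)).sub ((ha1 t).mul (hb t))
      exact h1.congr_deriv (by ring)
    have hc := is_const_of_deriv_eq_zero (fun t => (hd t).differentiableAt)
      (fun t => (hd t).deriv) s 0
    simp only [a0, a10, b0, b10] at hc
    linarith
  have bpos : ∀ s, 0 < s → 0 < b s := fun s hs => hs.trans_le (hp s hs.le).2.2.1
  have b1pos : ∀ s, 0 ≤ s → 0 < b1 s := fun s hs => one_pos.trans_le (hp s hs).2.2.2.1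
  -- f = a1 / b1 is strictly increasing
  have hf : ∀ c, 0 ≤ c → ∀ t, c < t → a1 c / b1 c < a1 t / b1 t := by
    intro c hc t ht
    refine ode_unst_smono (fun t => a1 t / b1 t) (fun t => k t / b1 t ^ 2) c ?_ ?_ t ht
    · intro s hs
      have hs0 := b1pos s (hc.trans hs)
      have h1 := (ha1 s).div (hb1 s) hs0.ne'
      exact h1.congr_deriv (by
        congr 1
        linear_combination (k s) * hW s)
    · intro s hs
      have hs0 := b1pos s (hc.trans hs)
      have := hk s
      positivity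
  -- g = a / b is strictly decreasing
  have hg : ∀ c, 0 < c → ∀ t, c < t → a t / b t < a c / b c := by
    intro c hc t ht
    have h0 := ode_unst_smono (fun t => -(a t / b t)) (fun t => 1 / b t ^ 2) c ?_ ?_ t ht
    · linarith
    · intro s hs
      have hs0 := bpos s (hc.trans_le hs)
      have h1 := ((ha s).div (hb s) hs0.ne').neg
      exact h1.congr_deriv (by
        rw [← neg_div]
        congr 1
        linear_combination hW s)
    · intro s hs
      have hs0 := bpos s (hc.trans_le hs)
      positivity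
  have hfg : ∀ s, 0 < s → a s / b s - a1 s / b1 s = 1 / (b s * b1 s) := by
    intro s hs
    have h1 := bpos s hs
    have h2 := b1pos s hs.le
    rw [div_sub_div _ _ h1.ne' h2.ne']
    congr 1
    linear_combination hW s
  have hfg' : ∀ s t, 0 ≤ s → 0 < t → a1 s / b1 s < a t / b t := by
    intro s t hs ht
    obtain ⟨m, hm⟩ : ∃ m, m = max s t + 1 := ⟨_, rfl⟩
    have hms : s < m := by rw [hm]; have := le_max_left s t; linarith
    have hmt : t < m := by rw [hm]; have := le_max_right s t; linarith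
    have h1 := hf s hs m hms
    have h2 := hg t ht m hmt
    have h3 := hfg m (ht.trans hmt)
    have h4 : 0 < 1 / (b m * b1 m) := by
      have := bpos m (ht.trans hmt)
      have := b1pos m (ht.trans hmt).le
      positivity
    linarith
  obtain ⟨u, hu⟩ : ∃ u, u = sSup ((fun s => a1 s / b1 s) '' Set.Ici 0) := ⟨_, rfl⟩
  have hne : ((fun s => a1 s / b1 s) '' Set.Ici 0).Nonempty := ⟨_, 0, Set.self_mem_Ici, rfl⟩
  have hbd : BddAbove ((fun s => a1 s / b1 s) '' Set.Ici 0) := by
    refine ⟨a 1 / b 1, ?_⟩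
    rintro _ ⟨s, hs, rfl⟩
    exact (hfg' s 1 hs one_pos).le
  have hu1 : ∀ s, 0 ≤ s → a1 s / b1 s ≤ u := by
    intro s hs
    rw [hu]
    exact le_csSup hbd ⟨s, hs, rfl⟩
  have hu2 : ∀ t, 0 < t → u ≤ a t / b t := by
    intro t ht
    rw [hu]
    apply csSup_le hne
    rintro _ ⟨s, hs, rfl⟩
    exact (hfg' s t hs ht).le
  have hu1' : ∀ s, 0 ≤ s → a1 s / b1 s < u := fun s hs =>
    (hf s hs (s + 1) (by linarith)).trans_le (hu1 _ (by linarith))
  have hu2' : ∀ t, 0 < t → u < a t / b t := fun t ht =>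
    (hu2 (t + 1) (by linarith)).trans_lt (hg t ht (t + 1) (by linarith))
  have hu0 : 0 < u := by
    have := hu1' 0 le_rfl
    rwa [a10, zero_div] at this
  refine ⟨u, hu0, hW, ?_, ?_⟩
  · intro s hs
    constructor
    · rcases hs.eq_or_lt with h | h
      · rw [← h, a0, b0]; norm_num
      · have h1 := hu2' s h
        rw [lt_div_iff₀ (bpos s h)] at h1
        linarith
    · have h1 := hu1' s hs
      rw [div_lt_iff₀ (b1pos s hs)] at h1
      linarith
  · intro s hs
    have h1 := hu2 s hs
    have h2 := hu1 s hs.le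
    have h3 := hfg s hs
    have hbs := bpos s hs
    have hb1s := b1pos s hs.le
    constructor
    · have h4 : a s / b s - u ≤ 1 / (b s * b1 s) := by linarith
      have h5 : (a s / b s - u) * b s ≤ 1 / (b s * b1 s) * b s := mul_le_mul_of_nonneg_right h4 hbs.le
      have h6 : (a s / b s - u) * b s = a s - u * b s := by field_simp
      have h7 : 1 / (b s * b1 s) * b s = 1 / b1 s := by field_simp
      rw [h6, h7] at h5
      exact h5.trans (one_div_le_one_div_of_le hs (hp s hs.le).2.2.2.2)
    · have h4 : u - a1 s / b1 s ≤ 1 / (b s * b1 s) := by linarith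
      have h5 : (u - a1 s / b1 s) * b1 s ≤ 1 / (b s * b1 s) * b1 s :=
        mul_le_mul_of_nonneg_right h4 hb1s.le
      have h6 : (u - a1 s / b1 s) * b1 s = u * b1 s - a1 s := by field_simp
      have h7 : 1 / (b s * b1 s) * b1 s = 1 / b s := by field_simp
      rw [h6, h7] at h5
      exact h5.trans (one_div_le_one_div_of_le hs (hp s hs.le).2.2.1)

theorem ode_unst (k A A' B B' : ℝ → ℝ) (hk : ∀ t, 1 ≤ k t)
    (hA : ∀ t, HasDerivAt A (A' t) t) (hA' : ∀ t, HasDerivAt A' (k t * A t) t)
    (hB : ∀ t, HasDerivAt B (B' t) t) (hB' : ∀ t, HasDerivAt B' (k t * B t) t)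
    (A0 : A 0 = 1) (A0' : A' 0 = 0) (B0 : B 0 = 0) (B0' : B' 0 = 1) :
    ∃ u, 0 < u ∧ Tendsto (fun t => A t + u * B t) atBot (𝓝 0) ∧
      Tendsto (fun t => A' t + u * B' t) atBot (𝓝 0) ∧
      (∀ t, 0 < A t + u * B t) ∧ (∀ t, 0 < A' t + u * B' t) ∧
      (∀ a b : ℝ, Tendsto (fun t => a * A t + b * B t) atBot (𝓝 0) → b = u * a) ∧
      Tendsto (fun s => -A (-s) / B (-s)) atTop (𝓝 u) ∧
      (∀ s, 0 < s → B (-s) < 0 ∧ A' (-s) * B (-s) - A (-s) * B' (-s) = -1) := by
  have hpos := ode_unst_pos k A A' B B' hk hA hA' hB hB' A0 A0' B0 B0'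
  have neg_d : ∀ (f : ℝ → ℝ) (f' : ℝ) (s : ℝ), HasDerivAt f f' (-s) →
      HasDerivAt (fun s => f (-s)) (-f') s := by
    intro f f' s h
    have h1 := h.comp s (hasDerivAt_neg s)
    rw [mul_neg_one] at h1
    exact h1
  have da : ∀ s, HasDerivAt (fun s => A (-s)) (-A' (-s)) s := fun s => neg_d A _ s (hA (-s))
  have da1 : ∀ s, HasDerivAt (fun s => -A' (-s)) (k (-s) * A (-s)) s := fun s => by
    have := (neg_d A' _ s (hA' (-s))).neg
    rwa [neg_neg] at this
  have db : ∀ s, HasDerivAt (fun s => -B (-s)) (B' (-s)) s := fun s => by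
    have := (neg_d B _ s (hB (-s))).neg
    rwa [neg_neg] at this
  have db1 : ∀ s, HasDerivAt (fun s => B' (-s)) (k (-s) * (-B (-s))) s := fun s => by
    have := neg_d B' _ s (hB' (-s))
    rwa [← mul_neg] at this
  obtain ⟨u, hu0, hW, h1, h2⟩ := ode_unst_half (fun s => k (-s)) (fun s => A (-s))
    (fun s => -A' (-s)) (fun s => -B (-s)) (fun s => B' (-s)) (fun s => hk _) da da1 db db1
    (by simpa using A0) (by simpa using A0') (by simpa using B0) (by simpa using B0')
  have hneg := ode_unst_pos (fun s => k (-s)) (fun s => A (-s))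
    (fun s => -A' (-s)) (fun s => -B (-s)) (fun s => B' (-s)) (fun s => hk _) da da1 db db1
    (by simpa using A0) (by simpa using A0') (by simpa using B0) (by simpa using B0')
  have hinv : Tendsto (fun s : ℝ => 1 / s) atTop (𝓝 0) := by
    simpa only [one_div] using tendsto_inv_atTop_zero
  have tJ : Tendsto (fun s => A (-s) + u * B (-s)) atTop (𝓝 0) := by
    refine tendsto_of_tendsto_of_tendsto_of_le_of_le' tendsto_const_nhds hinv ?_ ?_
    · filter_upwards [eventually_gt_atTop 0] with s hs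
      have := (h1 s hs.le).1
      linarith
    · filter_upwards [eventually_gt_atTop 0] with s hs
      have := (h2 s hs).1
      linarith
  have tJ' : Tendsto (fun s => A' (-s) + u * B' (-s)) atTop (𝓝 0) := by
    refine tendsto_of_tendsto_of_tendsto_of_le_of_le' tendsto_const_nhds hinv ?_ ?_
    · filter_upwards [eventually_gt_atTop 0] with s hs
      have := (h1 s hs.le).2
      linarith
    · filter_upwards [eventually_gt_atTop 0] with s hs
      have := (h2 s hs).2
      linarith
  have conv : ∀ f : ℝ → ℝ, Tendsto (fun s => f (-s)) atTop (𝓝 0) → Tendsto f atBot (𝓝 0) := by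
    intro f hf
    have := hf.comp tendsto_neg_atBot_atTop
    refine this.congr fun x => ?_
    simp
  have conv' : ∀ f : ℝ → ℝ, Tendsto f atBot (𝓝 0) → Tendsto (fun s => f (-s)) atTop (𝓝 0) := by
    intro f hf
    exact hf.comp tendsto_neg_atTop_atBot
  refine ⟨u, hu0, conv (fun t => A t + u * B t) tJ, conv (fun t => A' t + u * B' t) tJ',
    ?_, ?_, ?_, ?_, ?_⟩
  · intro t
    rcases le_total 0 t with ht | ht
    · have h3 := hpos t ht
      have : 0 ≤ u * B t := mul_nonneg hu0.le (ht.trans h3.2.2.1)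
      linarith [h3.1]
    · have := (h1 (-t) (by linarith)).1
      simp only [neg_neg] at this
      linarith
  · intro t
    rcases le_total 0 t with ht | ht
    · have h3 := hpos t ht
      have : 0 < u * B' t := mul_pos hu0 (by linarith [h3.2.2.2.1])
      linarith [h3.2.1]
    · have := (h1 (-t) (by linarith)).2
      simp only [neg_neg] at this
      linarith
  · intro a b hab
    have h3 := conv' _ hab
    have h4 : Tendsto (fun s => (b - u * a) * B (-s)) atTop (𝓝 0) := by
      have h5 := h3.sub (tJ.const_mul a)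
      rw [mul_zero, sub_zero] at h5
      refine h5.congr fun s => ?_
      ring
    by_contra hcon
    have hne : b - u * a ≠ 0 := fun h => hcon (by linarith)
    have h6 : Tendsto (fun s => B (-s)) atTop (𝓝 0) := by
      have h7 := h4.const_mul (b - u * a)⁻¹
      rw [mul_zero] at h7
      refine h7.congr fun s => ?_
      rw [← mul_assoc, inv_mul_cancel₀ hne, one_mul]
    have h8 : ∀ᶠ s in atTop, (-1 : ℝ) < B (-s) := h6.eventually (lt_mem_nhds (by norm_num))
    obtain ⟨s, hs1, hs2⟩ := (h8.and (eventually_ge_atTop (1:ℝ))).exists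
    have := (hneg s (by linarith)).2.2.1
    linarith
  · have h3 : Tendsto (fun s => (A (-s) + u * B (-s)) * (1 / (-B (-s)))) atTop (𝓝 0) := by
      refine squeeze_zero_norm' ?_ hinv
      filter_upwards [eventually_ge_atTop (1:ℝ)] with s hs
      have e1 := (h1 s (by linarith)).1
      have e2 := (h2 s (by linarith)).1
      have e3 := (hneg s (by linarith)).2.2.1
      have e4 : 0 < 1 / (-B (-s)) := one_div_pos.2 (by linarith)
      have e5 : 1 / (-B (-s)) ≤ 1 := by
        rw [div_le_one (by linarith)]; linarith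
      have e6 : 0 < A (-s) + u * B (-s) := by linarith
      have e7 : A (-s) + u * B (-s) ≤ 1 / s := by linarith
      rw [Real.norm_eq_abs, abs_of_pos (mul_pos e6 e4)]
      calc (A (-s) + u * B (-s)) * (1 / (-B (-s))) ≤ (1 / s) * 1 :=
            mul_le_mul e7 e5 e4.le (by positivity)
        _ = 1 / s := mul_one _
    have h4 := h3.add_const u
    rw [zero_add] at h4
    refine h4.congr' ?_
    filter_upwards [eventually_ge_atTop (1:ℝ)] with s hs
    have e3 := (hneg s (by linarith)).2.2.1
    have e8 : B (-s) ≠ 0 := by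
      intro h; rw [h] at e3; linarith
    field_simp
    ring
  · intro s hs
    refine ⟨?_, ?_⟩
    · have := (hneg s hs.le).2.2.1
      linarith
    · have := hW s
      linarith

end Pool.Agent.Helper290.Liou
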