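import Pool.Agent.Helper290.Liou.Defs
import Pool.Agent.Helper290.Liou.P_L_facts
import Pool.Agent.Helper290.Liou.P_N_facts

set_option autoImplicit false

open Set Filter Topology MeasureTheory Complex
open scoped ENNReal ContDiff

namespace Pool.Agent.Helper290.Liou



theorem phi_smooth : ContDiffOn ℝ ∞ phi UU := by
  have hre : ContDiff ℝ ∞ (fun z : ℂ => z.re) := Complex.reCLM.contDiff
  have him : ContDiff ℝ ∞ (fun z : ℂ => z.im) := Complex.imCLM.contDiff
  have hcr : ContDiff ℝ ∞ (fun z : ℂ => Real.cos z.re) := Real.contDiff_cos.comp hre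
  have hci : ContDiff ℝ ∞ (fun z : ℂ => Real.cos z.im) := Real.contDiff_cos.comp him
  have hF : ContDiff ℝ ∞ FF := by
    unfold FF
    exact ((contDiff_const.sub (contDiff_const.mul hcr)).sub (contDiff_const.mul hci)).sub
      (hcr.mul hci)
  have hN : ContDiff ℝ ∞ NN := by
    unfold NN
    exact (contDiff_const.add (hre.pow 2)).add (him.pow 2)
  have hFpos : ∀ z ∈ UU, FF z ≠ 0 := fun z hz => (L_facts z hz).1.ne'
  have hlogF : ContDiffOn ℝ ∞ (fun z => Real.log (FF z)) UU := hF.contDiffOn.log hFpos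
  have hL : ContDiffOn ℝ ∞ LL UU := by
    unfold LL
    exact contDiffOn_const.sub hlogF
  have hLpos : ∀ z ∈ UU, LL z ≠ 0 := fun z hz => by
    have := (L_facts z hz).2.1
    linarith
  have hNpos : ∀ z ∈ UU, NN z ≠ 0 := fun z hz => by
    have := (N_facts z).1
    linarith
  have hlogN : ContDiffOn ℝ ∞ TT UU := by
    unfold TT
    exact hN.contDiffOn.log hNpos
  have hS : ContDiffOn ℝ ∞ SS UU := by
    unfold SS
    exact (hN.contDiffOn.sqrt hNpos).mul hlogN
  have hSpos : ∀ z ∈ UU, SS z ≠ 0 := fun z hz => by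
    have := (N_facts z).2.2.2.1
    linarith
  have hphi : phi = fun z => -(Real.log (FF z) / 2) - Real.log (LL z) - Real.log (SS z) := rfl
  rw [hphi]
  exact ((hlogF.div_const 2).neg.sub (hL.log hLpos)).sub (hS.log hSpos)

end Pool.Agent.Helper290.Liou
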