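import Pool.Agent.Helper290.Liou.Defs
import Pool.Agent.Helper290.Liou.P_flow_group

set_option autoImplicit false

open Set Filter Topology MeasureTheory Complex
open scoped ENNReal ContDiff

namespace Pool.Agent.Helper290.Liou



/-- the vector `η_s = DΦ^s(Φ^{-s} p)(0,1)` satisfies `DΦ^{-s}(p) η_s = (0,1)` -/
theorem sphere_dir (U : Set ℂ) (φ P : ℂ → ℝ) (B : ℝ) (h : Good U φ P B)
    (Φ : ℝ → ℂ × ℝ → ℂ × ℝ) (hΦ : IsGeodesicFlow U φ Φ) (p : ℂ × ℝ) (hp : p.1 ∈ U) (s : ℝ) :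
    fderiv ℝ (Φ (-s)) p (fderiv ℝ (Φ s) (Φ (-s) p) (0, 1)) = (0, 1) := by
  have hdiff : ∀ (t : ℝ) (y : ℂ × ℝ), y.1 ∈ U → DifferentiableAt ℝ (Φ t) y := by
    intro t y hy
    have hopen : IsOpen ((univ : Set ℝ) ×ˢ (U ×ˢ (univ : Set ℝ))) :=
      isOpen_univ.prod (h.op.prod isOpen_univ)
    have hmem : (t, y) ∈ (univ : Set ℝ) ×ˢ (U ×ˢ (univ : Set ℝ)) :=
      ⟨mem_univ _, hy, mem_univ _⟩
    have h1 : DifferentiableAt ℝ (fun q : ℝ × (ℂ × ℝ) => Φ q.1 q.2) (t, y) :=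
      (hΦ.smooth.contDiffAt (hopen.mem_nhds hmem)).differentiableAt (by simp)
    have h2 : DifferentiableAt ℝ (fun z : ℂ × ℝ => ((t, z) : ℝ × (ℂ × ℝ))) y :=
      (differentiableAt_const t).prodMk differentiableAt_id
    exact h1.comp y h2
  have hx : (Φ (-s) p).1 ∈ U := hΦ.mem p hp (-s)
  have hsx : Φ s (Φ (-s) p) = p := by
    rw [← flow_group U φ P B h Φ hΦ p hp s (-s), add_neg_cancel, hΦ.zero p hp]
  have hV : {y : ℂ × ℝ | y.1 ∈ U} ∈ 𝓝 (Φ (-s) p) :=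
    (h.op.preimage continuous_fst).mem_nhds hx
  have hev : (Φ (-s)) ∘ (Φ s) =ᶠ[𝓝 (Φ (-s) p)] id := by
    filter_upwards [hV] with y hy
    show Φ (-s) (Φ s y) = y
    rw [← flow_group U φ P B h Φ hΦ y hy (-s) s, neg_add_cancel, hΦ.zero y hy]
  have h3 := hev.fderiv_eq (𝕜 := ℝ)
  have h4 : DifferentiableAt ℝ (Φ (-s)) (Φ s (Φ (-s) p)) := by
    rw [hsx]; exact hdiff _ _ hp
  rw [fderiv_comp _ h4 (hdiff s _ hx), hsx, fderiv_id] at h3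
  have h5 := congrArg (fun L => L ((0, 1) : ℂ × ℝ)) h3
  simpa using h5

end Pool.Agent.Helper290.Liou
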