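import Pool.Agent.Helper290.Liou.Defs

set_option autoImplicit false

open Set Filter Topology MeasureTheory Complex
open scoped ENNReal ContDiff

namespace Pool.Agent.Helper290.Liou



theorem u_bounds (J W k : ℝ → ℝ) (τ m M : ℝ) (hτ : 0 < τ) (hm : 0 ≤ m)
    (hk : ∀ t ∈ Icc (-τ) 0, m ≤ k t ∧ k t ≤ M)
    (hJ : ∀ t, HasDerivAt J (W t) t) (hW : ∀ t, HasDerivAt W (k t * J t) t)
    (hJp : ∀ t, 0 < J t) (hWp : ∀ t, 0 < W t) :
    W 0 ≤ (1 / τ + M * τ) * J 0 ∧ min (1 / τ) (m * τ / 2) * J 0 ≤ W 0 := by
  have hM : 0 ≤ M := by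
    have := hk 0 ⟨by linarith, le_refl _⟩
    linarith
  have hJmono : StrictMono J := by
    apply strictMono_of_deriv_pos
    intro x
    rw [(hJ x).deriv]; exact hWp x
  have hWcont : Continuous W := continuous_iff_continuousAt.2 fun t => (hW t).continuousAt
  have hJcont : Continuous J := continuous_iff_continuousAt.2 fun t => (hJ t).continuousAt
  have hWmono : MonotoneOn W (Icc (-τ) 0) := by
    apply monotoneOn_of_deriv_nonneg (convex_Icc _ _) hWcont.continuousOn
      (fun t _ => (hW t).differentiableAt.differentiableWithinAt)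
    intro t ht
    rw [interior_Icc] at ht
    rw [(hW t).deriv]
    have := hk t ⟨ht.1.le, ht.2.le⟩
    exact mul_nonneg (by linarith) (hJp t).le
  have hττ : -τ ≤ (0:ℝ) := by linarith
  constructor
  · obtain ⟨s, hs, hs2⟩ := exists_hasDerivAt_eq_slope J W (show -τ < (0:ℝ) by linarith)
      hJcont.continuousOn (fun x _ => hJ x)
    have h1 : W s ≤ J 0 / τ := by
      rw [hs2]
      have : (0:ℝ) - -τ = τ := by ring
      rw [this]
      apply div_le_div_of_nonneg_right _ hτ.le
      have := hJp (-τ)
      linarith
    -- second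
    have h2 : MonotoneOn (fun t => M * J 0 * t - W t) (Icc (-τ) 0) := by
      apply monotoneOn_of_deriv_nonneg (convex_Icc _ _) (by fun_prop)
      · intro t _
        apply DifferentiableAt.differentiableWithinAt
        have := (hW t).differentiableAt
        fun_prop
      · intro t ht
        rw [interior_Icc] at ht
        have hd : HasDerivAt (fun t => M * J 0 * t - W t) (M * J 0 * 1 - k t * J t) t :=
          ((hasDerivAt_id t).const_mul (M * J 0)).sub (hW t)
        rw [hd.deriv]
        have hkt := hk t ⟨ht.1.le, ht.2.le⟩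
        have hJt : J t ≤ J 0 := hJmono.monotone ht.2.le
        have h3 : k t * J t ≤ M * J 0 :=
          mul_le_mul hkt.2 hJt (hJp t).le hM
        linarith
    have h3 := h2 ⟨hs.1.le, hs.2.le⟩ (right_mem_Icc.2 hττ) hs.2.le
    simp only [mul_zero, zero_sub] at h3
    have h4 : W 0 ≤ W s + M * J 0 * (-s) := by linarith
    have h5 : M * J 0 * (-s) ≤ M * J 0 * τ :=
      mul_le_mul_of_nonneg_left (by linarith [hs.1]) (mul_nonneg hM (hJp 0).le)
    calc W 0 ≤ J 0 / τ + M * J 0 * τ := by linarith
      _ = (1 / τ + M * τ) * J 0 := by ring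
  · by_cases hc : J 0 / τ ≤ W 0
    · calc min (1 / τ) (m * τ / 2) * J 0 ≤ (1 / τ) * J 0 :=
            mul_le_mul_of_nonneg_right (min_le_left _ _) (hJp 0).le
        _ = J 0 / τ := by ring
        _ ≤ W 0 := hc
    · push Not at hc
      have hlow : ∀ t ∈ Icc (-τ) (0:ℝ), J 0 + W 0 * t ≤ J t := by
        have h2 : AntitoneOn (fun t => J t - W 0 * t) (Icc (-τ) 0) := by
          apply antitoneOn_of_deriv_nonpos (convex_Icc _ _) (by fun_prop)
          · intro t _
            apply DifferentiableAt.differentiableWithinAt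
            have := (hJ t).differentiableAt
            fun_prop
          · intro t ht
            rw [interior_Icc] at ht
            have hd : HasDerivAt (fun t => J t - W 0 * t) (W t - W 0 * 1) t :=
              (hJ t).sub ((hasDerivAt_id t).const_mul (W 0))
            rw [hd.deriv]
            have := hWmono ⟨ht.1.le, ht.2.le⟩ (right_mem_Icc.2 hττ) ht.2.le
            linarith
        intro t ht
        have h3 := h2 ht (right_mem_Icc.2 hττ) ht.2
        simp only [mul_zero, sub_zero] at h3
        linarith
      have h2 : MonotoneOn (fun t => W t - m * (J 0 * t + W 0 * t ^ 2 / 2)) (Icc (-τ) 0) := by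
        apply monotoneOn_of_deriv_nonneg (convex_Icc _ _) (by fun_prop)
        · intro t _
          apply DifferentiableAt.differentiableWithinAt
          have := (hW t).differentiableAt
          fun_prop
        · intro t ht
          rw [interior_Icc] at ht
          have hd : HasDerivAt (fun t => W t - m * (J 0 * t + W 0 * t ^ 2 / 2))
              (k t * J t - m * (J 0 * 1 + W 0 * (2 * t ^ 1) / 2)) t := by
            have h5 : HasDerivAt (fun t : ℝ => W 0 * t ^ 2 / 2) (W 0 * (2 * t ^ 1) / 2) t := by
              have := ((hasDerivAt_pow 2 t).const_mul (W 0)).div_const 2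
              simpa using this
            exact (hW t).sub ((((hasDerivAt_id t).const_mul (J 0)).add h5).const_mul m)
          rw [hd.deriv]
          have hkt := hk t ⟨ht.1.le, ht.2.le⟩
          have hl := hlow t ⟨ht.1.le, ht.2.le⟩
          have h3 : m * J t ≤ k t * J t := mul_le_mul_of_nonneg_right hkt.1 (hJp t).le
          have h4 : m * (J 0 + W 0 * t) ≤ m * J t := mul_le_mul_of_nonneg_left hl hm
          nlinarith [h3, h4]
      have h3 := h2 (left_mem_Icc.2 hττ) (right_mem_Icc.2 hττ) hττ
      simp only at h3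
      have hWm := hWp (-τ)
      have h4 : W 0 * τ ≤ J 0 := by
        rw [lt_div_iff₀ hτ] at hc
        exact hc.le
      have h5 : m * (W 0 * τ ^ 2 / 2) ≤ m * (J 0 * τ / 2) := by
        apply mul_le_mul_of_nonneg_left _ hm
        nlinarith
      calc min (1 / τ) (m * τ / 2) * J 0 ≤ (m * τ / 2) * J 0 :=
            mul_le_mul_of_nonneg_right (min_le_right _ _) (hJp 0).le
        _ ≤ W 0 := by nlinarith

end Pool.Agent.Helper290.Liou
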