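import Pool.Agent.Helper290.Liou.Defs
import Pool.Agent.Helper290.Liou.P_geoField_smooth

set_option autoImplicit false

open Set Filter Topology MeasureTheory Complex
open scoped ENNReal ContDiff

namespace Pool.Agent.Helper290.Liou



theorem var_eq (U : Set ℂ) (φ : ℂ → ℝ) (hU : IsOpen U) (hφ : ContDiffOn ℝ ∞ φ U)
    (Φ : ℝ → ℂ × ℝ → ℂ × ℝ) (hΦ : IsGeodesicFlow U φ Φ) (p : ℂ × ℝ) (hp : p.1 ∈ U)
    (ξ : ℂ × ℝ) (t : ℝ) :
    HasDerivAt (fun s => fderiv ℝ (Φ s) p ξ)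
      (fderiv ℝ (geoField φ) (Φ t p) (fderiv ℝ (Φ t) p ξ)) t := by
  set S : Set (ℝ × (ℂ × ℝ)) := univ ×ˢ (U ×ˢ univ) with hS
  set G : ℝ × (ℂ × ℝ) → ℂ × ℝ := fun q => Φ q.1 q.2 with hGdef
  have hSo : IsOpen S := isOpen_univ.prod (hU.prod isOpen_univ)
  have hq : ∀ s, (s, p) ∈ S := fun s => ⟨mem_univ _, hp, mem_univ _⟩
  have hG : ∀ q ∈ S, ContDiffAt ℝ ∞ G q := fun q hq => hΦ.smooth.contDiffAt (hSo.mem_nhds hq)
  have hGd : ∀ q ∈ S, DifferentiableAt ℝ G q := fun q hq => (hG q hq).differentiableAt (by simp)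
  have step2 : ∀ q ∈ S, fderiv ℝ G q ((1:ℝ), (0:ℂ × ℝ)) = geoField φ (G q) := by
    intro q hq
    have hqU : q.2.1 ∈ U := hq.2.1
    have h1 : HasDerivAt (fun s => Φ s q.2) (geoField φ (Φ q.1 q.2)) q.1 :=
      (hΦ.pos q.2 hqU q.1).prodMk (hΦ.ang q.2 hqU q.1)
    have h2 : HasDerivAt (fun s : ℝ => (s, q.2)) ((1:ℝ), (0:ℂ × ℝ)) q.1 :=
      (hasDerivAt_id q.1).prodMk (hasDerivAt_const _ _)
    have h4 : HasFDerivAt G (fderiv ℝ G q) (q.1, q.2) := (hGd q hq).hasFDerivAt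
    have h3 := h4.comp_hasDerivAt q.1 h2
    exact h3.unique h1
  have step3 : ∀ s, fderiv ℝ (Φ s) p ξ = fderiv ℝ G (s, p) ((0:ℝ), ξ) := by
    intro s
    have h2 : HasFDerivAt (fun x : ℂ × ℝ => (s, x)) (ContinuousLinearMap.inr ℝ ℝ (ℂ × ℝ)) p :=
      hasFDerivAt_prodMk_right s p
    have h3 : HasFDerivAt (Φ s) ((fderiv ℝ G (s, p)).comp (ContinuousLinearMap.inr ℝ ℝ (ℂ × ℝ))) p :=
      (hGd (s, p) (hq s)).hasFDerivAt.comp p h2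
    rw [h3.fderiv]
    rfl
  have hd2 : DifferentiableAt ℝ (fderiv ℝ G) (t, p) :=
    ((hG _ (hq t)).fderiv_right (m := 1) (by norm_cast)).differentiableAt (by simp)
  have happ : ∀ v : ℝ × (ℂ × ℝ), HasFDerivAt (fun q => fderiv ℝ G q v)
      ((ContinuousLinearMap.apply ℝ (ℂ × ℝ) v).comp (fderiv ℝ (fderiv ℝ G) (t, p))) (t, p) :=
    fun v => (ContinuousLinearMap.apply ℝ (ℂ × ℝ) v).hasFDerivAt.comp (t, p) hd2.hasFDerivAt
  have step4 : HasDerivAt (fun s => fderiv ℝ G (s, p) ((0:ℝ), ξ))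
      (fderiv ℝ (fderiv ℝ G) (t, p) ((1:ℝ), (0:ℂ × ℝ)) ((0:ℝ), ξ)) t := by
    have h2 : HasDerivAt (fun s : ℝ => (s, p)) ((1:ℝ), (0:ℂ × ℝ)) t :=
      (hasDerivAt_id t).prodMk (hasDerivAt_const _ _)
    exact (happ ((0:ℝ), ξ)).comp_hasDerivAt t h2
  have hsym : fderiv ℝ (fderiv ℝ G) (t, p) ((1:ℝ), (0:ℂ × ℝ)) ((0:ℝ), ξ) =
      fderiv ℝ (fderiv ℝ G) (t, p) ((0:ℝ), ξ) ((1:ℝ), (0:ℂ × ℝ)) :=
    (hG _ (hq t)).isSymmSndFDerivAt (by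
      rw [minSmoothness_of_isRCLikeNormedField]
      exact WithTop.coe_le_coe.2 le_top) _ _
  have step5 : fderiv ℝ (fderiv ℝ G) (t, p) ((0:ℝ), ξ) ((1:ℝ), (0:ℂ × ℝ)) =
      fderiv ℝ (geoField φ) (Φ t p) (fderiv ℝ (Φ t) p ξ) := by
    have h1 := (happ ((1:ℝ), (0:ℂ × ℝ))).fderiv
    have heq : (fun q => fderiv ℝ G q ((1:ℝ), (0:ℂ × ℝ))) =ᶠ[𝓝 (t, p)]
        fun q => geoField φ (G q) := by
      filter_upwards [hSo.mem_nhds (hq t)] with q hq'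
      exact step2 q hq'
    rw [heq.fderiv_eq] at h1
    have hgd : DifferentiableAt ℝ (geoField φ) (G (t, p)) :=
      ((geoField_smooth U φ hU hφ).contDiffAt ((hU.prod isOpen_univ).mem_nhds
        ⟨hΦ.mem p hp t, mem_univ _⟩)).differentiableAt (by simp)
    have h2 : fderiv ℝ (fun q => geoField φ (G q)) (t, p) =
        (fderiv ℝ (geoField φ) (G (t, p))).comp (fderiv ℝ G (t, p)) :=
      (hgd.hasFDerivAt.comp (t, p) (hGd _ (hq t)).hasFDerivAt).fderiv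
    rw [h2] at h1
    have h3 := congrArg (fun L : (ℝ × (ℂ × ℝ)) →L[ℝ] (ℂ × ℝ) => L ((0:ℝ), ξ)) h1
    rw [step3 t]
    exact h3.symm
  have hfun : (fun s => fderiv ℝ (Φ s) p ξ) = fun s => fderiv ℝ G (s, p) ((0:ℝ), ξ) :=
    funext step3
  rw [hfun, ← step5, ← hsym]
  exact step4

end Pool.Agent.Helper290.Liou
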