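import Pool.Agent.Helper290.Liou.Defs
import Pool.Agent.Helper290.Liou.P_geoField_smooth
import Pool.Agent.Helper290.Liou.P_var_eq
import Pool.Agent.Helper290.Liou.P_jacobi
import Pool.Agent.Helper290.Liou.P_comps

set_option autoImplicit false

open Set Filter Topology MeasureTheory Complex
open scoped ENNReal ContDiff

namespace Pool.Agent.Helper290.Liou



theorem h170_lin_unique (k f g : ℝ → ℝ) (hk : Continuous k) (hf : ∀ t, HasDerivAt f (g t) t)
    (hg : ∀ t, HasDerivAt g (k t * f t) t) (f0 : f 0 = 0) (g0 : g 0 = 0) (t : ℝ) : f t = 0 ∧ g t = 0 := by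
  obtain ⟨R, hR⟩ : ∃ R, R = |t| + 1 := ⟨_, rfl⟩
  have htR := abs_nonneg t
  obtain ⟨M, hM⟩ := (isCompact_Icc (a := -R) (b := R)).exists_bound_of_continuousOn hk.continuousOn
  obtain ⟨C, hC⟩ : ∃ C : NNReal, C = ⟨max 1 M, le_trans zero_le_one (le_max_left _ _)⟩ := ⟨_, rfl⟩
  have hCv : (C : ℝ) = max 1 M := by rw [hC]; rfl
  have h := ODE_solution_unique_of_mem_Icc (v := fun t (x : ℝ × ℝ) => (x.2, k t * x.1)) (s := fun _ => univ) (K := C)
    (f := fun t => (f t, g t)) (g := fun _ => ((0:ℝ), (0:ℝ))) (a := -R) (b := R) (t₀ := 0) ?_ ?_ ?_ ?_ ?_ ?_ ?_ ?_ ?_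
  · have ht : t ∈ Icc (-R) R := by
      rw [hR]
      have := abs_le.1 (le_refl |t|)
      constructor <;> linarith [this.1, this.2]
    have := h ht
    simp only [Prod.mk.injEq] at this
    exact this
  · intro s hs
    refine LipschitzWith.lipschitzOnWith (LipschitzWith.of_dist_le_mul fun x y => ?_)
    have hks : |k s| ≤ M := hM s (Ioo_subset_Icc_self hs)
    rw [Prod.dist_eq, Prod.dist_eq]
    simp only
    rw [hCv]
    refine max_le ?_ ?_
    · calc dist x.2 y.2 ≤ 1 * max (dist x.1 y.1) (dist x.2 y.2) := by rw [one_mul]; exact le_max_right _ _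
        _ ≤ _ := mul_le_mul_of_nonneg_right (le_max_left _ _) (le_trans dist_nonneg (le_max_left _ _))
    · rw [Real.dist_eq, ← mul_sub, abs_mul, ← Real.dist_eq]
      exact mul_le_mul (hks.trans (le_max_right _ _)) (le_max_left _ _) dist_nonneg (le_trans zero_le_one (le_max_left _ _))
  · constructor <;> linarith
  · exact (Continuous.prodMk (continuous_iff_continuousAt.2 fun s => (hf s).continuousAt)
      (continuous_iff_continuousAt.2 fun s => (hg s).continuousAt)).continuousOn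
  · intro s _
    exact (hf s).prodMk (hg s)
  · intro s _; exact mem_univ _
  · exact continuousOn_const
  · intro s _
    have := hasDerivAt_const s ((0:ℝ), (0:ℝ))
    refine this.congr_deriv ?_
    exact Prod.ext (by simp) (by simp)
  · intro s _; exact mem_univ _
  · simp only [f0, g0]

theorem h170_curv_cont (U : Set ℂ) (φ : ℂ → ℝ) (hU : IsOpen U) (hφ : ContDiffOn ℝ ∞ φ U) :
    ContinuousOn (curv φ) U := by
  have h1 : ContDiffOn ℝ ∞ (fderiv ℝ φ) U := hφ.fderiv_of_isOpen hU (by norm_num)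
  have h2 : ∀ v : ℂ, ContDiffOn ℝ ∞ (fun w => fderiv ℝ φ w v) U := fun v => h1.clm_apply contDiffOn_const
  have h3 : ∀ v : ℂ, ContinuousOn (fun z => fderiv ℝ (fun w => fderiv ℝ φ w v) z v) U := fun v =>
    (((h2 v).fderiv_of_isOpen hU (m := ∞) (by norm_num)).clm_apply contDiffOn_const).continuousOn
  have h4 : ContinuousOn (lap φ) U := (h3 1).add (h3 I)
  unfold curv
  exact (ContinuousOn.mul (Real.continuous_exp.comp_continuousOn (continuousOn_const.mul hφ.continuousOn)) h4).neg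

theorem unst_line (U : Set ℂ) (φ P : ℂ → ℝ) (B : ℝ) (h : Good U φ P B)
    (hK : ∀ z ∈ U, curv φ z ≤ -1) (Φ : ℝ → ℂ × ℝ → ℂ × ℝ) (hΦ : IsGeodesicFlow U φ Φ)
    (p : ℂ × ℝ) (hp : p.1 ∈ U) :
    ∃ (A A' B B' : ℝ → ℝ) (a b : ℂ × ℝ),
      (∀ t, HasDerivAt A (A' t) t) ∧ (∀ t, HasDerivAt A' (-curv φ (Φ t p).1 * A t) t) ∧
      (∀ t, HasDerivAt B (B' t) t) ∧ (∀ t, HasDerivAt B' (-curv φ (Φ t p).1 * B t) t) ∧
      A 0 = 1 ∧ A' 0 = 0 ∧ B 0 = 0 ∧ B' 0 = 1 ∧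
      (al φ p a = 0 ∧ jj φ p a = 1 ∧ ww φ p a = 0) ∧
      (al φ p b = 0 ∧ jj φ p b = 0 ∧ ww φ p b = 1) ∧
      ∀ (η : ℂ × ℝ) (t : ℝ), al φ (Φ t p) (fderiv ℝ (Φ t) p η) = al φ p η ∧
        jj φ (Φ t p) (fderiv ℝ (Φ t) p η) = jj φ p η * A t + ww φ p η * B t ∧
        ww φ (Φ t p) (fderiv ℝ (Φ t) p η) = jj φ p η * A' t + ww φ p η * B' t := by
  have hU := h.op
  have hsm := h.sm
  have hd : ∀ t, HasDerivAt (fun s => Φ s p) (geoField φ (Φ t p)) t := fun t =>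
    (hΦ.pos p hp t).prodMk (hΦ.ang p hp t)
  have hj : ∀ (ξ : ℂ × ℝ) (t : ℝ), HasDerivAt (fun s => al φ (Φ s p) (fderiv ℝ (Φ s) p ξ)) 0 t ∧
    HasDerivAt (fun s => jj φ (Φ s p) (fderiv ℝ (Φ s) p ξ)) (ww φ (Φ t p) (fderiv ℝ (Φ t) p ξ)) t ∧
    HasDerivAt (fun s => ww φ (Φ s p) (fderiv ℝ (Φ s) p ξ)) (-curv φ (Φ t p).1 * jj φ (Φ t p) (fderiv ℝ (Φ t) p ξ)) t := by
    intro ξ t
    exact jacobi U φ hU hsm (fun s => Φ s p) (fun s => fderiv ℝ (Φ s) p ξ) t (hΦ.mem p hp t) (hd t)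
      (var_eq U φ hU hsm Φ hΦ p hp ξ t)
  have h0 : ∀ ξ : ℂ × ℝ, fderiv ℝ (Φ 0) p ξ = ξ := by
    intro ξ
    have hev : Φ 0 =ᶠ[𝓝 p] id := by
      have : U ×ˢ (univ : Set ℝ) ∈ 𝓝 p := (hU.prod isOpen_univ).mem_nhds ⟨hp, mem_univ _⟩
      filter_upwards [this] with x hx
      exact hΦ.zero x hx.1
    rw [hev.fderiv_eq, fderiv_id]
    rfl
  have hp0 : Φ 0 p = p := hΦ.zero p hp
  obtain ⟨hc1, -, -, -, -⟩ := comps φ p
  obtain ⟨a, ha1, ha2, ha3⟩ := hc1 0 1 0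
  obtain ⟨b, hb1, hb2, hb3⟩ := hc1 0 0 1
  have hkc : Continuous (fun t => -curv φ (Φ t p).1) := by
    have h1 : Continuous (fun t => (Φ t p).1) := continuous_iff_continuousAt.2 fun t => (hΦ.pos p hp t).continuousAt
    exact ((h170_curv_cont U φ hU hsm).comp_continuous h1 (fun t => hΦ.mem p hp t)).neg
  refine ⟨fun t => jj φ (Φ t p) (fderiv ℝ (Φ t) p a), fun t => ww φ (Φ t p) (fderiv ℝ (Φ t) p a),
    fun t => jj φ (Φ t p) (fderiv ℝ (Φ t) p b), fun t => ww φ (Φ t p) (fderiv ℝ (Φ t) p b), a, b,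
    fun t => (hj a t).2.1, fun t => (hj a t).2.2, fun t => (hj b t).2.1, fun t => (hj b t).2.2, ?_, ?_, ?_, ?_,
    ⟨ha1, ha2, ha3⟩, ⟨hb1, hb2, hb3⟩, ?_⟩
  · simp only [h0, hp0, ha2]
  · simp only [h0, hp0, ha3]
  · simp only [h0, hp0, hb2]
  · simp only [h0, hp0, hb3]
  · intro η t
    refine ⟨?_, ?_⟩
    · have hdiff : Differentiable ℝ (fun s => al φ (Φ s p) (fderiv ℝ (Φ s) p η)) := fun s => (hj η s).1.differentiableAt
      have := is_const_of_deriv_eq_zero hdiff (fun s => (hj η s).1.deriv) t 0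
      simp only [h0, hp0] at this
      exact this
    · have hu := h170_lin_unique (fun t => -curv φ (Φ t p).1)
        (fun t => jj φ (Φ t p) (fderiv ℝ (Φ t) p η) - (jj φ p η * jj φ (Φ t p) (fderiv ℝ (Φ t) p a) + ww φ p η * jj φ (Φ t p) (fderiv ℝ (Φ t) p b)))
        (fun t => ww φ (Φ t p) (fderiv ℝ (Φ t) p η) - (jj φ p η * ww φ (Φ t p) (fderiv ℝ (Φ t) p a) + ww φ p η * ww φ (Φ t p) (fderiv ℝ (Φ t) p b)))
        hkc (fun t => (hj η t).2.1.sub (((hj a t).2.1.const_mul _).add ((hj b t).2.1.const_mul _)))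
        (fun t => by
          refine ((hj η t).2.2.sub (((hj a t).2.2.const_mul _).add ((hj b t).2.2.const_mul _))).congr_deriv ?_
          ring)
        (by simp only [h0, hp0, ha2, hb2]; ring) (by simp only [h0, hp0, ha3, hb3]; ring) t
      exact ⟨sub_eq_zero.1 hu.1, sub_eq_zero.1 hu.2⟩

end Pool.Agent.Helper290.Liou
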