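import Pool.Agent.Helper290.Liou.P_F_facts
import Pool.Agent.Helper290.Liou.P_LS_facts
import Pool.Agent.Helper290.Liou.P_L_facts
import Pool.Agent.Helper290.Liou.P_N_facts
import Pool.Agent.Helper290.Liou.P_PP_compact
import Pool.Agent.Helper290.Liou.P_PP_deriv
import Pool.Agent.Helper290.Liou.P_P_rdist
import Pool.Agent.Helper290.Liou.P_Q_facts
import Pool.Agent.Helper290.Liou.P_SS_unbounded
import Pool.Agent.Helper290.Liou.P_S_deriv
import Pool.Agent.Helper290.Liou.P_S_near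
import Pool.Agent.Helper290.Liou.P_S_slow
import Pool.Agent.Helper290.Liou.P_U_facts
import Pool.Agent.Helper290.Liou.P_area_finite
import Pool.Agent.Helper290.Liou.P_complete_of_good
import Pool.Agent.Helper290.Liou.P_comps
import Pool.Agent.Helper290.Liou.P_curv_bounds
import Pool.Agent.Helper290.Liou.P_cut_field
import Pool.Agent.Helper290.Liou.P_dF_le
import Pool.Agent.Helper290.Liou.P_dgeo
import Pool.Agent.Helper290.Liou.P_exists_flow
import Pool.Agent.Helper290.Liou.P_exp_phi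
import Pool.Agent.Helper290.Liou.P_flow_cpt
import Pool.Agent.Helper290.Liou.P_flow_group
import Pool.Agent.Helper290.Liou.P_geoField_smooth
import Pool.Agent.Helper290.Liou.P_int_N
import Pool.Agent.Helper290.Liou.P_int_S2
import Pool.Agent.Helper290.Liou.P_int_cell
import Pool.Agent.Helper290.Liou.P_int_top
import Pool.Agent.Helper290.Liou.P_jacobi
import Pool.Agent.Helper290.Liou.P_lap_phi
import Pool.Agent.Helper290.Liou.P_liou_prob
import Pool.Agent.Helper290.Liou.P_liou_top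
import Pool.Agent.Helper290.Liou.P_loc_flow
import Pool.Agent.Helper290.Liou.P_log_derivs
import Pool.Agent.Helper290.Liou.P_ode_unst
import Pool.Agent.Helper290.Liou.P_phi_deriv
import Pool.Agent.Helper290.Liou.P_phi_smooth
import Pool.Agent.Helper290.Liou.P_rdist_near
import Pool.Agent.Helper290.Liou.P_rdist_triangle
import Pool.Agent.Helper290.Liou.P_sphere_dir
import Pool.Agent.Helper290.Liou.P_u_bounds
import Pool.Agent.Helper290.Liou.P_unst_line
import Pool.Agent.Helper290.Liou.P_unst_main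
import Pool.Agent.Helper290.Liou.P_var_eq

set_option autoImplicit false

open Set Filter Topology MeasureTheory Complex
open scoped ENNReal ContDiff

namespace Pool.Agent.Helper290.Liou

/-- `PP` is a proper function with bounded gradient. -/
theorem good_UU : Good UU phi PP 40 where
  op := U_facts.1
  sm := phi_smooth
  Bnn := by norm_num
  Pd := fun z hz => (PP_deriv z hz).1
  Pb := fun z hz w => (PP_deriv z hz).2 w
  Pc := PP_compact

theorem norm_uvec (φ : ℂ → ℝ) (p : ℂ × ℝ) : Real.exp (φ p.1) * ‖uvec φ p‖ = 1 := by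
  unfold uvec
  rw [norm_mul, Complex.norm_real, Complex.norm_exp_ofReal_mul_I, mul_one, Real.norm_eq_abs,
    abs_of_pos (Real.exp_pos _), ← Real.exp_add]
  simp

theorem curv_le (z : ℂ) (hz : z ∈ UU) : curv phi z ≤ -1 := by
  have h1 := (curv_bounds z hz).1
  have h2 := (N_facts z).2.2.2.1
  nlinarith

/-- bounds for the unstable Riccati solution and both potentials -/
theorem pot_bounds (Φ : ℝ → ℂ × ℝ → ℂ × ℝ) (hΦ : IsGeodesicFlow UU phi Φ) (p : ℂ × ℝ)
    (hp : p.1 ∈ UU) (J W : ℝ → ℝ) (hJ : ∀ t, HasDerivAt J (W t) t)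
    (hW : ∀ t, HasDerivAt W (-curv phi (Φ t p).1 * J t) t)
    (hJp : ∀ t, 0 < J t) (hWp : ∀ t, 0 < W t) :
    1 / 1202 * SS p.1 ≤ W 0 * J 0 * (1 + -curv phi (Φ 0 p).1) / (J 0 ^ 2 + W 0 ^ 2) ∧
      1 / 1202 * SS p.1 ≤ W 0 / J 0 := by
  have hS := (N_facts p.1).2.2.2.1
  set S := SS p.1 with hSdef
  have hS0 : 0 < S := by linarith
  have h0 : (Φ 0 p) = p := hΦ.zero p hp
  have hslow : ∀ t ∈ Icc (-(1 / S)) 0, SS p.1 / 2 ≤ SS (Φ t p).1 ∧ SS (Φ t p).1 ≤ 2 * SS p.1 := by
    intro t ht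
    have := S_slow (fun t => (Φ t p).1) (fun t => uvec phi (Φ t p)) (fun t => hΦ.mem p hp t)
      (fun t => hΦ.pos p hp t) (fun t => norm_uvec phi (Φ t p)) t (by
        simp only [h0]
        rw [abs_of_nonpos ht.2]
        have h3 : -t ≤ 1 / S := by linarith [ht.1]
        calc -t * SS p.1 ≤ 1 / S * S := by
              apply mul_le_mul_of_nonneg_right h3 hS0.le
          _ = 1 := by field_simp)
    simpa only [h0] using this
  have hb := u_bounds J W (fun t => -curv phi (Φ t p).1) (1 / S) (S ^ 2 / 4) (600 * S ^ 2)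
    (by positivity) (by positivity) (by
      intro t ht
      obtain ⟨h1, h2⟩ := hslow t ht
      obtain ⟨h3, h4⟩ := curv_bounds _ (hΦ.mem p hp t)
      constructor
      · refine le_trans ?_ h3
        rw [← hSdef] at h1
        nlinarith
      · refine h4.trans ?_
        rw [← hSdef] at h1 h2
        have h5 : 0 ≤ SS (Φ t p).1 := by linarith
        nlinarith) hJ hW hJp hWp
  obtain ⟨hb1, hb2⟩ := hb
  have hJ0 := hJp 0
  have hW0 := hWp 0
  have e1 : 1 / (1 / S) + 600 * S ^ 2 * (1 / S) = 601 * S := by field_simp; ring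
  rw [e1] at hb1
  have e2 : min (1 / (1 / S)) (S ^ 2 / 4 * (1 / S) / 2) = S / 8 := by
    have : S ^ 2 / 4 * (1 / S) / 2 = S / 8 := by field_simp; ring
    rw [this, one_div_one_div]
    exact min_eq_right (by linarith)
  rw [e2] at hb2
  have hK : S ^ 2 ≤ -curv phi (Φ 0 p).1 := by
    rw [h0]; exact (curv_bounds _ hp).1
  constructor
  · rw [le_div_iff₀ (by positivity)]
    -- J² + W² ≤ 2 W²
    have h1 : J 0 ≤ W 0 := by nlinarith
    have h2 : J 0 ^ 2 + W 0 ^ 2 ≤ 2 * W 0 ^ 2 := by nlinarith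
    have h3 : W 0 * J 0 * (1 + -curv phi (Φ 0 p).1) ≥ W 0 * J 0 * S ^ 2 := by
      apply mul_le_mul_of_nonneg_left _ (by positivity)
      linarith
    have h4 : 1 / 1202 * S * (J 0 ^ 2 + W 0 ^ 2) ≤ 1 / 1202 * S * (2 * W 0 ^ 2) := by
      apply mul_le_mul_of_nonneg_left h2 (by positivity)
    have h5 : W 0 ^ 2 ≤ W 0 * (601 * S * J 0) := by
      rw [sq]
      exact mul_le_mul_of_nonneg_left hb1 hW0.le
    have h6 : 1 / 1202 * S * (2 * W 0 ^ 2) ≤ 1 / 1202 * S * (2 * (W 0 * (601 * S * J 0))) := by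
      apply mul_le_mul_of_nonneg_left _ (by positivity)
      linarith
    have h7 : 1 / 1202 * S * (2 * (W 0 * (601 * S * J 0))) = W 0 * J 0 * S ^ 2 := by ring
    linarith
  · rw [le_div_iff₀ hJ0]
    nlinarith [mul_pos hS0 hJ0]

/-- The Liouville measure of a complete finite area surface of negative curvature need not be an
equilibrium state of the geometric potential: the potential is not integrable. -/
theorem main_thm : ∃ (U : Set ℂ) (φ : ℂ → ℝ) (Φ : ℝ → ℂ × ℝ → ℂ × ℝ) (ψ ψ' : ℂ × ℝ → ℝ),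
    IsOpen U ∧ IsConnected U ∧ ContDiffOn ℝ ∞ φ U ∧ CompleteMetric U φ ∧
    areaM U φ univ < ⊤ ∧ (∀ z ∈ U, curv φ z ≤ -1) ∧ (∀ R : ℝ, ∃ z ∈ U, curv φ z < -R) ∧
    IsGeodesicFlow U φ Φ ∧ IsProbabilityMeasure (liouville U φ) ∧
    IsGeomPotential (sasaki φ) U φ Φ ψ ∧ IsGeomPotential (footNorm φ) U φ Φ ψ' ∧
    (∀ p : ℂ × ℝ, p.1 ∈ U → ψ p ≤ 0 ∧ ψ' p ≤ 0) ∧
    ∫⁻ p, ENNReal.ofReal (-ψ p) ∂(liouville U φ) = ⊤ ∧
    ∫⁻ p, ENNReal.ofReal (-ψ' p) ∂(liouville U φ) = ⊤ := by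
  obtain ⟨Φ, hΦ⟩ := exists_flow UU phi PP 40 good_UU
  have hm := fun (p : ℂ × ℝ) (hp : p.1 ∈ UU) =>
    unst_main UU phi PP 40 good_UU curv_le Φ hΦ p hp
  choose! ξ J W hξ hun hsp hJ hW hJp hWp hsa hfo using hm
  set ψ : ℂ × ℝ → ℝ := fun p =>
    -(W p 0 * J p 0 * (1 + -curv phi (Φ 0 p).1) / (J p 0 ^ 2 + W p 0 ^ 2)) with hψ
  set ψ' : ℂ × ℝ → ℝ := fun p => -(W p 0 / J p 0) with hψ'
  have hb := fun (p : ℂ × ℝ) (hp : p.1 ∈ UU) =>
    pot_bounds Φ hΦ p hp (J p) (W p) (hJ p hp) (hW p hp) (hJp p hp) (hWp p hp)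
  have hfd0 : ∀ p : ℂ × ℝ, p.1 ∈ UU → sasaki phi p (ξ p) = Real.sqrt (J p 0 ^ 2 + W p 0 ^ 2) ∧
      footNorm phi p (ξ p) = J p 0 := by
    intro p hp
    have e : Φ 0 =ᶠ[𝓝 p] id := by
      have : {q : ℂ × ℝ | q.1 ∈ UU} ∈ 𝓝 p :=
        (U_facts.1.preimage continuous_fst).mem_nhds hp
      filter_upwards [this] with q hq
      exact hΦ.zero q hq
    have e2 : fderiv ℝ (Φ 0) p (ξ p) = ξ p := by
      rw [e.fderiv_eq, fderiv_id]; rfl
    have h1 := hsa p hp 0
    have h2 := hfo p hp 0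
    rw [e2, hΦ.zero p hp] at h1 h2
    exact ⟨h1, h2⟩
  refine ⟨UU, phi, Φ, ψ, ψ', U_facts.1, U_facts.2.1, phi_smooth,
    complete_of_good UU phi PP 40 good_UU (by norm_num), liou_prob.1, ?_, ?_, hΦ, liou_prob.2,
    ?_, ?_, ?_, ?_, ?_⟩
  · exact curv_le
  · intro R
    obtain ⟨z, hz, hz2⟩ := SS_unbounded (max R 1)
    refine ⟨z, hz, ?_⟩
    have h1 := (curv_bounds z hz).1
    have h2 : R < SS z := lt_of_le_of_lt (le_max_left _ _) hz2
    have h3 : 1 < SS z := lt_of_le_of_lt (le_max_right _ _) hz2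
    nlinarith
  · intro p hp
    refine ⟨ξ p, hξ p hp, hun p hp, hsp p hp, ?_⟩
    have h1 := (log_derivs (J p) (W p) (fun t => -curv phi (Φ t p).1) (hJ p hp) (hW p hp)
      (hJp p hp) (hWp p hp)).1
    simp only [hψ, neg_neg]
    refine h1.congr_of_eventuallyEq (Eventually.of_forall fun t => ?_)
    simp only
    rw [hsa p hp t, (hfd0 p hp).1]
  · intro p hp
    refine ⟨ξ p, hξ p hp, hun p hp, hsp p hp, ?_⟩
    have h1 := (log_derivs (J p) (W p) (fun t => -curv phi (Φ t p).1) (hJ p hp) (hW p hp)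
      (hJp p hp) (hWp p hp)).2
    simp only [hψ', neg_neg]
    refine h1.congr_of_eventuallyEq (Eventually.of_forall fun t => ?_)
    simp only
    rw [hfo p hp t, (hfd0 p hp).2]
  · intro p hp
    have h1 := hb p hp
    have h2 := (N_facts p.1).2.2.2.1
    simp only [hψ, hψ']
    constructor <;> linarith [h1.1, h1.2]
  · apply liou_top _ (1 / 1202) (by norm_num)
    intro p hp
    simp only [hψ, neg_neg]
    exact (hb p hp).1
  · apply liou_top _ (1 / 1202) (by norm_num)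
    intro p hp
    simp only [hψ', neg_neg]
    exact (hb p hp).2

end Pool.Agent.Helper290.Liou
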