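import Pool.Agent.Helper290.Liou.Defs
import Pool.Agent.Helper290.Liou.P_N_facts
import Pool.Agent.Helper290.Liou.P_phi_smooth
import Pool.Agent.Helper290.Liou.P_U_facts
import Pool.Agent.Helper290.Liou.P_area_finite
import Pool.Agent.Helper290.Liou.P_int_top
import Pool.Agent.Helper290.Liou.P_liou_prob

set_option autoImplicit false

open Set Filter Topology MeasureTheory Complex
open scoped ENNReal ContDiff

namespace Pool.Agent.Helper290.Liou



theorem w201_NN : Measurable NN := by
  have : Continuous NN := by
    unfold NN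
    fun_prop
  exact this.measurable

theorem w201_SS : Measurable SS := by
  have h1 : Measurable TT := by
    unfold TT
    exact Real.measurable_log.comp w201_NN
  unfold SS
  exact (Real.continuous_sqrt.measurable.comp w201_NN).mul h1

theorem w201_FF : Measurable FF := by
  have : Continuous FF := by
    unfold FF
    fun_prop
  exact this.measurable

theorem w201_LL : Measurable LL := by
  unfold LL
  exact measurable_const.sub (Real.measurable_log.comp w201_FF)

theorem w201_phi : Measurable phi := by
  unfold phi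
  exact ((((Real.measurable_log.comp w201_FF).div_const 2).neg).sub
    (Real.measurable_log.comp w201_LL)).sub (Real.measurable_log.comp w201_SS)

theorem liou_top (f : ℂ × ℝ → ℝ) (c : ℝ) (hc : 0 < c)
    (hf : ∀ p : ℂ × ℝ, p.1 ∈ UU → c * SS p.1 ≤ f p) :
    ∫⁻ p, ENNReal.ofReal (f p) ∂(liouville UU phi) = ⊤ := by
  have hfin := liou_prob.1
  have : IsFiniteMeasure (areaM UU phi) := ⟨hfin⟩
  have hpi : ENNReal.ofReal (2 * Real.pi) ≠ 0 := by
    have := Real.pi_pos
    simp only [ne_eq, ENNReal.ofReal_eq_zero, not_le]
    positivity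
  have hUm : MeasurableSet UU := U_facts.1.measurableSet
  have hden : Measurable fun z => ENNReal.ofReal (Real.exp (2 * phi z)) :=
    ENNReal.measurable_ofReal.comp (Real.measurable_exp.comp (measurable_const.mul w201_phi))
  have hg : Measurable fun z => ENNReal.ofReal (c * SS z) :=
    ENNReal.measurable_ofReal.comp (measurable_const.mul w201_SS)
  have hae1 : ∀ᵐ z ∂(areaM UU phi), z ∈ UU := by
    have h1 : areaM UU phi ≪ volume.restrict UU := withDensity_absolutelyContinuous _ _
    exact h1.ae_le (ae_restrict_mem hUm)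
  have hae2 : ∀ᵐ p ∂((areaM UU phi).prod (volume.restrict (Ioc 0 (2 * Real.pi)))), p.1 ∈ UU :=
    Measure.quasiMeasurePreserving_fst.ae hae1
  have hint : ∫⁻ z, ENNReal.ofReal (c * SS z) ∂(areaM UU phi) = ⊤ := by
    unfold areaM
    rw [lintegral_withDensity_eq_lintegral_mul _ hden hg]
    have e : ∀ z, ((fun z => ENNReal.ofReal (Real.exp (2 * phi z))) *
        fun z => ENNReal.ofReal (c * SS z)) z =
        ENNReal.ofReal c * ENNReal.ofReal (SS z * Real.exp (2 * phi z)) := by
      intro z
      simp only [Pi.mul_apply]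
      rw [← ENNReal.ofReal_mul (Real.exp_pos _).le, ← ENNReal.ofReal_mul hc.le]
      congr 1
      ring
    rw [lintegral_congr e, lintegral_const_mul, int_top, ENNReal.mul_top]
    · simp only [ne_eq, ENNReal.ofReal_eq_zero, not_le]
      exact hc
    · exact ENNReal.measurable_ofReal.comp (w201_SS.mul
        (Real.measurable_exp.comp (measurable_const.mul w201_phi)))
  have hprod : ∫⁻ p, ENNReal.ofReal (c * SS p.1)
      ∂((areaM UU phi).prod (volume.restrict (Ioc 0 (2 * Real.pi)))) = ⊤ := by
    have hgm : AEMeasurable (fun p : ℂ × ℝ => ENNReal.ofReal (c * SS p.1))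
        ((areaM UU phi).prod (volume.restrict (Ioc 0 (2 * Real.pi)))) :=
      (hg.comp measurable_fst).aemeasurable
    rw [lintegral_prod _ hgm]
    simp only [lintegral_const, Measure.restrict_apply, MeasurableSet.univ, univ_inter,
      Real.volume_Ioc, sub_zero]
    rw [lintegral_mul_const _ hg, hint, ENNReal.top_mul hpi]
  have hmono : ∫⁻ p, ENNReal.ofReal (c * SS p.1)
      ∂((areaM UU phi).prod (volume.restrict (Ioc 0 (2 * Real.pi)))) ≤
      ∫⁻ p, ENNReal.ofReal (f p)
      ∂((areaM UU phi).prod (volume.restrict (Ioc 0 (2 * Real.pi)))) := by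
    apply lintegral_mono_ae
    filter_upwards [hae2] with p hp
    exact ENNReal.ofReal_le_ofReal (hf p hp)
  rw [hprod, top_le_iff] at hmono
  unfold liouville
  rw [lintegral_smul_measure, hmono]
  have hk : (areaM UU phi univ * ENNReal.ofReal (2 * Real.pi))⁻¹ ≠ 0 := by
    apply ENNReal.inv_ne_zero.2
    exact ENNReal.mul_ne_top hfin.ne ENNReal.ofReal_ne_top
  rw [smul_eq_mul, ENNReal.mul_top hk]

end Pool.Agent.Helper290.Liou
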