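import Pool.Agent.Helper290.Liou.Defs
import Pool.Agent.Helper290.Liou.P_comps
import Pool.Agent.Helper290.Liou.P_ode_unst
import Pool.Agent.Helper290.Liou.P_unst_line
import Pool.Agent.Helper290.Liou.P_sphere_dir

set_option autoImplicit false

open Set Filter Topology MeasureTheory Complex
open scoped ENNReal ContDiff

namespace Pool.Agent.Helper290.Liou



theorem unst_main (U : Set ℂ) (φ P : ℂ → ℝ) (B : ℝ) (h : Good U φ P B)
    (hK : ∀ z ∈ U, curv φ z ≤ -1) (Φ : ℝ → ℂ × ℝ → ℂ × ℝ) (hΦ : IsGeodesicFlow U φ Φ)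
    (p : ℂ × ℝ) (hp : p.1 ∈ U) :
    ∃ (ξ : ℂ × ℝ) (J W : ℝ → ℝ), ξ ≠ 0 ∧ unstable φ Φ p = {η | ∃ c : ℝ, η = c • ξ} ∧
      Tendsto (fun s : ℝ => (sasaki φ p (fderiv ℝ (Φ s) (Φ (-s) p) (0, 1)))⁻¹ •
        fderiv ℝ (Φ s) (Φ (-s) p) (0, 1)) atTop (𝓝 ξ) ∧
      (∀ t, HasDerivAt J (W t) t) ∧ (∀ t, HasDerivAt W (-curv φ (Φ t p).1 * J t) t) ∧
      (∀ t, 0 < J t) ∧ (∀ t, 0 < W t) ∧
      (∀ t, sasaki φ (Φ t p) (fderiv ℝ (Φ t) p ξ) = Real.sqrt (J t ^ 2 + W t ^ 2)) ∧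
      (∀ t, footNorm φ (Φ t p) (fderiv ℝ (Φ t) p ξ) = J t) := by
  obtain ⟨A, A', Bf, B', a, b, hA, hA', hB, hB', A0, A0', B0, B0', ⟨a1, a2, a3⟩, ⟨b1, b2, b3⟩, hev⟩ :=
    unst_line U φ P B h hK Φ hΦ p hp
  have hk : ∀ t, 1 ≤ -curv φ (Φ t p).1 := fun t => by
    have := hK _ (hΦ.mem p hp t); linarith
  obtain ⟨u, hu, hJ0, hW0, hJp, hWp, huniq, hsl, hwr⟩ :=
    ode_unst (fun t => -curv φ (Φ t p).1) A A' Bf B' hk hA hA' hB hB' A0 A0' B0 B0'
  obtain ⟨-, hinj, hlin, -, -⟩ := comps φ p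
  have hsas := fun q : ℂ × ℝ => (comps φ q).2.2.2.1
  have hfoot := fun q : ℂ × ℝ => (comps φ q).2.2.2.2
  set n : ℝ := Real.sqrt (1 + u ^ 2) with hn
  have hnp : 0 < n := Real.sqrt_pos.2 (by positivity)
  set ξ : ℂ × ℝ := n⁻¹ • a + (n⁻¹ * u) • b with hξ
  obtain ⟨x1, x2, x3⟩ := hlin n⁻¹ (n⁻¹ * u) a b
  rw [a1, b1, mul_zero, mul_zero, add_zero] at x1
  rw [a2, b2, mul_zero, add_zero, mul_one] at x2
  rw [a3, b3, mul_zero, zero_add, mul_one] at x3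
  -- components of multiples of ξ
  have hmul : ∀ c : ℝ, al φ p (c • ξ) = 0 ∧ jj φ p (c • ξ) = c * n⁻¹ ∧
      ww φ p (c • ξ) = c * (n⁻¹ * u) := by
    intro c
    obtain ⟨y1, y2, y3⟩ := hlin c 0 ξ ξ
    rw [zero_smul, add_zero] at y1 y2 y3
    rw [y1, y2, y3, x1, x2, x3]
    refine ⟨by ring, by ring, by ring⟩
  have hξ0 : ξ ≠ 0 := by
    intro h0
    have h1 := (hmul 1).2.1
    rw [h0, smul_zero] at h1
    have h2 := (hmul 0).2.1
    rw [zero_smul, h1] at h2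
    have : n⁻¹ ≠ 0 := inv_ne_zero hnp.ne'
    apply this
    linarith
  have habs : ∀ x y z : ℝ, |x| ≤ Real.sqrt (x ^ 2 + y ^ 2 + z ^ 2) ∧
      |y| ≤ Real.sqrt (x ^ 2 + y ^ 2 + z ^ 2) := by
    intro x y z
    constructor
    · apply Real.abs_le_sqrt; nlinarith [sq_nonneg y, sq_nonneg z]
    · apply Real.abs_le_sqrt; nlinarith [sq_nonneg x, sq_nonneg z]
  refine ⟨ξ, fun t => n⁻¹ * (A t + u * Bf t), fun t => n⁻¹ * (A' t + u * B' t), hξ0, ?_, ?_,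
    ?_, ?_, ?_, ?_, ?_, ?_⟩
  · ext η
    constructor
    · intro hη
      have hη' : Tendsto (fun t => sasaki φ (Φ t p) (fderiv ℝ (Φ t) p η)) atBot (𝓝 0) := hη
      have e1 : Tendsto (fun _ : ℝ => al φ p η) atBot (𝓝 0) := by
        refine squeeze_zero_norm (fun t => ?_) hη'
        rw [hsas, Real.norm_eq_abs, (hev η t).1]
        exact (habs _ _ _).1
      have e2 : al φ p η = 0 := tendsto_nhds_unique tendsto_const_nhds e1
      have e3 : Tendsto (fun t : ℝ => jj φ p η * A t + ww φ p η * Bf t) atBot (𝓝 0) := by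
        refine squeeze_zero_norm (fun t => ?_) hη'
        rw [hsas, Real.norm_eq_abs, (hev η t).2.1]
        exact (habs _ _ _).2
      have e4 := huniq _ _ e3
      refine ⟨n * jj φ p η, ?_⟩
      obtain ⟨z1, z2, z3⟩ := hmul (n * jj φ p η)
      apply hinj
      · rw [z1, e2]
      · rw [z2]; field_simp
      · rw [z3, e4]; field_simp
    · rintro ⟨c, rfl⟩
      show Tendsto (fun t => sasaki φ (Φ t p) (fderiv ℝ (Φ t) p (c • ξ))) atBot (𝓝 0)
      obtain ⟨z1, z2, z3⟩ := hmul c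
      have e1 : (fun t => sasaki φ (Φ t p) (fderiv ℝ (Φ t) p (c • ξ)))
          = fun t => Real.sqrt ((c * n⁻¹ * (A t + u * Bf t)) ^ 2
            + (c * n⁻¹ * (A' t + u * B' t)) ^ 2) := by
        funext t
        rw [hsas, (hev _ t).1, (hev _ t).2.1, (hev _ t).2.2, z1, z2, z3]
        congr 1; ring
      rw [e1]
      have e2 := (((hJ0.const_mul (c * n⁻¹)).pow 2).add ((hW0.const_mul (c * n⁻¹)).pow 2)).sqrt
      simpa using e2
  · have e1 : Tendsto (fun s : ℝ => (Real.sqrt (1 + (-A (-s) / Bf (-s)) ^ 2))⁻¹ • a +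
        ((Real.sqrt (1 + (-A (-s) / Bf (-s)) ^ 2))⁻¹ * (-A (-s) / Bf (-s))) • b) atTop (𝓝 ξ) := by
      have e2 : Tendsto (fun s : ℝ => (Real.sqrt (1 + (-A (-s) / Bf (-s)) ^ 2))⁻¹) atTop
          (𝓝 n⁻¹) := by
        have e3 : Tendsto (fun s : ℝ => 1 + (-A (-s) / Bf (-s)) ^ 2) atTop (𝓝 (1 + u ^ 2)) :=
          tendsto_const_nhds.add (hsl.pow 2)
        exact e3.sqrt.inv₀ hnp.ne'
      exact (e2.smul tendsto_const_nhds).add ((e2.mul hsl).smul tendsto_const_nhds)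
    refine e1.congr' ?_
    filter_upwards [eventually_gt_atTop (0 : ℝ)] with s hs
    obtain ⟨hBn, hw⟩ := hwr s hs
    have hd := sphere_dir U φ P B h Φ hΦ p hp s
    set η : ℂ × ℝ := fderiv ℝ (Φ s) (Φ (-s) p) (0, 1) with hη
    have hq := hev η (-s)
    rw [hd] at hq
    have c1 : al φ (Φ (-s) p) ((0 : ℂ), (1 : ℝ)) = 0 := by simp [al]
    have c2 : jj φ (Φ (-s) p) ((0 : ℂ), (1 : ℝ)) = 0 := by simp [jj]
    have c3 : ww φ (Φ (-s) p) ((0 : ℂ), (1 : ℝ)) = 1 := by simp [ww]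
    rw [c1, c2, c3] at hq
    obtain ⟨q1, q2, q3⟩ := hq
    set x := jj φ p η with hx
    set y := ww φ p η with hy
    have hxv : x = -Bf (-s) := by
      linear_combination x * hw - B' (-s) * q2 + Bf (-s) * q3
    have hyv : y = A (-s) := by
      have : y * Bf (-s) = A (-s) * Bf (-s) := by
        rw [hxv] at q2; linarith
      exact mul_right_cancel₀ hBn.ne this
    have hηe : η = x • a + y • b := by
      obtain ⟨y1, y2, y3⟩ := hlin x y a b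
      apply hinj
      · rw [y1, a1, b1, ← q1]; ring
      · rw [y2, a2, b2]; ring
      · rw [y3, a3, b3]; ring
    have hxp : 0 < x := by rw [hxv]; linarith
    set v : ℝ := -A (-s) / Bf (-s) with hv
    have hyx : y = x * v := by
      rw [hyv, hxv, hv]
      have := hBn.ne
      field_simp
    have hsq : sasaki φ p η = x * Real.sqrt (1 + v ^ 2) := by
      rw [hsas, ← hx, ← hy, ← q1, hyx]
      have : (0 : ℝ) ^ 2 + x ^ 2 + (x * v) ^ 2 = x ^ 2 * (1 + v ^ 2) := by ring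
      rw [this, Real.sqrt_mul (by positivity), Real.sqrt_sq hxp.le]
    have hsp : 0 < Real.sqrt (1 + v ^ 2) := Real.sqrt_pos.2 (by positivity)
    rw [hsq, hηe, smul_add, smul_smul, smul_smul, hyx]
    have f1 : (x * Real.sqrt (1 + v ^ 2))⁻¹ * x = (Real.sqrt (1 + v ^ 2))⁻¹ := by
      field_simp
    have f2 : (x * Real.sqrt (1 + v ^ 2))⁻¹ * (x * v) = (Real.sqrt (1 + v ^ 2))⁻¹ * v := by
      field_simp
    rw [f1, f2]
  · intro t
    exact ((hA t).add ((hB t).const_mul u)).const_mul n⁻¹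
  · intro t
    have e1 := ((hA' t).add ((hB' t).const_mul u)).const_mul n⁻¹
    refine e1.congr_deriv ?_
    ring
  · intro t
    exact mul_pos (inv_pos.2 hnp) (hJp t)
  · intro t
    exact mul_pos (inv_pos.2 hnp) (hWp t)
  · intro t
    rw [hsas, (hev _ t).1, (hev _ t).2.1, (hev _ t).2.2, x1, x2, x3]
    congr 1; ring
  · intro t
    rw [hfoot, (hev _ t).1, (hev _ t).2.1, x1, x2, x3]
    have e1 : (0 : ℝ) ^ 2 + (n⁻¹ * A t + n⁻¹ * u * Bf t) ^ 2 = (n⁻¹ * (A t + u * Bf t)) ^ 2 := by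
      ring
    rw [e1, Real.sqrt_sq (mul_pos (inv_pos.2 hnp) (hJp t)).le]

end Pool.Agent.Helper290.Liou
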