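import Mathlib

set_option autoImplicit false

open Set Filter Topology MeasureTheory Complex
open scoped ENNReal ContDiff

namespace Pool.Agent.Helper290.Liou

/-- The Laplacian `f_xx + f_yy` of a real function of `z = x + i y`. -/
noncomputable def lap (f : ℂ → ℝ) (z : ℂ) : ℝ :=
  fderiv ℝ (fun w => fderiv ℝ f w 1) z 1 + fderiv ℝ (fun w => fderiv ℝ f w I) z I

/-- The Gaussian (= sectional) curvature `K = - e^{-2φ} Δφ` of the Riemannian metric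
`g = e^{2φ} (dx² + dy²)`. -/
noncomputable def curv (φ : ℂ → ℝ) (z : ℂ) : ℝ := -(Real.exp (-2 * φ z) * lap φ z)

/-- The length of the curve `γ : [0,1] → ℂ` in the metric `e^{2φ} (dx² + dy²)`. -/
noncomputable def len (φ : ℂ → ℝ) (γ : ℝ → ℂ) : ℝ≥0∞ :=
  ∫⁻ t in Icc (0:ℝ) 1, ENNReal.ofReal (Real.exp (φ (γ t)) * ‖deriv γ t‖)

/-- The Riemannian distance on `U`: infimum of the lengths of the `C¹` curves inside `U`. -/
noncomputable def rdist (U : Set ℂ) (φ : ℂ → ℝ) (z w : ℂ) : ℝ≥0∞ :=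
  ⨅ γ ∈ {γ : ℝ → ℂ | ContDiff ℝ 1 γ ∧ (∀ t ∈ Icc (0:ℝ) 1, γ t ∈ U) ∧ γ 0 = z ∧ γ 1 = w}, len φ γ

/-- The Riemannian manifold `(U, e^{2φ} (dx² + dy²))` is complete: every Cauchy sequence of the
Riemannian distance converges. -/
def CompleteMetric (U : Set ℂ) (φ : ℂ → ℝ) : Prop :=
  ∀ s : ℕ → ℂ, (∀ n, s n ∈ U) →
    (∀ ε : ℝ≥0∞, 0 < ε → ∃ k, ∀ m ≥ k, ∀ n ≥ k, rdist U φ (s m) (s n) < ε) →
    ∃ z ∈ U, Tendsto (fun n => rdist U φ (s n) z) atTop (𝓝 0)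

/-- The unit tangent vector of `g = e^{2φ} (dx² + dy²)` at `p.1` with angle `p.2`:
`e^{-φ} e^{iθ}`.  The unit tangent bundle of `(U, g)` is `U × ℝ / 2πℤ` in these coordinates. -/
noncomputable def uvec (φ : ℂ → ℝ) (p : ℂ × ℝ) : ℂ :=
  ((Real.exp (-φ p.1) : ℝ) : ℂ) * Complex.exp ((p.2 : ℂ) * I)

/-- The geodesic vector field in the coordinates `(z, θ)`. -/
noncomputable def geoField (φ : ℂ → ℝ) (p : ℂ × ℝ) : ℂ × ℝ :=
  (uvec φ p, fderiv ℝ φ p.1 (I * uvec φ p))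

/-- `Φ` is the (complete) geodesic flow on the unit tangent bundle of `(U, e^{2φ} (dx² + dy²))`,
in the coordinates `(z, θ)` (with the angle lifted to `ℝ`): `s ↦ (Φ s p).1` is a curve in `U`,
defined for all times, with unit velocity `uvec φ (Φ s p)`, which satisfies the geodesic equation
`z'' = - (φ_x - i φ_y) z'^2` of the Levi-Civita connection; `(Φ s p).2` is the continuous angle of
its velocity. -/
structure IsGeodesicFlow (U : Set ℂ) (φ : ℂ → ℝ) (Φ : ℝ → ℂ × ℝ → ℂ × ℝ) : Prop where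
  zero : ∀ p, p.1 ∈ U → Φ 0 p = p
  mem : ∀ p, p.1 ∈ U → ∀ t, (Φ t p).1 ∈ U
  pos : ∀ p, p.1 ∈ U → ∀ t, HasDerivAt (fun s => (Φ s p).1) (uvec φ (Φ t p)) t
  geo : ∀ p, p.1 ∈ U → ∀ t, HasDerivAt (fun s => uvec φ (Φ s p))
    (-(((fderiv ℝ φ (Φ t p).1 1 : ℝ) : ℂ) - I * ((fderiv ℝ φ (Φ t p).1 I : ℝ) : ℂ))
      * uvec φ (Φ t p) ^ 2) t
  ang : ∀ p, p.1 ∈ U → ∀ t,
    HasDerivAt (fun s => (Φ s p).2) (fderiv ℝ φ (Φ t p).1 (I * uvec φ (Φ t p))) t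
  smooth : ContDiffOn ℝ ∞ (fun q : ℝ × (ℂ × ℝ) => Φ q.1 q.2) (univ ×ˢ (U ×ˢ univ))

/-- The Sasaki norm of the tangent vector `ξ = (ζ, ϑ)` of the unit tangent bundle at `p = (z, θ)`:
the horizontal part is `ζ`, the vertical part is the covariant derivative `ϑ - dφ(iζ)` (a unit
field `e^{-φ} e^{iθ}` is parallel along `ζ` iff `dθ = dφ(iζ)`). -/
noncomputable def sasaki (φ : ℂ → ℝ) (p ξ : ℂ × ℝ) : ℝ :=
  Real.sqrt ((Real.exp (φ p.1) * ‖ξ.1‖) ^ 2 + (ξ.2 - fderiv ℝ φ p.1 (I * ξ.1)) ^ 2)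

/-- The norm of the projection `dπ ξ` to the tangent space of the surface (the norm on the unstable
horospheres in the surface). -/
noncomputable def footNorm (φ : ℂ → ℝ) (p ξ : ℂ × ℝ) : ℝ := Real.exp (φ p.1) * ‖ξ.1‖

/-- The unstable subspace `E^u(p) ⊆ T_p T¹M`: the vectors which are contracted to zero by `dg^t`
as `t → -∞`. -/
def unstable (φ : ℂ → ℝ) (Φ : ℝ → ℂ × ℝ → ℂ × ℝ) (p : ℂ × ℝ) : Set (ℂ × ℝ) :=
  {ξ | Tendsto (fun t => sasaki φ (Φ t p) (fderiv ℝ (Φ t) p ξ)) atBot (𝓝 0)}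

/-- `ψ` is the geometric potential `φ^u = - d/dt|_{t=0} log |det (dg^t | E^u)|`, where determinants
are measured by the norm `nrm`: `E^u(p)` is a line `ℝ ξ` which is also the limit, as `s → ∞`, of
the tangent lines at `p` of the unit normals of the circles of radius `s` around the foot point of
`g^{-s} p` (the tangent line of the unit normals of the unstable horosphere), and
`|det (dg^t | E^u(p))| = ‖dg^t ξ‖ / ‖ξ‖`. -/
def IsGeomPotential (nrm : ℂ × ℝ → ℂ × ℝ → ℝ) (U : Set ℂ) (φ : ℂ → ℝ)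
    (Φ : ℝ → ℂ × ℝ → ℂ × ℝ) (ψ : ℂ × ℝ → ℝ) : Prop :=
  ∀ p : ℂ × ℝ, p.1 ∈ U → ∃ ξ : ℂ × ℝ, ξ ≠ 0 ∧ unstable φ Φ p = {η | ∃ c : ℝ, η = c • ξ} ∧
    Tendsto (fun s : ℝ => (sasaki φ p (fderiv ℝ (Φ s) (Φ (-s) p) (0, 1)))⁻¹ •
      fderiv ℝ (Φ s) (Φ (-s) p) (0, 1)) atTop (𝓝 ξ) ∧
    HasDerivAt (fun t => Real.log (nrm (Φ t p) (fderiv ℝ (Φ t) p ξ) / nrm p ξ)) (-ψ p) 0

/-- The Riemannian area measure of `(U, e^{2φ} (dx² + dy²))`. -/
noncomputable def areaM (U : Set ℂ) (φ : ℂ → ℝ) : Measure ℂ :=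
  (volume.restrict U).withDensity (fun z => ENNReal.ofReal (Real.exp (2 * φ z)))

/-- The (normalised) Liouville measure: Riemannian area times the uniform measure on the circle of
unit vectors. -/
noncomputable def liouville (U : Set ℂ) (φ : ℂ → ℝ) : Measure (ℂ × ℝ) :=
  (areaM U φ univ * ENNReal.ofReal (2 * Real.pi))⁻¹ •
    (areaM U φ).prod (volume.restrict (Ioc 0 (2 * Real.pi)))

end Pool.Agent.Helper290.Liou
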